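import Pool.Agent.H4.Nf

/-! Averages over the primes and over the circle. -/

set_option autoImplicit false

namespace Pool.Agent.H4.Hk

open Finset NumberField ComplexConjugate IsDedekindDomain Filter Topology MeasureTheory
open Pool.Agent.W540.BE (nm upto mem_upto fiber_finite fiber_card two_le_nm)
open Pool.Agent.H821.ST (uK uK_tendsto ng card_ng_le)
open Pool.Agent.H4.Mom
open Pool.Agent.H4 (IsHecke avg Equidistributed IsTwist circleAvg)

section

variable {K : Type} [Field K] [NumberField K]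

theorem avg_eq (g : HeightOneSpectrum (𝓞 K) → ℂ) (N : ℕ) :
    avg g N = (∑ v ∈ upto K N, g v) / ((upto K N).card : ℂ) := by
  have hs : ∀ v, v ∈ upto K N ↔ Ideal.absNorm v.asIdeal ≤ N := fun v => mem_upto
  let e : {v : HeightOneSpectrum (𝓞 K) // Ideal.absNorm v.asIdeal ≤ N} ≃ (upto K N) :=
    Equiv.subtypeEquivRight fun v => (hs v).symm
  have hfin : Finite {v : HeightOneSpectrum (𝓞 K) // Ideal.absNorm v.asIdeal ≤ N} :=
    Finite.of_equiv _ e.symm
  unfold avg
  have h1 : (∑ᶠ v : {v : HeightOneSpectrum (𝓞 K) // Ideal.absNorm v.asIdeal ≤ N}, g v.1) =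
      ∑ v ∈ upto K N, g v := by
    rw [← Finset.sum_coe_sort, ← finsum_eq_sum_of_fintype, ← finsum_comp_equiv e]
    rfl
  have h2 : Nat.card {v : HeightOneSpectrum (𝓞 K) // Ideal.absNorm v.asIdeal ≤ N} =
      (upto K N).card := by
    rw [Nat.card_congr e, Nat.card_eq_fintype_card, Fintype.card_coe]
  rw [h1, h2]

theorem avg_sub (P Q : HeightOneSpectrum (𝓞 K) → ℂ) (N : ℕ) :
    avg (fun v => P v - Q v) N = avg P N - avg Q N := by
  rw [avg_eq, avg_eq, avg_eq, Finset.sum_sub_distrib, sub_div]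

theorem avg_add (P Q : HeightOneSpectrum (𝓞 K) → ℂ) (N : ℕ) :
    avg (fun v => P v + Q v) N = avg P N + avg Q N := by
  rw [avg_eq, avg_eq, avg_eq, Finset.sum_add_distrib, add_div]

theorem avg_sum {κ : Type*} (s : Finset κ) (P : κ → HeightOneSpectrum (𝓞 K) → ℂ) (N : ℕ) :
    avg (fun v => ∑ i ∈ s, P i v) N = ∑ i ∈ s, avg (P i) N := by
  classical
  induction s using Finset.induction_on with
  | empty =>
    simp only [sum_empty]
    rw [avg_eq]
    simp
  | insert a s ha ih =>
    rw [sum_insert ha, ← ih, ← avg_add]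
    congr 1
    funext v
    rw [sum_insert ha]

theorem avg_const_mul (c : ℂ) (P : HeightOneSpectrum (𝓞 K) → ℂ) (N : ℕ) :
    avg (fun v => c * P v) N = c * avg P N := by
  rw [avg_eq, avg_eq, ← mul_sum, mul_div_assoc]

theorem avg_conj (P : HeightOneSpectrum (𝓞 K) → ℂ) (N : ℕ) :
    avg (fun v => conj (P v)) N = conj (avg P N) := by
  rw [avg_eq, avg_eq, map_div₀, map_sum, Complex.conj_natCast]

theorem avg_norm_le {P : HeightOneSpectrum (𝓞 K) → ℂ} {r : ℝ} (hr : 0 ≤ r)
    (h : ∀ v, ‖P v‖ ≤ r) (N : ℕ) : ‖avg P N‖ ≤ r := by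
  rw [avg_eq, norm_div, Complex.norm_natCast]
  rcases Nat.eq_zero_or_pos (upto K N).card with h0 | h0
  · rw [h0]
    simpa using hr
  · rw [div_le_iff₀ (by exact_mod_cast h0)]
    refine (norm_sum_le _ _).trans ((Finset.sum_le_sum fun v _ => h v).trans ?_)
    rw [Finset.sum_const, nsmul_eq_mul, mul_comm]

theorem avg_sub_le {P Q : HeightOneSpectrum (𝓞 K) → ℂ} {r : ℝ} (hr : 0 ≤ r)
    (h : ∀ v, ‖P v - Q v‖ ≤ r) (N : ℕ) : ‖avg P N - avg Q N‖ ≤ r := by
  rw [← avg_sub]
  exact avg_norm_le hr h N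

/-- the other primes -/
noncomputable def nbad (K : Type) [Field K] [NumberField K] (D N : ℕ) : ℝ :=
  open Classical in ((upto K N \ gd K D N).card : ℝ)

theorem nbad_le (D N : ℕ) (hD : D ≠ 0) :
    nbad K D N ≤ Module.finrank ℚ K * (Real.sqrt N + Real.log (2 * D) / Real.log 2) := by
  classical
  have h1 : upto K N \ gd K D N ⊆ ng K N (D : ℤ) := by
    intro v hv
    rw [Finset.mem_sdiff, mem_gd, mem_upto] at hv
    unfold ng
    rw [mem_filter, mem_upto]
    refine ⟨hv.1, fun h => hv.2 ⟨hv.1, h.1, fun hdvd => h.2 ?_⟩⟩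
    obtain ⟨c, hc⟩ := hdvd
    have h4 : ((nm K v : ℕ) : 𝓞 K) ∈ v.asIdeal := Ideal.absNorm_mem v.asIdeal
    push_cast
    rw [hc]
    push_cast
    exact v.asIdeal.mul_mem_left _ (v.asIdeal.mul_mem_right _ h4)
  have h2 := card_ng_le (K := K) N (D := (D : ℤ)) (by exact_mod_cast hD)
  have h3 : |(((D : ℕ) : ℤ) : ℝ)| = D := by
    push_cast
    exact abs_of_nonneg (Nat.cast_nonneg _)
  rw [h3] at h2
  unfold nbad
  exact le_trans (by exact_mod_cast card_le_card h1) h2

/-- the average of a function which is given at the good primes -/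
theorem avg_le_S {D : ℕ} {z : HeightOneSpectrum (𝓞 K) → ℂ} {g b : HeightOneSpectrum (𝓞 K) → ℂ}
    (hg : ∀ v, ‖g v‖ ≤ 1) (n N : ℕ)
    (hgb : ∀ v ∈ gd K D N, g v = b v * z v ^ n) :
    ‖avg g N‖ * uK K N ≤ ‖S (gd K D N) b z n‖ + nbad K D N := by
  classical
  have hsub : gd K D N ⊆ upto K N := by
    intro v hv
    rw [mem_gd] at hv
    rw [mem_upto]
    exact hv.1
  have h1 : ∑ v ∈ upto K N, g v = S (gd K D N) b z n + ∑ v ∈ upto K N \ gd K D N, g v := by
    unfold S
    rw [← sum_sdiff hsub, add_comm]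
    congr 1
    exact sum_congr rfl hgb
  have h2 : ‖∑ v ∈ upto K N, g v‖ ≤ ‖S (gd K D N) b z n‖ + nbad K D N := by
    rw [h1]
    refine (norm_add_le _ _).trans (add_le_add le_rfl ?_)
    refine (norm_sum_le _ _).trans ((sum_le_card_nsmul _ _ _ fun v _ => hg v).trans ?_)
    unfold nbad
    rw [nsmul_eq_mul, mul_one]
  rw [avg_eq, norm_div, Complex.norm_natCast]
  unfold uK
  rcases Nat.eq_zero_or_pos (upto K N).card with h0 | h0
  · rw [h0]
    push_cast
    rw [mul_zero]
    exact (norm_nonneg _).trans h2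
  · rw [div_mul_cancel₀]
    · exact h2
    · exact_mod_cast h0.ne'

end

section circle

theorem circleAvg_zpow (w : ℤ) (c : ℂ) :
    circleAvg (fun a => (a : ℂ) ^ w * c) = if w = 0 then c else 0 := by
  unfold circleAvg
  split_ifs with h
  · subst h
    simp
  · have hw : (w : ℂ) ≠ 0 := by exact_mod_cast h
    have hc : (w : ℂ) * (2 * Real.pi * Complex.I) ≠ 0 :=
      mul_ne_zero hw Complex.two_pi_I_ne_zero
    have h1 : ∀ t : ℝ, ((Circle.exp (2 * Real.pi * t) : Circle) : ℂ) ^ w * c =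
        Complex.exp ((w : ℂ) * (2 * Real.pi * Complex.I) * t) * c := by
      intro t
      rw [Circle.coe_exp, ← Complex.exp_int_mul]
      congr 2
      push_cast
      ring
    simp_rw [h1]
    rw [intervalIntegral.integral_mul_const, integral_exp_mul_complex hc]
    have h2 : Complex.exp ((w : ℂ) * (2 * Real.pi * Complex.I) * ((1 : ℝ) : ℂ)) = 1 := by
      rw [Complex.ofReal_one, mul_one, Complex.exp_int_mul_two_pi_mul_I]
    rw [h2]
    simp

theorem continuous_circle_param : Continuous fun t : ℝ => Circle.exp (2 * Real.pi * t) :=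
  Circle.exp.continuous.comp (continuous_const.mul continuous_id)

theorem circleAvg_sub_le {f g : Circle → ℂ} (hf : Continuous f) (hg : Continuous g) {r : ℝ}
    (h : ∀ a, ‖f a - g a‖ ≤ r) : ‖circleAvg f - circleAvg g‖ ≤ r := by
  unfold circleAvg
  rw [← intervalIntegral.integral_sub]
  · have h1 := intervalIntegral.norm_integral_le_of_norm_le_const (a := 0) (b := 1) (C := r)
      (f := fun t : ℝ => f (Circle.exp (2 * Real.pi * t)) - g (Circle.exp (2 * Real.pi * t)))
      fun t _ => h _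
    simpa using h1
  · exact (hf.comp continuous_circle_param).intervalIntegrable _ _
  · exact (hg.comp continuous_circle_param).intervalIntegrable _ _

theorem circleAvg_sum {κ : Type*} (s : Finset κ) (f : κ → Circle → ℂ) (hf : ∀ i, Continuous (f i)) :
    circleAvg (fun a => ∑ i ∈ s, f i a) = ∑ i ∈ s, circleAvg (f i) := by
  unfold circleAvg
  exact intervalIntegral.integral_finsetSum fun i _ =>
    ((hf i).comp continuous_circle_param).intervalIntegrable _ _

/-- trigonometric approximation -/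
theorem trig_approx (f : C(Circle, ℂ)) {ε : ℝ} (hε : 0 < ε) :
    ∃ (s : Finset ℤ) (c : ℤ → ℂ), ∀ a : Circle, ‖f a - ∑ l ∈ s, (a : ℂ) ^ l * c l‖ ≤ ε := by
  have : Fact (0 < 2 * Real.pi) := ⟨Real.two_pi_pos⟩
  let e : C(AddCircle (2 * Real.pi), Circle) := ⟨AddCircle.toCircle, AddCircle.continuous_toCircle⟩
  have h1 : f.comp e ∈ (Submodule.span ℂ (Set.range (@fourier (2 * Real.pi)))).topologicalClosure := by
    rw [span_fourier_closure_eq_top]
    exact Submodule.mem_top
  have h2 : f.comp e ∈ closure ((Submodule.span ℂ (Set.range (@fourier (2 * Real.pi))) : Set _)) := h1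
  rw [Metric.mem_closure_iff] at h2
  obtain ⟨g, hg, hfg⟩ := h2 ε hε
  rw [SetLike.mem_coe, Finsupp.mem_span_range_iff_exists_finsupp] at hg
  obtain ⟨c, hc⟩ := hg
  refine ⟨c.support, c, fun a => ?_⟩
  obtain ⟨x, hx⟩ : ∃ x : AddCircle (2 * Real.pi), AddCircle.toCircle x = a := by
    obtain ⟨x, hx⟩ := (AddCircle.homeomorphCircle (T := 2 * Real.pi)
      Real.two_pi_pos.ne').surjective a
    exact ⟨x, by rw [← hx, AddCircle.homeomorphCircle_apply]⟩
  have h3 := ContinuousMap.dist_apply_le_dist (f := f.comp e) (g := g) x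
  rw [dist_eq_norm] at h3
  have h4 : g x = ∑ l ∈ c.support, (a : ℂ) ^ l * c l := by
    rw [← hc, Finsupp.sum, ContinuousMap.coe_sum, Finset.sum_apply]
    refine sum_congr rfl fun l _ => ?_
    rw [ContinuousMap.smul_apply, smul_eq_mul, fourier_apply, AddCircle.toCircle_zsmul, hx, mul_comm]
    push_cast
    rfl
  have h5 : f.comp e x = f a := by
    rw [← hx]
    rfl
  rw [h4, h5] at h3
  exact h3.trans hfg.le

end circle

end Pool.Agent.H4.Hk
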