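import Mathlib

/-! Definitions: averages over primes, equidistribution, Hecke characters of infinite order of imaginary
quadratic fields and twists by their powers. -/

set_option autoImplicit false

namespace Pool.Agent.H4

open NumberField IsDedekindDomain Filter Topology MeasureTheory

/-- The average of `φ` over the primes of `K` of norm at most `N`. -/
noncomputable def avg {K : Type} [Field K] [NumberField K] (φ : HeightOneSpectrum (𝓞 K) → ℂ)
    (N : ℕ) : ℂ :=
  (∑ᶠ v : {v : HeightOneSpectrum (𝓞 K) // Ideal.absNorm v.asIdeal ≤ N}, φ v.1) /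
    (Nat.card {v : HeightOneSpectrum (𝓞 K) // Ideal.absNorm v.asIdeal ≤ N} : ℂ)

/-- The averages over the `x v` of all continuous class functions on `H` tend to the integrals for `μ`. -/
def Equidistributed {K : Type} [Field K] [NumberField K] {H : Type} [Group H] [TopologicalSpace H]
    [MeasurableSpace H] (x : HeightOneSpectrum (𝓞 K) → H) (μ : Measure H) : Prop :=
  ∀ f : H → ℂ, Continuous f → (∀ g h, f (g * h * g⁻¹) = f h) →
    Tendsto (avg fun v => f (x v)) atTop (𝓝 (∫ h, f h ∂μ))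

/-- `ψ` is a unitary Hecke character of the field `F` modulo `𝔪`: it is multiplicative on the ideals
prime to `𝔪` and `ψ((α)) = (σ(α) / |σ(α)|)^m` for all `α ≠ 0` with `α ≡ 1` modulo `𝔪`. -/
structure IsHecke (F : Type) [Field F] [NumberField F] (𝔪 : Ideal (𝓞 F)) (σ : F →+* ℂ) (m : ℕ)
    (ψ : Ideal (𝓞 F) → Circle) : Prop where
  mul : ∀ 𝔞 𝔟 : Ideal (𝓞 F), IsCoprime 𝔞 𝔪 → IsCoprime 𝔟 𝔪 → ψ (𝔞 * 𝔟) = ψ 𝔞 * ψ 𝔟
  principal : ∀ α : 𝓞 F, α ≠ 0 → α - 1 ∈ 𝔪 →
    (ψ (Ideal.span {α}) : ℂ) = (σ α / ‖σ α‖) ^ m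

/-- The `y v` are in the classes of the twist by `ψ ^ k` of the family with the classes of the `x v`:
for all primes `v` of `K` whose norm to `F` is prime to `𝔪`, `y v` is a conjugate of
`ι (ψ (N v) ^ k) * x v`. -/
def IsTwist {F K : Type} [Field F] [NumberField F] [Field K] [NumberField K] [Algebra F K]
    {H : Type} [Group H] (𝔪 : Ideal (𝓞 F)) (ψ : Ideal (𝓞 F) → Circle) (ι : Circle →* H) (k : ℕ)
    (x y : HeightOneSpectrum (𝓞 K) → H) : Prop :=
  ∀ v : HeightOneSpectrum (𝓞 K), IsCoprime (Ideal.relNorm (𝓞 F) v.asIdeal) 𝔪 →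
    ∃ h : H, y v = h * (ι (ψ (Ideal.relNorm (𝓞 F) v.asIdeal) ^ k) * x v) * h⁻¹

/-- The average of a function over the unit circle. -/
noncomputable def circleAvg (f : Circle → ℂ) : ℂ :=
  ∫ t in (0 : ℝ)..1, f (Circle.exp (2 * Real.pi * t))

end Pool.Agent.H4
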