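import Pool.Agent.H4.HT2

/-! Hecke twists: compact sets of test functions. -/

set_option autoImplicit false

namespace Pool.Agent.H4.Hk

open Finset NumberField ComplexConjugate IsDedekindDomain Filter Topology MeasureTheory
open Pool.Agent.W540.BE (nm upto mem_upto fiber_finite fiber_card two_le_nm)
open Pool.Agent.H821.ST (uK uK_tendsto ng card_ng_le)
open Pool.Agent.H4.Mom
open Pool.Agent.H4 (IsHecke avg Equidistributed IsTwist circleAvg)

variable {F K : Type} [Field F] [NumberField F] [Field K] [NumberField K] [Algebra F K]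
variable {𝔪 : Ideal (𝓞 F)} {σ : F →+* ℂ} {m : ℕ} {ψ : Ideal (𝓞 F) → Circle}

theorem avg_zpow_le {b : HeightOneSpectrum (𝓞 K) → ℂ} {l : ℤ} (hl : l ≠ 0) (hb : ∀ v, ‖b v‖ ≤ 1)
    (k D N : ℕ) {s : ℝ}
    (hs1 : ‖S (gd K D N) b (zz K ψ) (l.natAbs * k)‖ ≤ s)
    (hs2 : ‖S (gd K D N) (fun v => conj (b v)) (zz K ψ) (l.natAbs * k)‖ ≤ s) :
    ‖avg (fun v => (zz K ψ v ^ k) ^ l * b v) N‖ * uK K N ≤ s + nbad K D N := by
  have hn : ∀ v, ‖(zz K ψ v ^ k) ^ l * b v‖ ≤ 1 := by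
    intro v
    rw [norm_mul, norm_zpow, norm_pow, norm_zz, one_pow, one_zpow, one_mul]
    exact hb v
  rcases lt_or_gt_of_ne hl with hneg | hpos
  · have h1 : ‖avg (fun v => conj ((zz K ψ v ^ k) ^ l * b v)) N‖ =
        ‖avg (fun v => (zz K ψ v ^ k) ^ l * b v) N‖ := by
      rw [avg_conj, Complex.norm_conj]
    rw [← h1]
    refine (avg_le_S (b := fun v => conj (b v)) (z := zz K ψ) (fun v => ?_) (l.natAbs * k) N
      fun v hv => ?_).trans (add_le_add hs2 le_rfl)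
    · rw [Complex.norm_conj]; exact hn _
    · rw [map_mul, mul_comm]
      congr 1
      have e1 : l = -(l.natAbs : ℤ) := by omega
      have e2 : conj ((zz K ψ v ^ k) ^ l) = (zz K ψ v ^ k) ^ (l.natAbs) := by
        conv_lhs => rw [e1]
        rw [zpow_neg, zpow_natCast, map_inv₀, map_pow]
        have e3 : conj (zz K ψ v ^ k) = (zz K ψ v ^ k)⁻¹ := by
          rw [Complex.inv_def, Complex.normSq_eq_norm_sq, norm_pow, norm_zz]
          simp
        rw [e3, inv_pow, inv_inv]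
      rw [e2, ← pow_mul, mul_comm k]
  · refine (avg_le_S (b := b) (z := zz K ψ) hn (l.natAbs * k) N
      fun v hv => ?_).trans (add_le_add hs1 le_rfl)
    rw [mul_comm]
    congr 1
    have e1 : l = (l.natAbs : ℤ) := by omega
    conv_lhs => rw [e1]
    rw [zpow_natCast, ← pow_mul, mul_comm k]

/-- the bad primes are negligible -/
theorem nbad_small (K : Type) [Field K] [NumberField K] {D : ℕ} (hD : D ≠ 0) {η : ℝ} (hη : 0 < η) :
    ∃ N₁ : ℕ, ∀ N, N₁ ≤ N → 0 < uK K N ∧ nbad K D N ≤ η * uK K N := by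
  obtain ⟨N₁, hN₁3, hN₁⟩ := pnt_facts (uK_tendsto (K := K))
  obtain ⟨dK, hdK⟩ : ∃ dK : ℝ, dK = (Module.finrank ℚ K : ℝ) := ⟨_, rfl⟩
  have hdK0 : 0 < dK := by
    rw [hdK]
    exact_mod_cast Module.finrank_pos
  obtain ⟨c₀, hc₀⟩ : ∃ c₀ : ℝ, c₀ = Real.log (2 * (D : ℝ)) / Real.log 2 := ⟨_, rfl⟩
  have hc₀0 : 0 ≤ c₀ := by
    rw [hc₀]
    apply div_nonneg _ (Real.log_nonneg (by norm_num))
    apply Real.log_nonneg
    have : (1 : ℝ) ≤ (D : ℝ) := by exact_mod_cast Nat.one_le_iff_ne_zero.2 hD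
    linarith
  have f1 : ∀ᶠ N : ℕ in atTop, Real.log N ≤ η / (2 * (dK + dK * c₀)) * (N : ℝ) ^ (1 / 2 : ℝ) := by
    have h1 : ∀ᶠ x : ℝ in atTop, ‖Real.log x‖ ≤ η / (2 * (dK + dK * c₀)) * ‖x ^ (1 / 2 : ℝ)‖ :=
      (isLittleO_log_rpow_atTop (by norm_num)).bound (by positivity)
    have h2 := (tendsto_natCast_atTop_atTop (R := ℝ)).eventually h1
    filter_upwards [h2] with X hX
    rw [Real.norm_of_nonneg (by positivity : (0 : ℝ) ≤ (X : ℝ) ^ (1 / 2 : ℝ))] at hX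
    exact (le_abs_self _).trans hX
  obtain ⟨N₂, hN₂⟩ := eventually_atTop.1 f1
  refine ⟨max N₁ N₂, fun N hN => ?_⟩
  obtain ⟨g1, g2⟩ := hN₁ N ((le_max_left _ _).trans hN)
  have g3 := hN₂ N ((le_max_right _ _).trans hN)
  refine ⟨g1, ?_⟩
  have hN3 : (3 : ℝ) ≤ N := by exact_mod_cast hN₁3.trans ((le_max_left _ _).trans hN)
  have hN0 : (0 : ℝ) < N := by linarith
  have hN1 : (1 : ℝ) ≤ N := by linarith
  have hl : 0 < Real.log N := Real.log_pos (by linarith)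
  have h3 := nbad_le (K := K) D N hD
  rw [← hdK, ← hc₀, Real.sqrt_eq_rpow] at h3
  obtain ⟨s, hs⟩ : ∃ s : ℝ, s = (N : ℝ) ^ (1 / 2 : ℝ) := ⟨_, rfl⟩
  rw [← hs] at h3 g3
  have hs1 : 1 ≤ s := by rw [hs]; exact Real.one_le_rpow hN1 (by norm_num)
  have hss : s * s = N := by
    rw [hs, ← Real.rpow_add hN0]; norm_num
  have h4 : nbad K D N ≤ (dK + dK * c₀) * s := by
    have : dK * c₀ ≤ dK * c₀ * s := le_mul_of_one_le_right (by positivity) hs1
    linarith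
  refine h4.trans (le_of_mul_le_mul_right ?_ hl)
  calc (dK + dK * c₀) * s * Real.log N
      ≤ (dK + dK * c₀) * s * (η / (2 * (dK + dK * c₀)) * s) := by gcongr
    _ = η / 2 * (s * s) := by field_simp
    _ = η / 2 * N := by rw [hss]
    _ ≤ η / 2 * (2 * (uK K N * Real.log N)) := by gcongr
    _ = _ := by ring

theorem ncard_union_le' (E E' : Set ℕ) (X : ℕ) :
    {k : ℕ | k ∈ E ∪ E' ∧ 1 ≤ k ∧ k ≤ X}.ncard ≤
      {k : ℕ | k ∈ E ∧ 1 ≤ k ∧ k ≤ X}.ncard + {k : ℕ | k ∈ E' ∧ 1 ≤ k ∧ k ≤ X}.ncard := by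
  have hfin : ∀ E : Set ℕ, {k : ℕ | k ∈ E ∧ 1 ≤ k ∧ k ≤ X}.Finite := fun E =>
    (Set.finite_Icc 0 X).subset fun k hk => ⟨Nat.zero_le _, hk.2.2⟩
  have hsub : {k : ℕ | k ∈ E ∪ E' ∧ 1 ≤ k ∧ k ≤ X} ⊆
      {k : ℕ | k ∈ E ∧ 1 ≤ k ∧ k ≤ X} ∪ {k : ℕ | k ∈ E' ∧ 1 ≤ k ∧ k ≤ X} := by
    rintro k ⟨h1, h2⟩
    rcases h1 with h1 | h1
    · exact Or.inl ⟨h1, h2⟩
    · exact Or.inr ⟨h1, h2⟩
  exact (Set.ncard_le_ncard hsub ((hfin E).union (hfin E'))).trans (Set.ncard_union_le _ _)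

theorem ncard_biUnion_le' {κ : Type*} (s : Finset κ) (E : κ → Set ℕ) (X : ℕ) :
    {k : ℕ | k ∈ (⋃ i ∈ s, E i) ∧ 1 ≤ k ∧ k ≤ X}.ncard ≤
      ∑ i ∈ s, {k : ℕ | k ∈ E i ∧ 1 ≤ k ∧ k ≤ X}.ncard := by
  classical
  induction s using Finset.induction_on with
  | empty => simp
  | insert a s ha ih =>
    rw [Finset.set_biUnion_insert, Finset.sum_insert ha]
    exact (ncard_union_le' _ _ X).trans (Nat.add_le_add_left ih _)

theorem ncard_lt_le (K₁ X : ℕ) : {k : ℕ | k ∈ {k : ℕ | k < K₁} ∧ 1 ≤ k ∧ k ≤ X}.ncard ≤ K₁ := by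
  have hsub : {k : ℕ | k ∈ {k : ℕ | k < K₁} ∧ 1 ≤ k ∧ k ≤ X} ⊆ ((range K₁ : Finset ℕ) : Set ℕ) := by
    rintro k ⟨h1, _⟩
    rw [mem_coe, mem_range]
    exact h1
  have := Set.ncard_le_ncard hsub (finite_toSet _)
  rwa [Set.ncard_coe_finset, card_range] at this

/-- finitely many coefficients for all cosets -/
theorem coset_approx {H : Type} [Group H] [TopologicalSpace H] [IsTopologicalGroup H]
    [CompactSpace H] (ι : Circle →* H) (hι : Continuous ι) (f : C(H, ℂ)) {ε : ℝ} (hε : 0 < ε) :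
    ∃ (s : Finset ℤ) (c : H → ℤ → ℂ) (M : ℝ), 0 ∈ s ∧ 1 ≤ M ∧ (∀ h l, ‖c h l‖ ≤ M) ∧
      ∀ h (a : Circle), ‖f (ι a * h) - ∑ l ∈ s, (a : ℂ) ^ l * c h l‖ ≤ ε := by
  classical
  let Fc : C(H, C(Circle, ℂ)) := ContinuousMap.curry
    ⟨fun p : H × Circle => f (ι p.2 * p.1), f.continuous.comp
      ((hι.comp continuous_snd).mul continuous_fst)⟩
  have hFc : ∀ h a, Fc h a = f (ι a * h) := fun h a => rfl
  have hcomp : IsCompact (Set.range Fc) := isCompact_range Fc.continuous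
  obtain ⟨T, -, hTfin, hTcov⟩ := hcomp.finite_cover_balls (show 0 < ε / 2 by positivity)
  have htrig : ∀ t : C(Circle, ℂ), ∃ (s : Finset ℤ) (c : ℤ → ℂ),
      ∀ a : Circle, ‖t a - ∑ l ∈ s, (a : ℂ) ^ l * c l‖ ≤ ε / 2 := fun t =>
    trig_approx t (by positivity)
  choose s c hsc using htrig
  have hch : ∀ h, ∃ t ∈ T, dist (Fc h) t < ε / 2 := by
    intro h
    have h1 := hTcov (Set.mem_range_self h)
    rw [Set.mem_iUnion₂] at h1
    obtain ⟨t, ht, h2⟩ := h1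
    exact ⟨t, ht, h2⟩
  choose t htT htd using hch
  obtain ⟨S₀, hS₀⟩ : ∃ S₀ : Finset ℤ, S₀ = insert 0 (hTfin.toFinset.biUnion s) := ⟨_, rfl⟩
  obtain ⟨M, hM⟩ : ∃ M : ℝ, M = 1 + ∑ t ∈ hTfin.toFinset, ∑ l ∈ s t, ‖c t l‖ := ⟨_, rfl⟩
  have hM1 : 1 ≤ M := by
    rw [hM]
    have : 0 ≤ ∑ t ∈ hTfin.toFinset, ∑ l ∈ s t, ‖c t l‖ :=
      sum_nonneg fun _ _ => sum_nonneg fun _ _ => norm_nonneg _
    linarith
  refine ⟨S₀, fun h l => if l ∈ s (t h) then c (t h) l else 0, M, ?_, hM1, fun h l => ?_,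
    fun h a => ?_⟩
  · rw [hS₀]; exact mem_insert_self _ _
  · simp only
    split_ifs with hl
    · have h1 : ‖c (t h) l‖ ≤ ∑ l ∈ s (t h), ‖c (t h) l‖ :=
        single_le_sum (f := fun l => ‖c (t h) l‖) (fun _ _ => norm_nonneg _) hl
      have h2 : ∑ l ∈ s (t h), ‖c (t h) l‖ ≤ ∑ t ∈ hTfin.toFinset, ∑ l ∈ s t, ‖c t l‖ :=
        single_le_sum (f := fun t => ∑ l ∈ s t, ‖c t l‖)
          (fun _ _ => sum_nonneg fun _ _ => norm_nonneg _) (hTfin.mem_toFinset.2 (htT h))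
      rw [hM]
      linarith
    · rw [norm_zero]; linarith
  · have h1 : ‖Fc h a - t h a‖ ≤ ε / 2 := by
      have h2 := ContinuousMap.dist_apply_le_dist (f := Fc h) (g := t h) a
      rw [dist_eq_norm] at h2
      exact h2.trans (htd h).le
    have h2 := hsc (t h) a
    have h3 : ∑ l ∈ S₀, (a : ℂ) ^ l * (if l ∈ s (t h) then c (t h) l else 0) =
        ∑ l ∈ s (t h), (a : ℂ) ^ l * c (t h) l := by
      have hsub : s (t h) ⊆ S₀ := by
        rw [hS₀]
        refine (subset_biUnion_of_mem s (hTfin.mem_toFinset.2 (htT h))).trans ?_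
        exact subset_insert _ _
      rw [← sum_subset hsub]
      · refine sum_congr rfl fun l hl => ?_
        rw [if_pos hl]
      · intro l _ hl
        rw [if_neg hl, mul_zero]
    rw [h3, ← hFc]
    have e : Fc h a - ∑ l ∈ s (t h), (a : ℂ) ^ l * c (t h) l =
        (Fc h a - t h a) + (t h a - ∑ l ∈ s (t h), (a : ℂ) ^ l * c (t h) l) := by ring
    rw [e]
    refine (norm_add_le _ _).trans ?_
    linarith

/-- one test function -/
theorem one_fun (hF : Module.finrank ℚ F = 2) (hσ : ¬ ComplexEmbedding.IsReal σ)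
    (h𝔪 : 𝔪 ≠ ⊥) (hm : 0 < m) (hψ : IsHecke F 𝔪 σ m ψ) {A c η : ℝ} (hA : 1 < A) (hc0 : 0 < c)
    (hc : c < 1 / 2) (hη : 0 < η)
    {H : Type} [Group H] [TopologicalSpace H] [IsTopologicalGroup H]
    [CompactSpace H] (ι : Circle →* H) (hι : Continuous ι) (f : C(H, ℂ))
    (hcl : ∀ g h, f (g * h * g⁻¹) = f h) :
    ∃ δ : ℝ, 0 < δ ∧ δ < 1 ∧ ∃ C : ℝ, 0 < C ∧
      ∀ x : HeightOneSpectrum (𝓞 K) → H, ∃ E : Set ℕ,
        (∀ X : ℕ, 1 ≤ X → (({k : ℕ | k ∈ E ∧ 1 ≤ k ∧ k ≤ X}.ncard : ℕ) : ℝ) ≤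
          C * (X : ℝ) ^ (1 - δ)) ∧
        ∀ k : ℕ, 1 ≤ k → k ∉ E → ∀ y, IsTwist 𝔪 ψ ι k x y →
          ∀ N : ℕ, (Real.log k) ^ A ≤ N → Real.log N ≤ (k : ℝ) ^ c →
            ‖avg (fun v => f (y v)) N - avg (fun v => circleAvg fun a => f (ι a * x v)) N‖ ≤ η := by
  classical
  have hA0 : 0 < A := by linarith
  have hD0 : D0 𝔪 ≠ 0 := D0_ne_zero h𝔪
  have hD : Ideal.absNorm 𝔪 ∣ D0 𝔪 := Dvd.intro_left _ rfl
  obtain ⟨B, C₀, hfam⟩ := fam (K := K) hF hσ hψ hm h𝔪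
  obtain ⟨ε, hε⟩ : ∃ ε : ℝ, ε = η / 8 := ⟨_, rfl⟩
  have hε0 : 0 < ε := by rw [hε]; positivity
  obtain ⟨s, co, M, h0s, hM1, hco, happ⟩ := coset_approx ι hι f hε0
  have hM0 : 0 < M := by linarith
  obtain ⟨n, hn⟩ : ∃ n : ℝ, n = (s.card : ℝ) + 1 := ⟨_, rfl⟩
  have hn1 : 1 ≤ n := by rw [hn]; have : (0 : ℝ) ≤ (s.card : ℝ) := Nat.cast_nonneg _; linarith
  obtain ⟨η', hη'⟩ : ∃ η' : ℝ, η' = min (ε / (M * n)) 1 := ⟨_, rfl⟩
  have hη'0 : 0 < η' := by rw [hη']; exact lt_min (by positivity) one_pos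
  have hη'1 : η' ≤ 1 := by rw [hη']; exact min_le_right _ _
  have hη'2 : η' * (M * n) ≤ ε := by
    have : η' ≤ ε / (M * n) := by rw [hη']; exact min_le_left _ _
    rwa [le_div_iff₀ (by positivity)] at this
  obtain ⟨L, hL⟩ : ∃ L : ℕ, L = ∑ l ∈ s, l.natAbs := ⟨_, rfl⟩
  have hLs : ∀ l ∈ s, l.natAbs ≤ L := by
    intro l hl
    rw [hL]
    exact single_le_sum (f := fun l : ℤ => l.natAbs) (fun _ _ => Nat.zero_le _) hl
  obtain ⟨δ, hδ0, hδ1, C', hC', h2⟩ := hfam.un1l (uK_tendsto (K := K)) (gd_card_le _)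
    (fun n N h => gd_upto _ h) hA hc0 hc hη'0 hη'1 L
  -- the bound of f
  obtain ⟨Mf, hMf⟩ : ∃ Mf : ℝ, Mf = ‖f‖ + 1 := ⟨_, rfl⟩
  have hMf0 : 0 < Mf := by rw [hMf]; positivity
  have hfb : ∀ h, ‖f h‖ ≤ Mf := fun h => (f.norm_coe_le_norm h).trans (by rw [hMf]; linarith)
  obtain ⟨κ, hκ⟩ : ∃ κ : ℝ, κ = min η' (ε / (2 * Mf)) := ⟨_, rfl⟩
  have hκ0 : 0 < κ := by rw [hκ]; exact lt_min hη'0 (by positivity)
  have hκ1 : κ ≤ η' := by rw [hκ]; exact min_le_left _ _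
  have hκ2 : κ * (2 * Mf) ≤ ε := by
    have : κ ≤ ε / (2 * Mf) := by rw [hκ]; exact min_le_right _ _
    rwa [le_div_iff₀ (by positivity)] at this
  obtain ⟨N₁, hN₁⟩ := nbad_small K hD0 hκ0
  have e1 : ∀ᶠ k : ℕ in atTop, (N₁ : ℝ) ≤ (Real.log k) ^ A :=
    (tendsto_logpow hA0).eventually_ge_atTop _
  obtain ⟨K₁, hK₁⟩ := eventually_atTop.1 e1
  refine ⟨δ, hδ0, hδ1, 2 * s.card * C' + K₁ + 1, by positivity, fun x => ?_⟩
  -- the exceptional sets
  have hb1 : ∀ l v, ‖co (x v) l / M‖ ≤ 1 := by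
    intro l v
    rw [norm_div, Complex.norm_real, Real.norm_of_nonneg hM0.le, div_le_one hM0]
    exact hco _ _
  have hex1 : ∀ l : ℤ, ∃ E : Set ℕ,
        (∀ X : ℕ, 1 ≤ X → (({k : ℕ | k ∈ E ∧ 1 ≤ k ∧ k ≤ X}.ncard : ℕ) : ℝ) ≤
          2 * C' * (X : ℝ) ^ (1 - δ)) ∧
        ∀ k : ℕ, 1 ≤ k → k ∉ E → ∀ N : ℕ, (Real.log k) ^ A ≤ N → Real.log N ≤ (k : ℝ) ^ c →
          ∀ n : ℕ, 1 ≤ n → n ≤ L →
            ‖S (gd K (D0 𝔪) N) (fun v => co (x v) l / M) (zz K ψ) (n * k)‖ ≤ η' * uK K N ∧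
            ‖S (gd K (D0 𝔪) N) (fun v => conj (co (x v) l / M)) (zz K ψ) (n * k)‖ ≤
              η' * uK K N := by
    intro l
    obtain ⟨Ea, ha1, ha2⟩ := h2 (fun v => co (x v) l / M) (hb1 l)
    obtain ⟨Eb, hb1', hb2⟩ := h2 (fun v => conj (co (x v) l / M))
      (fun v => by rw [Complex.norm_conj]; exact hb1 l v)
    refine ⟨Ea ∪ Eb, fun X hX => ?_, fun k hk hkE N hN1 hN2 n hn1 hn2 => ⟨?_, ?_⟩⟩
    · have h3 : (({k : ℕ | k ∈ Ea ∪ Eb ∧ 1 ≤ k ∧ k ≤ X}.ncard : ℕ) : ℝ) ≤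
          (({k : ℕ | k ∈ Ea ∧ 1 ≤ k ∧ k ≤ X}.ncard : ℕ) : ℝ) +
          (({k : ℕ | k ∈ Eb ∧ 1 ≤ k ∧ k ≤ X}.ncard : ℕ) : ℝ) := by
        exact_mod_cast ncard_union_le' _ _ X
      have := ha1 X hX
      have := hb1' X hX
      linarith
    · exact ha2 k hk (fun h => hkE (Or.inl h)) N hN1 hN2 n hn1 hn2
    · exact hb2 k hk (fun h => hkE (Or.inr h)) N hN1 hN2 n hn1 hn2
  choose Es hEs1 hEs2 using hex1
  refine ⟨(⋃ l ∈ s, Es l) ∪ {k : ℕ | k < K₁}, fun X hX => ?_, fun k hk1 hk y hy N hN1 hN2 => ?_⟩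
  · have hXr : (1 : ℝ) ≤ X := by exact_mod_cast hX
    have hXδ : (1 : ℝ) ≤ (X : ℝ) ^ (1 - δ) := Real.one_le_rpow hXr (by linarith)
    have h3 := (ncard_union_le' (⋃ l ∈ s, Es l) {k : ℕ | k < K₁} X).trans
      (Nat.add_le_add (ncard_biUnion_le' s Es X) (ncard_lt_le K₁ X))
    have h4 : (({k : ℕ | k ∈ (⋃ l ∈ s, Es l) ∪ {k : ℕ | k < K₁} ∧ 1 ≤ k ∧ k ≤ X}.ncard : ℕ) : ℝ) ≤
        ∑ l ∈ s, (({k : ℕ | k ∈ Es l ∧ 1 ≤ k ∧ k ≤ X}.ncard : ℕ) : ℝ) + K₁ := by
      exact_mod_cast h3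
    have h5 := sum_le_card_nsmul s _ _ fun l _ => hEs1 l X hX
    rw [nsmul_eq_mul] at h5
    have h6 : (K₁ : ℝ) ≤ K₁ * (X : ℝ) ^ (1 - δ) := le_mul_of_one_le_right (Nat.cast_nonneg _) hXδ
    calc _ ≤ _ := h4
      _ ≤ s.card * (2 * C' * (X : ℝ) ^ (1 - δ)) + K₁ * (X : ℝ) ^ (1 - δ) := add_le_add h5 h6
      _ ≤ _ := by nlinarith
  · have hkK : K₁ ≤ k := by
      by_contra hcon
      exact hk (Or.inr (not_le.1 hcon))
    have hNN : N₁ ≤ N := by
      have := (hK₁ k hkK).trans hN1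
      exact_mod_cast this
    obtain ⟨hu0, hnb⟩ := hN₁ N hNN
    -- step 1: replace y
    obtain ⟨g', hg'⟩ : ∃ g' : HeightOneSpectrum (𝓞 K) → ℂ,
        g' = fun v => f (ι (ψ (rn F v) ^ k) * x v) := ⟨_, rfl⟩
    have s1 : ‖avg (fun v => f (y v)) N - avg g' N‖ ≤ ε := by
      have h3 : ‖avg (fun v => (f (y v) - g' v) / (2 * Mf)) N‖ * uK K N ≤
          ‖S (gd K (D0 𝔪) N) (fun _ => 0) (zz K ψ) 0‖ + nbad K (D0 𝔪) N := by
        apply avg_le_S (fun v => ?_) 0 N fun v hv => ?_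
        · rw [norm_div]
          have h1 := norm_sub_le (f (y v)) (g' v)
          have h2 : ‖((2 : ℂ) * (Mf : ℂ))‖ = 2 * Mf := by
            rw [norm_mul, Complex.norm_real, Real.norm_of_nonneg hMf0.le]
            simp
          rw [h2, div_le_one (by positivity)]
          have h3 : ‖g' v‖ ≤ Mf := by rw [hg']; exact hfb _
          linarith [hfb (y v)]
        · obtain ⟨h, hh⟩ := hy v (coprime_rn F hD hv)
          rw [hh, hcl, hg', relNorm_eq]
          simp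
      have h4 : S (gd K (D0 𝔪) N) (fun _ => 0) (zz K ψ) 0 = 0 := by
        unfold S
        simp
      rw [h4, norm_zero, zero_add] at h3
      have h5 : avg (fun v => f (y v)) N - avg g' N =
          (2 * Mf : ℂ) * avg (fun v => (f (y v) - g' v) / (2 * Mf)) N := by
        rw [← avg_sub, ← avg_const_mul]
        congr 1
        funext v
        have : (2 * Mf : ℂ) ≠ 0 := by
          apply mul_ne_zero two_ne_zero
          exact_mod_cast hMf0.ne'
        rw [mul_div_assoc', mul_div_cancel_left₀ _ this]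
      have h6 : ‖((2 : ℂ) * (Mf : ℂ))‖ = 2 * Mf := by
        rw [norm_mul, Complex.norm_real, Real.norm_of_nonneg hMf0.le]
        simp
      rw [h5, norm_mul, h6]
      have h7 : ‖avg (fun v => (f (y v) - g' v) / (2 * Mf)) N‖ * uK K N ≤ κ * uK K N := h3.trans hnb
      have h8 := le_of_mul_le_mul_right h7 hu0
      nlinarith
    -- step 2: the trigonometric approximation
    have s2 : ‖avg g' N - avg (fun v => ∑ l ∈ s, (zz K ψ v ^ k) ^ l * co (x v) l) N‖ ≤ ε := by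
      apply avg_sub_le hε0.le
      intro v
      have h3 := happ (x v) (ψ (rn F v) ^ k)
      rw [hg']
      unfold zz
      push_cast at h3
      exact h3
    -- step 3: the terms
    have s3 : ‖avg (fun v => ∑ l ∈ s, (zz K ψ v ^ k) ^ l * co (x v) l) N -
        avg (fun v => co (x v) 0) N‖ ≤ 2 * ε := by
      rw [avg_sum]
      have h3 : ∑ l ∈ s, avg (fun v => (zz K ψ v ^ k) ^ l * co (x v) l) N =
          avg (fun v => co (x v) 0) N +
            ∑ l ∈ s.erase 0, avg (fun v => (zz K ψ v ^ k) ^ l * co (x v) l) N := by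
        rw [← add_sum_erase s _ h0s]
        congr 1
        congr 1
        funext v
        rw [zpow_zero, one_mul]
      rw [h3, add_sub_cancel_left]
      have h4 : ∀ l ∈ s.erase 0, ‖avg (fun v => (zz K ψ v ^ k) ^ l * co (x v) l) N‖ ≤
          M * (2 * η') := by
        intro l hl
        rw [mem_erase] at hl
        have hlb := hLs l hl.2
        have hl1 : 1 ≤ l.natAbs := by
          have := Int.natAbs_pos.2 hl.1
          omega
        have hkl : k ∉ Es l := by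
          intro h
          apply hk
          left
          rw [Set.mem_iUnion₂]
          exact ⟨l, hl.2, h⟩
        obtain ⟨t1, t2⟩ := hEs2 l k hk1 hkl N hN1 hN2 l.natAbs hl1 hlb
        have h5 := avg_zpow_le hl.1 (hb1 l) k (D0 𝔪) N t1 t2
        have h6 : ‖avg (fun v => (zz K ψ v ^ k) ^ l * (co (x v) l / M)) N‖ * uK K N ≤
            (2 * η') * uK K N := by
          have : κ * uK K N ≤ η' * uK K N := by gcongr
          linarith
        have h7 := le_of_mul_le_mul_right h6 hu0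
        have h8 : avg (fun v => (zz K ψ v ^ k) ^ l * co (x v) l) N =
            (M : ℂ) * avg (fun v => (zz K ψ v ^ k) ^ l * (co (x v) l / M)) N := by
          rw [← avg_const_mul]
          congr 1
          funext v
          have : (M : ℂ) ≠ 0 := by exact_mod_cast hM0.ne'
          field_simp
        rw [h8, norm_mul, Complex.norm_real, Real.norm_of_nonneg hM0.le]
        gcongr
      refine (norm_sum_le _ _).trans ((sum_le_card_nsmul _ _ _ h4).trans ?_)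
      rw [nsmul_eq_mul]
      have h5 : ((s.erase 0).card : ℝ) ≤ n := by
        have : (s.erase 0).card ≤ s.card := card_le_card (erase_subset _ _)
        rw [hn]
        have h6 : ((s.erase 0).card : ℝ) ≤ (s.card : ℝ) := by exact_mod_cast this
        linarith
      calc ((s.erase 0).card : ℝ) * (M * (2 * η')) ≤ n * (M * (2 * η')) := by gcongr
        _ = 2 * (η' * (M * n)) := by ring
        _ ≤ 2 * ε := by gcongr
    -- step 4: the circle averages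
    have s4 : ‖avg (fun v => co (x v) 0) N - avg (fun v => circleAvg fun a => f (ι a * x v)) N‖ ≤ ε := by
      apply avg_sub_le hε0.le
      intro v
      have hc1 : Continuous fun a : Circle => f (ι a * x v) :=
        f.continuous.comp (hι.mul continuous_const)
      have hc2 : ∀ l : ℤ, Continuous fun a : Circle => (a : ℂ) ^ l * co (x v) l := by
        intro l
        refine Continuous.mul ?_ continuous_const
        refine (continuous_subtype_val).zpow₀ l fun a => Or.inl ?_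
        exact Circle.coe_ne_zero a
      have h3 : circleAvg (fun a : Circle => ∑ l ∈ s, (a : ℂ) ^ l * co (x v) l) = co (x v) 0 := by
        rw [circleAvg_sum s _ hc2]
        have : ∀ l ∈ s, circleAvg (fun a : Circle => (a : ℂ) ^ l * co (x v) l) =
            if l = 0 then co (x v) l else 0 := fun l _ => circleAvg_zpow l _
        rw [sum_congr rfl this, sum_ite_eq' s 0, if_pos h0s]
      rw [← h3]
      apply circleAvg_sub_le
      · exact continuous_finsetSum _ fun l _ => hc2 l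
      · exact hc1
      · intro a
        rw [norm_sub_rev]
        exact happ (x v) a
    have e : avg (fun v => f (y v)) N - avg (fun v => circleAvg fun a => f (ι a * x v)) N =
        (avg (fun v => f (y v)) N - avg g' N) +
        (avg g' N - avg (fun v => ∑ l ∈ s, (zz K ψ v ^ k) ^ l * co (x v) l) N) +
        (avg (fun v => ∑ l ∈ s, (zz K ψ v ^ k) ^ l * co (x v) l) N - avg (fun v => co (x v) 0) N) +
        (avg (fun v => co (x v) 0) N - avg (fun v => circleAvg fun a => f (ι a * x v)) N) := by ring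
    rw [e]
    refine (norm_add₄_le).trans ?_
    rw [hε] at s1 s2 s3 s4
    linarith

end Pool.Agent.H4.Hk
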