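import Pool.Agent.H4.Fn

/-! Hecke twists: power saving. -/

set_option autoImplicit false

namespace Pool.Agent.H4.Hk

open Finset NumberField ComplexConjugate IsDedekindDomain Filter Topology MeasureTheory
open Pool.Agent.W540.BE (nm upto mem_upto fiber_finite fiber_card two_le_nm)
open Pool.Agent.H821.ST (uK uK_tendsto ng card_ng_le)
open Pool.Agent.H4.Mom
open Pool.Agent.H4 (IsHecke avg Equidistributed IsTwist circleAvg)

variable {F K : Type} [Field F] [NumberField F] [Field K] [NumberField K] [Algebra F K]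
variable {𝔪 : Ideal (𝓞 F)} {σ : F →+* ℂ} {m : ℕ} {ψ : Ideal (𝓞 F) → Circle}

theorem relNorm_eq (v : HeightOneSpectrum (𝓞 K)) :
    Ideal.relNorm (𝓞 F) v.asIdeal = rn F v := rfl

/-- the bound for one function with a nonzero weight -/
theorem avg_weight_le {H : Type} [Group H] {ι : Circle →* H}
    {x : HeightOneSpectrum (𝓞 K) → H} {Φ : H → ℂ} {w : ℤ} (hw : w ≠ 0) (hΦ : ∀ h, ‖Φ h‖ ≤ 1)
    (hcl : ∀ g h, Φ (g * h * g⁻¹) = Φ h) (hwt : ∀ (a : Circle) h, Φ (ι a * h) = (a : ℂ) ^ w * Φ h)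
    {k : ℕ} {y : HeightOneSpectrum (𝓞 K) → H} (hy : IsTwist 𝔪 ψ ι k x y) (N : ℕ) {s : ℝ}
    (hs1 : ‖S (gd K (D0 𝔪) N) (fun v => Φ (x v)) (zz K ψ) (w.natAbs * k)‖ ≤ s)
    (hs2 : ‖S (gd K (D0 𝔪) N) (fun v => conj (Φ (x v))) (zz K ψ) (w.natAbs * k)‖ ≤ s) :
    ‖avg (fun v => Φ (y v)) N‖ * uK K N ≤ s + nbad K (D0 𝔪) N := by
  have hD : Ideal.absNorm 𝔪 ∣ D0 𝔪 := Dvd.intro_left _ rfl
  have hval : ∀ v ∈ gd K (D0 𝔪) N, Φ (y v) = (zz K ψ v ^ k) ^ w * Φ (x v) := by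
    intro v hv
    obtain ⟨h, hh⟩ := hy v (coprime_rn F hD hv)
    rw [hh, hcl, relNorm_eq, hwt]
    unfold zz
    push_cast
    rfl
  rcases lt_or_gt_of_ne hw with hneg | hpos
  · -- negative weight
    have h1 : ‖avg (fun v => conj (Φ (y v))) N‖ = ‖avg (fun v => Φ (y v)) N‖ := by
      rw [avg_conj, Complex.norm_conj]
    rw [← h1]
    refine (avg_le_S (b := fun v => conj (Φ (x v))) (z := zz K ψ) (fun v => ?_) (w.natAbs * k) N
      fun v hv => ?_).trans (add_le_add hs2 le_rfl)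
    · rw [Complex.norm_conj]; exact hΦ _
    · rw [hval v hv, map_mul, mul_comm]
      congr 1
      have e1 : w = -(w.natAbs : ℤ) := by omega
      have e2 : conj ((zz K ψ v ^ k) ^ w) = (zz K ψ v ^ k) ^ (w.natAbs) := by
        conv_lhs => rw [e1]
        rw [zpow_neg, zpow_natCast, map_inv₀, map_pow]
        have e3 : conj (zz K ψ v ^ k) = (zz K ψ v ^ k)⁻¹ := by
          rw [Complex.inv_def, Complex.normSq_eq_norm_sq, norm_pow, norm_zz]
          simp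
        rw [e3, inv_pow, inv_inv]
      rw [e2, ← pow_mul, mul_comm k]
  · refine (avg_le_S (b := fun v => Φ (x v)) (z := zz K ψ) (fun v => hΦ _) (w.natAbs * k) N
      fun v hv => ?_).trans (add_le_add hs1 le_rfl)
    rw [hval v hv, mul_comm]
    congr 1
    have e1 : w = (w.natAbs : ℤ) := by omega
    conv_lhs => rw [e1]
    rw [zpow_natCast, ← pow_mul, mul_comm k]

theorem part2 (F K : Type) [Field F] [NumberField F] [Field K] [NumberField K] [Algebra F K]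
    (hF : Module.finrank ℚ F = 2) (σ : F →+* ℂ) (hσ : ¬ ComplexEmbedding.IsReal σ)
    (𝔪 : Ideal (𝓞 F)) (h𝔪 : 𝔪 ≠ ⊥) (m : ℕ) (hm : 0 < m) (ψ : Ideal (𝓞 F) → Circle)
    (hψ : IsHecke F 𝔪 σ m ψ) (A β : ℝ) (hA : 1 < A) (hβ : 0 < β) :
    ∃ θ : ℝ, 0 < θ ∧ ∃ δ : ℝ, 0 < δ ∧ ∃ C : ℝ,
      ∀ (H : Type) [Group H] (ι : Circle →* H) (x : HeightOneSpectrum (𝓞 K) → H)
        (Φ : ℕ → H → ℂ) (w : ℕ → ℤ), (∀ j h, ‖Φ j h‖ ≤ 1) →
        (∀ j g h, Φ j (g * h * g⁻¹) = Φ j h) → (∀ j (a : Circle) h, Φ j (ι a * h) = (a : ℂ) ^ w j * Φ j h) →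
        ∃ E : Set ℕ,
          (∀ X : ℕ, 1 ≤ X → (({k : ℕ | k ∈ E ∧ 1 ≤ k ∧ k ≤ X}.ncard : ℕ) : ℝ) ≤
            C * (X : ℝ) ^ (1 - δ)) ∧
          ∀ k : ℕ, 1 ≤ k → k ∉ E → ∀ y, IsTwist 𝔪 ψ ι k x y →
            ∀ N : ℕ, (Real.log k) ^ A ≤ N → (N : ℝ) ≤ (k : ℝ) ^ β → ∀ j : ℕ,
              ‖avg (fun v => Φ j (y v)) N -
                avg (fun v => circleAvg fun a => Φ j (ι a * x v)) N‖ ≤
                  (j + 1) * (|(w j : ℝ)| + 1) * (N : ℝ) ^ (-θ) := by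
  classical
  obtain ⟨B, C₀, hfam⟩ := fam (K := K) hF hσ hψ hm h𝔪
  obtain ⟨θ, hθ0, hθ1, δ, hδ0, hδ1, C', hC', h2⟩ := hfam.un2l hA hβ
  have hA0 : 0 < A := by linarith
  have hD0 : D0 𝔪 ≠ 0 := D0_ne_zero h𝔪
  obtain ⟨N₁, hN₁3, hN₁⟩ := pnt_facts (uK_tendsto (K := K))
  obtain ⟨t, ht⟩ : ∃ t : ℝ, t = min (θ / 2) (1 / 4) := ⟨_, rfl⟩
  have ht0 : 0 < t := by rw [ht]; exact lt_min (by positivity) (by norm_num)
  have htθ : t ≤ θ / 2 := by rw [ht]; exact min_le_left _ _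
  have ht4 : t ≤ 1 / 4 := by rw [ht]; exact min_le_right _ _
  obtain ⟨dK, hdK⟩ : ∃ dK : ℝ, dK = (Module.finrank ℚ K : ℝ) := ⟨_, rfl⟩
  have hdK0 : 0 < dK := by
    rw [hdK]
    exact_mod_cast Module.finrank_pos
  obtain ⟨c₀, hc₀⟩ : ∃ c₀ : ℝ, c₀ = Real.log (2 * (D0 𝔪 : ℝ)) / Real.log 2 := ⟨_, rfl⟩
  have hc₀0 : 0 ≤ c₀ := by
    rw [hc₀]
    apply div_nonneg _ (Real.log_nonneg (by norm_num))
    apply Real.log_nonneg
    have : (1 : ℝ) ≤ (D0 𝔪 : ℝ) := by exact_mod_cast Nat.one_le_iff_ne_zero.2 hD0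
    linarith
  -- N large
  have f1 : ∀ᶠ N : ℕ in atTop, Real.log N ≤ 1 / (4 * (1 + dK + dK * c₀)) * (N : ℝ) ^ t := by
    have h1 : ∀ᶠ x : ℝ in atTop, ‖Real.log x‖ ≤ 1 / (4 * (1 + dK + dK * c₀)) * ‖x ^ t‖ :=
      (isLittleO_log_rpow_atTop ht0).bound (by positivity)
    have h2 := (tendsto_natCast_atTop_atTop (R := ℝ)).eventually h1
    filter_upwards [h2] with X hX
    rw [Real.norm_of_nonneg (by positivity : (0 : ℝ) ≤ (X : ℝ) ^ t)] at hX
    exact (le_abs_self _).trans hX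
  obtain ⟨N₂, hN₂⟩ := eventually_atTop.1 f1
  -- the key bound
  have hkey : ∀ N : ℕ, max N₁ N₂ ≤ N →
      ((N : ℝ) ^ (1 - θ) + nbad K (D0 𝔪) N) ≤ (N : ℝ) ^ (-t) / 2 * uK K N := by
    intro N hN
    obtain ⟨g1, g2⟩ := hN₁ N ((le_max_left _ _).trans hN)
    have g3 := hN₂ N ((le_max_right _ _).trans hN)
    have hN3 : (3 : ℝ) ≤ N := by exact_mod_cast hN₁3.trans ((le_max_left _ _).trans hN)
    have hN0 : (0 : ℝ) < N := by linarith
    have hN1 : (1 : ℝ) ≤ N := by linarith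
    have hl : 0 < Real.log N := Real.log_pos (by linarith)
    have h3 := nbad_le (K := K) (D0 𝔪) N hD0
    rw [← hdK, ← hc₀] at h3
    have e1 : (N : ℝ) ^ (1 - θ) ≤ (N : ℝ) ^ (1 - 2 * t) :=
      Real.rpow_le_rpow_of_exponent_le hN1 (by linarith)
    have e2 : Real.sqrt N ≤ (N : ℝ) ^ (1 - 2 * t) := by
      rw [Real.sqrt_eq_rpow]
      exact Real.rpow_le_rpow_of_exponent_le hN1 (by linarith)
    have e3 : (1 : ℝ) ≤ (N : ℝ) ^ (1 - 2 * t) := Real.one_le_rpow hN1 (by linarith)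
    have e4 : (N : ℝ) ^ (1 - θ) + nbad K (D0 𝔪) N ≤ (1 + dK + dK * c₀) * (N : ℝ) ^ (1 - 2 * t) := by
      have e5 : dK * Real.sqrt N ≤ dK * (N : ℝ) ^ (1 - 2 * t) := by gcongr
      have e6 : dK * c₀ ≤ dK * c₀ * (N : ℝ) ^ (1 - 2 * t) := le_mul_of_one_le_right (by positivity) e3
      linarith
    refine e4.trans ?_
    -- multiply by log
    refine le_of_mul_le_mul_right ?_ hl
    have e7 : (N : ℝ) = (N : ℝ) ^ (1 - 2 * t) * (N : ℝ) ^ t * (N : ℝ) ^ t := by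
      rw [← Real.rpow_add hN0, ← Real.rpow_add hN0]
      have : 1 - 2 * t + t + t = 1 := by ring
      rw [this, Real.rpow_one]
    have e8 : (N : ℝ) ^ (-t) * (N : ℝ) ^ t = 1 := by
      rw [← Real.rpow_add hN0, neg_add_cancel, Real.rpow_zero]
    have hp : 0 < (N : ℝ) ^ (1 - 2 * t) := Real.rpow_pos_of_pos hN0 _
    have hp2 : 0 < (N : ℝ) ^ (-t) := Real.rpow_pos_of_pos hN0 _
    have hM0 : 0 < 1 + dK + dK * c₀ := by positivity
    calc (1 + dK + dK * c₀) * (N : ℝ) ^ (1 - 2 * t) * Real.log N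
        ≤ (1 + dK + dK * c₀) * (N : ℝ) ^ (1 - 2 * t) *
            (1 / (4 * (1 + dK + dK * c₀)) * (N : ℝ) ^ t) := by gcongr
      _ = (N : ℝ) ^ (1 - 2 * t) * (N : ℝ) ^ t / 4 * ((N : ℝ) ^ (-t) * (N : ℝ) ^ t) := by
          rw [e8]; field_simp
      _ = (N : ℝ) ^ (-t) / 4 * ((N : ℝ) ^ (1 - 2 * t) * (N : ℝ) ^ t * (N : ℝ) ^ t) := by ring
      _ = (N : ℝ) ^ (-t) / 4 * N := by rw [← e7]
      _ ≤ (N : ℝ) ^ (-t) / 4 * (2 * (uK K N * Real.log N)) := by gcongr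
      _ = (N : ℝ) ^ (-t) / 2 * uK K N * Real.log N := by ring
  have e1 : ∀ᶠ k : ℕ in atTop, ((max N₁ N₂ : ℕ) : ℝ) ≤ (Real.log k) ^ A :=
    (tendsto_logpow hA0).eventually_ge_atTop _
  obtain ⟨K₁, hK₁⟩ := eventually_atTop.1 e1
  refine ⟨t, ht0, δ, hδ0, C' + K₁, fun H _ ι x Φ w hΦ hcl hwt => ?_⟩
  have hΦb : ∀ j v, ‖(fun (j : ℕ) (v : HeightOneSpectrum (𝓞 K)) =>
      if j % 2 = 0 then Φ (j / 2) (x v) else conj (Φ (j / 2) (x v))) j v‖ ≤ 1 := by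
    intro j v
    simp only
    split_ifs
    · exact hΦ _ _
    · rw [Complex.norm_conj]; exact hΦ _ _
  obtain ⟨E, hE1, hE2⟩ := h2 _ hΦb
  refine ⟨E ∪ {k | k < K₁}, fun X hX => ?_, fun k hk1 hk y hy N hN1 hN2 j => ?_⟩
  · have hXr : (1 : ℝ) ≤ X := by exact_mod_cast hX
    have hXδ : (1 : ℝ) ≤ (X : ℝ) ^ (1 - δ) := Real.one_le_rpow hXr (by linarith)
    have hsub : {k : ℕ | k ∈ E ∪ {k | k < K₁} ∧ 1 ≤ k ∧ k ≤ X} ⊆
        {k : ℕ | k ∈ E ∧ 1 ≤ k ∧ k ≤ X} ∪ ((range K₁ : Finset ℕ) : Set ℕ) := by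
      rintro k ⟨h1, h2⟩
      rcases h1 with h1 | h1
      · exact Or.inl ⟨h1, h2⟩
      · right
        rw [mem_coe, mem_range]
        exact h1
    have hfin : {k : ℕ | k ∈ E ∧ 1 ≤ k ∧ k ≤ X}.Finite :=
      (Set.finite_Icc 0 X).subset fun k hk => ⟨Nat.zero_le _, hk.2.2⟩
    have h1 := (Set.ncard_le_ncard hsub (hfin.union (finite_toSet _))).trans (Set.ncard_union_le _ _)
    rw [Set.ncard_coe_finset, card_range] at h1
    have h3 : (({k : ℕ | k ∈ E ∪ {k | k < K₁} ∧ 1 ≤ k ∧ k ≤ X}.ncard : ℕ) : ℝ) ≤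
        (({k : ℕ | k ∈ E ∧ 1 ≤ k ∧ k ≤ X}.ncard : ℕ) : ℝ) + K₁ := by exact_mod_cast h1
    have h4 := hE1 X hX
    have h5 : (K₁ : ℝ) ≤ K₁ * (X : ℝ) ^ (1 - δ) := le_mul_of_one_le_right (Nat.cast_nonneg _) hXδ
    calc _ ≤ _ := h3
      _ ≤ C' * (X : ℝ) ^ (1 - δ) + K₁ * (X : ℝ) ^ (1 - δ) := add_le_add h4 h5
      _ = _ := by ring
  · have hkE : k ∉ E := fun h => hk (Or.inl h)
    have hkK : K₁ ≤ k := by
      by_contra hcon
      exact hk (Or.inr (not_le.1 hcon))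
    have hNmax : max N₁ N₂ ≤ N := by
      have := (hK₁ k hkK).trans hN1
      exact_mod_cast this
    obtain ⟨g1, g2⟩ := hN₁ N ((le_max_left _ _).trans hNmax)
    have hN3 : (3 : ℝ) ≤ N := by exact_mod_cast hN₁3.trans ((le_max_left _ _).trans hNmax)
    have hN0 : (0 : ℝ) < N := by linarith
    have hN1' : (1 : ℝ) ≤ N := by linarith
    have hNt : 0 < (N : ℝ) ^ (-t) := Real.rpow_pos_of_pos hN0 _
    have hkb := hkey N hNmax
    have hD : Ideal.absNorm 𝔪 ∣ D0 𝔪 := Dvd.intro_left _ rfl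
    have hj0 : (0 : ℝ) ≤ j := Nat.cast_nonneg _
    have hcirc : ∀ v, (circleAvg fun a => Φ j (ι a * x v)) = if w j = 0 then Φ j (x v) else 0 := by
      intro v
      have : (fun a : Circle => Φ j (ι a * x v)) = fun a : Circle => (a : ℂ) ^ w j * Φ j (x v) := by
        funext a
        exact hwt j a (x v)
      rw [this, circleAvg_zpow]
    simp_rw [hcirc]
    by_cases hw : w j = 0
    · -- weight zero
      simp only [if_pos hw]
      rw [hw]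
      have h3 : ‖avg (fun v => (Φ j (y v) - Φ j (x v)) / 2) N‖ * uK K N ≤
          ‖S (gd K (D0 𝔪) N) (fun _ => 0) (zz K ψ) 0‖ + nbad K (D0 𝔪) N := by
        apply avg_le_S (fun v => ?_) 0 N fun v hv => ?_
        · rw [norm_div]
          have h1 := norm_sub_le (Φ j (y v)) (Φ j (x v))
          have h2 : ‖(2 : ℂ)‖ = 2 := by simp
          rw [h2, div_le_iff₀ (by norm_num)]
          linarith [hΦ j (y v), hΦ j (x v)]
        · obtain ⟨h, hh⟩ := hy v (coprime_rn F hD hv)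
          rw [hh, hcl, hwt, hw]
          simp
      have h4 : S (gd K (D0 𝔪) N) (fun _ => 0) (zz K ψ) 0 = 0 := by
        unfold S
        simp
      rw [h4, norm_zero, zero_add] at h3
      have h5 : avg (fun v => Φ j (y v)) N - avg (fun v => Φ j (x v)) N =
          2 * avg (fun v => (Φ j (y v) - Φ j (x v)) / 2) N := by
        rw [← avg_sub, ← avg_const_mul]
        congr 1
        funext v
        ring
      rw [h5, norm_mul]
      have h6 : ‖(2 : ℂ)‖ = 2 := by simp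
      rw [h6]
      have h7 : 0 ≤ (N : ℝ) ^ (1 - θ) := by positivity
      have h8 : ‖avg (fun v => (Φ j (y v) - Φ j (x v)) / 2) N‖ * uK K N ≤
          (N : ℝ) ^ (-t) / 2 * uK K N := by linarith
      have h9 := le_of_mul_le_mul_right h8 g1
      simp only [Int.cast_zero, abs_zero, zero_add, mul_one]
      nlinarith
    · simp only [if_neg hw]
      have hzero : avg (fun _ : HeightOneSpectrum (𝓞 K) => (0 : ℂ)) N = 0 := by
        rw [avg_eq]; simp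
      rw [hzero, sub_zero]
      have hw1 : (1 : ℝ) ≤ |(w j : ℝ)| := by
        have : (1 : ℤ) ≤ |w j| := Int.one_le_abs hw
        exact_mod_cast this
      have hwa : ((w j).natAbs : ℝ) = |(w j : ℝ)| := by
        rw [Nat.cast_natAbs]; push_cast; rfl
      by_cases htriv : 1 ≤ (j + 1) * (|(w j : ℝ)| + 1) * (N : ℝ) ^ (-t)
      · exact (avg_norm_le zero_le_one (fun v => hΦ j _) N).trans htriv
      push Not at htriv
      have hNtt : (N : ℝ) ^ (-t) = ((N : ℝ) ^ t)⁻¹ := Real.rpow_neg hN0.le t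
      have hNtpos : 0 < (N : ℝ) ^ t := Real.rpow_pos_of_pos hN0 _
      have hprod : (j + 1) * (|(w j : ℝ)| + 1) ≤ (N : ℝ) ^ t := by
        rw [hNtt, ← div_eq_mul_inv, div_lt_one hNtpos] at htriv
        exact htriv.le
      have hNtθ : 2 * (N : ℝ) ^ t ≤ 2 * (N : ℝ) ^ t * (N : ℝ) ^ t := by
        have : 1 ≤ (N : ℝ) ^ t := Real.one_le_rpow hN1' ht0.le
        nlinarith
      have hN2t : (N : ℝ) ^ t * (N : ℝ) ^ t ≤ (N : ℝ) ^ θ := by
        rw [← Real.rpow_add hN0]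
        exact Real.rpow_le_rpow_of_exponent_le hN1' (by linarith)
      have hNt2 : 2 ≤ (N : ℝ) ^ t := by nlinarith
      have hj2 : ((2 * j + 1 : ℕ) : ℝ) ≤ (N : ℝ) ^ θ := by
        push_cast
        nlinarith
      have hj1 : ((2 * j : ℕ) : ℝ) ≤ (N : ℝ) ^ θ := by
        push_cast
        nlinarith
      have hwθ : ((w j).natAbs : ℝ) ≤ (N : ℝ) ^ θ := by
        rw [hwa]
        nlinarith
      have hw1n : 1 ≤ (w j).natAbs := by
        have := Int.natAbs_pos.2 hw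
        omega
      have s1 := hE2 k hk1 hkE N hN1 hN2 (2 * j) (w j).natAbs hw1n hj1 hwθ
      have s2 := hE2 k hk1 hkE N hN1 hN2 (2 * j + 1) (w j).natAbs hw1n hj2 hwθ
      have e2 : (2 * j) % 2 = 0 := by omega
      have e3 : (2 * j) / 2 = j := by omega
      have e4 : ¬ (2 * j + 1) % 2 = 0 := by omega
      have e5 : (2 * j + 1) / 2 = j := by omega
      simp only [e2, e3, if_true] at s1
      simp only [e4, e5, if_false] at s2
      have h3 := avg_weight_le hw (hΦ j) (hcl j) (hwt j) hy N s1 s2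
      have h4 : ‖avg (fun v => Φ j (y v)) N‖ * uK K N ≤ (N : ℝ) ^ (-t) / 2 * uK K N :=
        h3.trans hkb
      have h5 := le_of_mul_le_mul_right h4 g1
      have h6 : (N : ℝ) ^ (-t) / 2 ≤ (j + 1) * (|(w j : ℝ)| + 1) * (N : ℝ) ^ (-t) := by
        have h7 : 1 ≤ (j + 1) * (|(w j : ℝ)| + 1) := by nlinarith
        nlinarith
      exact h5.trans h6

end Pool.Agent.H4.Hk
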