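import Pool.Agent.H4.HT1

/-! Hecke twists: compact sets of test functions, equidistribution; the threshold. -/

set_option autoImplicit false

namespace Pool.Agent.H4.Hk

open Finset NumberField ComplexConjugate IsDedekindDomain Filter Topology MeasureTheory
open Pool.Agent.W540.BE (nm upto mem_upto fiber_finite fiber_card two_le_nm)
open Pool.Agent.H821.ST (uK uK_tendsto ng card_ng_le)
open Pool.Agent.H4.Mom
open Pool.Agent.H4 (IsHecke avg Equidistributed IsTwist circleAvg)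

theorem part1 (F K : Type) [Field F] [NumberField F] [Field K] [NumberField K] [Algebra F K]
    (hF : Module.finrank ℚ F = 2) (σ : F →+* ℂ) (hσ : ¬ ComplexEmbedding.IsReal σ)
    (𝔪 : Ideal (𝓞 F)) (h𝔪 : 𝔪 ≠ ⊥) (m : ℕ) (hm : 0 < m) (ψ : Ideal (𝓞 F) → Circle)
    (hψ : IsHecke F 𝔪 σ m ψ) (A : ℝ) (hA : 1 < A)
    (H : Type) [Group H] [TopologicalSpace H] [IsTopologicalGroup H] [CompactSpace H]
    [MeasurableSpace H] [BorelSpace H] (ι : Circle →* H) (hι : Continuous ι)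
    (hιc : ∀ a h, ι a * h = h * ι a)
    (𝓕 : Set C(H, ℂ)) (h𝓕 : IsCompact 𝓕) (hcl : ∀ f ∈ 𝓕, ∀ g h, f (g * h * g⁻¹) = f h)
    (c η : ℝ) (hc0 : 0 < c) (hc : c < 1 / 2) (hη : 0 < η) :
    ∃ δ : ℝ, 0 < δ ∧ ∃ C : ℝ, ∀ x : HeightOneSpectrum (𝓞 K) → H, ∃ E : Set ℕ,
      (∀ X : ℕ, 1 ≤ X → (({k : ℕ | k ∈ E ∧ 1 ≤ k ∧ k ≤ X}.ncard : ℕ) : ℝ) ≤
        C * (X : ℝ) ^ (1 - δ)) ∧
      (∀ k : ℕ, 1 ≤ k → k ∉ E → ∀ y, IsTwist 𝔪 ψ ι k x y →
        ∀ N : ℕ, (Real.log k) ^ A ≤ N → Real.log N ≤ (k : ℝ) ^ c → ∀ f ∈ 𝓕,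
          ‖avg (fun v => f (y v)) N - avg (fun v => circleAvg fun a => f (ι a * x v)) N‖ ≤ η) ∧
      (∀ (μ : Measure H) [IsProbabilityMeasure μ], Equidistributed x μ → ∃ N₀ : ℕ,
        ∀ k : ℕ, 1 ≤ k → k ∉ E → ∀ y, IsTwist 𝔪 ψ ι k x y →
          ∀ N : ℕ, (Real.log k) ^ A ≤ N → Real.log N ≤ (k : ℝ) ^ c → N₀ ≤ N → ∀ f ∈ 𝓕,
            ‖avg (fun v => f (y v)) N - ∫ h, circleAvg (fun a => f (ι a * h)) ∂μ‖ ≤ η) := by
  classical
  obtain ⟨T, hT𝓕, hTfin, hTcov⟩ := h𝓕.finite_cover_balls (show 0 < η / 8 by positivity)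
  have hex : ∀ f : C(H, ℂ), ∃ δ : ℝ, f ∈ 𝓕 → (0 < δ ∧ δ < 1 ∧ ∃ C : ℝ, 0 < C ∧
      ∀ x : HeightOneSpectrum (𝓞 K) → H, ∃ E : Set ℕ,
        (∀ X : ℕ, 1 ≤ X → (({k : ℕ | k ∈ E ∧ 1 ≤ k ∧ k ≤ X}.ncard : ℕ) : ℝ) ≤
          C * (X : ℝ) ^ (1 - δ)) ∧
        ∀ k : ℕ, 1 ≤ k → k ∉ E → ∀ y, IsTwist 𝔪 ψ ι k x y →
          ∀ N : ℕ, (Real.log k) ^ A ≤ N → Real.log N ≤ (k : ℝ) ^ c →
            ‖avg (fun v => f (y v)) N - avg (fun v => circleAvg fun a => f (ι a * x v)) N‖ ≤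
              η / 4) := by
    intro f
    by_cases hf : f ∈ 𝓕
    · obtain ⟨δ, h⟩ := one_fun (K := K) hF hσ h𝔪 hm hψ hA hc0 hc (show 0 < η / 4 by positivity)
        ι hι f (hcl f hf)
      exact ⟨δ, fun _ => h⟩
    · exact ⟨0, fun h => absurd h hf⟩
  choose δf hδf using hex
  -- the common δ
  obtain ⟨δ, hδ0, hδ1, hδ⟩ : ∃ δ : ℝ, 0 < δ ∧ δ < 1 ∧ ∀ f ∈ T, δ ≤ δf f := by
    rcases hTfin.toFinset.eq_empty_or_nonempty with he | hne
    · refine ⟨1 / 2, by norm_num, by norm_num, fun f hf => ?_⟩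
      have := hTfin.mem_toFinset.2 hf
      rw [he] at this
      exact absurd this (notMem_empty _)
    · refine ⟨hTfin.toFinset.inf' hne δf, ?_, ?_, fun f hf => ?_⟩
      · rw [lt_inf'_iff]
        intro f hf
        exact (hδf f (hT𝓕 (hTfin.mem_toFinset.1 hf))).1
      · obtain ⟨f, hf⟩ := hne
        exact lt_of_le_of_lt (inf'_le _ hf) (hδf f (hT𝓕 (hTfin.mem_toFinset.1 hf))).2.1
      · exact inf'_le _ (hTfin.mem_toFinset.2 hf)
  have hex2 : ∀ f : C(H, ℂ), ∃ C : ℝ, 0 < C ∧ (f ∈ T →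
      ∀ x : HeightOneSpectrum (𝓞 K) → H, ∃ E : Set ℕ,
        (∀ X : ℕ, 1 ≤ X → (({k : ℕ | k ∈ E ∧ 1 ≤ k ∧ k ≤ X}.ncard : ℕ) : ℝ) ≤
          C * (X : ℝ) ^ (1 - δ)) ∧
        ∀ k : ℕ, 1 ≤ k → k ∉ E → ∀ y, IsTwist 𝔪 ψ ι k x y →
          ∀ N : ℕ, (Real.log k) ^ A ≤ N → Real.log N ≤ (k : ℝ) ^ c →
            ‖avg (fun v => f (y v)) N - avg (fun v => circleAvg fun a => f (ι a * x v)) N‖ ≤
              η / 4) := by
    intro f
    by_cases hf : f ∈ T
    · obtain ⟨_, _, C, hC, h⟩ := hδf f (hT𝓕 hf)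
      refine ⟨C, hC, fun _ x => ?_⟩
      obtain ⟨E, h1, h2⟩ := h x
      refine ⟨E, fun X hX => (h1 X hX).trans ?_, h2⟩
      have hXr : (1 : ℝ) ≤ X := by exact_mod_cast hX
      apply mul_le_mul_of_nonneg_left _ hC.le
      apply Real.rpow_le_rpow_of_exponent_le hXr
      linarith [hδ f hf]
    · exact ⟨1, one_pos, fun h => absurd h hf⟩
  choose Cf hCf0 hCf using hex2
  refine ⟨δ, hδ0, ∑ f ∈ hTfin.toFinset, Cf f, fun x => ?_⟩
  have hex3 : ∀ f : C(H, ℂ), ∃ E : Set ℕ, f ∈ T →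
        ((∀ X : ℕ, 1 ≤ X → (({k : ℕ | k ∈ E ∧ 1 ≤ k ∧ k ≤ X}.ncard : ℕ) : ℝ) ≤
          Cf f * (X : ℝ) ^ (1 - δ)) ∧
        ∀ k : ℕ, 1 ≤ k → k ∉ E → ∀ y, IsTwist 𝔪 ψ ι k x y →
          ∀ N : ℕ, (Real.log k) ^ A ≤ N → Real.log N ≤ (k : ℝ) ^ c →
            ‖avg (fun v => f (y v)) N - avg (fun v => circleAvg fun a => f (ι a * x v)) N‖ ≤
              η / 4) := by
    intro f
    by_cases hf : f ∈ T
    · obtain ⟨E, h⟩ := hCf f hf x
      exact ⟨E, fun _ => h⟩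
    · exact ⟨∅, fun h => absurd h hf⟩
  choose Ef hEf using hex3
  obtain ⟨E, hE⟩ : ∃ E : Set ℕ, E = ⋃ f ∈ hTfin.toFinset, Ef f := ⟨_, rfl⟩
  have hball : ∀ f ∈ 𝓕, ∃ f' ∈ T, ∀ g, ‖f g - f' g‖ ≤ η / 8 := by
    intro f hf
    have h1 := hTcov hf
    rw [Set.mem_iUnion₂] at h1
    obtain ⟨f', hf', h2⟩ := h1
    refine ⟨f', hf', fun g => ?_⟩
    rw [Metric.mem_ball] at h2
    have h3 := ContinuousMap.dist_apply_le_dist (f := f) (g := f') g
    rw [dist_eq_norm] at h3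
    exact h3.trans h2.le
  have hcont : ∀ (f : C(H, ℂ)) (h : H), Continuous fun a : Circle => f (ι a * h) := fun f h =>
    f.continuous.comp (hι.mul continuous_const)
  have hmain : ∀ k : ℕ, 1 ≤ k → k ∉ E → ∀ y, IsTwist 𝔪 ψ ι k x y →
        ∀ N : ℕ, (Real.log k) ^ A ≤ N → Real.log N ≤ (k : ℝ) ^ c → ∀ f ∈ T,
          ‖avg (fun v => f (y v)) N - avg (fun v => circleAvg fun a => f (ι a * x v)) N‖ ≤ η / 4 := by
    intro k hk1 hk y hy N hN1 hN2 f hf
    refine (hEf f hf).2 k hk1 (fun h => hk ?_) y hy N hN1 hN2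
    rw [hE, Set.mem_iUnion₂]
    exact ⟨f, hTfin.mem_toFinset.2 hf, h⟩
  refine ⟨E, fun X hX => ?_, fun k hk1 hk y hy N hN1 hN2 f hf => ?_, fun μ _ heq => ?_⟩
  · have h1 := ncard_biUnion_le' hTfin.toFinset Ef X
    rw [← hE] at h1
    have h2 : (({k : ℕ | k ∈ E ∧ 1 ≤ k ∧ k ≤ X}.ncard : ℕ) : ℝ) ≤
        ∑ f ∈ hTfin.toFinset, (({k : ℕ | k ∈ Ef f ∧ 1 ≤ k ∧ k ≤ X}.ncard : ℕ) : ℝ) := by
      exact_mod_cast h1
    refine h2.trans ?_
    rw [sum_mul]
    exact sum_le_sum fun f hf => (hEf f (hTfin.mem_toFinset.1 hf)).1 X hX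
  · obtain ⟨f', hf', h1⟩ := hball f hf
    have h2 := hmain k hk1 hk y hy N hN1 hN2 f' hf'
    have h3 : ‖avg (fun v => f (y v)) N - avg (fun v => f' (y v)) N‖ ≤ η / 8 :=
      avg_sub_le (by positivity) (fun v => h1 _) N
    have h4 : ‖avg (fun v => circleAvg fun a => f' (ι a * x v)) N -
        avg (fun v => circleAvg fun a => f (ι a * x v)) N‖ ≤ η / 8 := by
      refine avg_sub_le (by positivity) (fun v => ?_) N
      apply circleAvg_sub_le (hcont f' _) (hcont f _)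
      intro a
      rw [norm_sub_rev]
      exact h1 _
    have e : avg (fun v => f (y v)) N - avg (fun v => circleAvg fun a => f (ι a * x v)) N =
        (avg (fun v => f (y v)) N - avg (fun v => f' (y v)) N) +
        (avg (fun v => f' (y v)) N - avg (fun v => circleAvg fun a => f' (ι a * x v)) N) +
        (avg (fun v => circleAvg fun a => f' (ι a * x v)) N -
          avg (fun v => circleAvg fun a => f (ι a * x v)) N) := by ring
    rw [e]
    refine (norm_add₃_le).trans ?_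
    linarith
  · -- equidistribution
    have hcc : ∀ f : C(H, ℂ), Continuous fun h => circleAvg fun a => f (ι a * h) := by
      intro f
      let Fc : C(H, C(Circle, ℂ)) := ContinuousMap.curry
        ⟨fun p : H × Circle => f (ι p.2 * p.1), f.continuous.comp
          ((hι.comp continuous_snd).mul continuous_fst)⟩
      have h1 : LipschitzWith 1 fun t : C(Circle, ℂ) => circleAvg t := by
        refine LipschitzWith.of_dist_le_mul fun t t' => ?_
        rw [dist_eq_norm, NNReal.coe_one, one_mul]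
        apply circleAvg_sub_le t.continuous t'.continuous
        intro a
        rw [← dist_eq_norm]
        exact ContinuousMap.dist_apply_le_dist a
      exact h1.continuous.comp Fc.continuous
    have hlim : ∀ f ∈ T, ∀ᶠ N in atTop,
        ‖avg (fun v => circleAvg fun a => f (ι a * x v)) N -
          ∫ h, circleAvg (fun a => f (ι a * h)) ∂μ‖ ≤ η / 4 := by
      intro f hf
      have h1 := heq (fun h => circleAvg fun a => f (ι a * h)) (hcc f) (by
        intro g h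
        have : (fun a : Circle => f (ι a * (g * h * g⁻¹))) = fun a : Circle => f (ι a * h) := by
          funext a
          have e : ι a * (g * h * g⁻¹) = g * (ι a * h) * g⁻¹ := by
            rw [← mul_assoc, ← mul_assoc, hιc a g, mul_assoc g]
          rw [e, hcl f (hT𝓕 hf)]
        simp only [this])
      have h4 := (Metric.tendsto_nhds.1 h1) (η / 4) (by positivity)
      filter_upwards [h4] with N hN
      rw [dist_eq_norm] at hN
      exact hN.le
    have hlim2 := (hTfin.toFinset.eventually_all).2 fun f hf =>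
      hlim f (hTfin.mem_toFinset.1 hf)
    obtain ⟨N₀, hN₀⟩ := eventually_atTop.1 hlim2
    refine ⟨N₀, fun k hk1 hk y hy N hN1 hN2 hNN f hf => ?_⟩
    obtain ⟨f', hf', h1⟩ := hball f hf
    have h2 := hmain k hk1 hk y hy N hN1 hN2 f' hf'
    have h3 : ‖avg (fun v => f (y v)) N - avg (fun v => f' (y v)) N‖ ≤ η / 8 :=
      avg_sub_le (by positivity) (fun v => h1 _) N
    have h4 := hN₀ N hNN f' (hTfin.mem_toFinset.2 hf')
    have h5 : ‖∫ h, circleAvg (fun a => f' (ι a * h)) ∂μ -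
        ∫ h, circleAvg (fun a => f (ι a * h)) ∂μ‖ ≤ η / 8 := by
      have hi : ∀ f : C(H, ℂ), Integrable (fun h => circleAvg fun a => f (ι a * h)) μ := by
        intro f
        exact (hcc f).integrable_of_hasCompactSupport (HasCompactSupport.of_compactSpace _)
      rw [← integral_sub (hi f') (hi f)]
      have h6 := norm_integral_le_of_norm_le_const (μ := μ)
        (f := fun h => (circleAvg fun a => f' (ι a * h)) - circleAvg fun a => f (ι a * h))
        (C := η / 8) (Eventually.of_forall fun h => by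
          apply circleAvg_sub_le (hcont f' _) (hcont f _)
          intro a
          rw [norm_sub_rev]
          exact h1 _)
      simpa using h6
    have e : avg (fun v => f (y v)) N - ∫ h, circleAvg (fun a => f (ι a * h)) ∂μ =
        (avg (fun v => f (y v)) N - avg (fun v => f' (y v)) N) +
        (avg (fun v => f' (y v)) N - avg (fun v => circleAvg fun a => f' (ι a * x v)) N) +
        (avg (fun v => circleAvg fun a => f' (ι a * x v)) N -
          ∫ h, circleAvg (fun a => f' (ι a * h)) ∂μ) +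
        (∫ h, circleAvg (fun a => f' (ι a * h)) ∂μ -
          ∫ h, circleAvg (fun a => f (ι a * h)) ∂μ) := by ring
    rw [e]
    refine (norm_add₄_le).trans ?_
    linarith

/-- the threshold -/
theorem part3 (F K : Type) [Field F] [NumberField F] [Field K] [NumberField K] [Algebra F K]
    (ψ : Ideal (𝓞 F) → Circle) (B δ ε : ℝ) (hB : 0 < B) (hδ : 0 < δ) (hδ1 : δ < 1) (hε : 0 < ε) :
    ∃ X₀ : ℕ, ∀ X : ℕ, X₀ ≤ X → (X : ℝ) ^ (1 - δ) ≤
      (({k : ℕ | 1 ≤ k ∧ k ≤ X ∧ ∀ v : HeightOneSpectrum (𝓞 K),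
        (Ideal.absNorm v.asIdeal : ℝ) ≤ B * Real.log X →
          ‖(ψ (Ideal.relNorm (𝓞 F) v.asIdeal) : ℂ) ^ k - 1‖ ≤ ε}.ncard : ℕ) : ℝ) := by
  classical
  -- a net of the circle
  obtain ⟨Φ, hΦ⟩ : ∃ Φ : Finset ℂ, ∀ z : ℂ, ‖z‖ = 1 → ∃ p ∈ Φ, ‖z - p‖ ≤ ε / 2 := by
    have hcomp : IsCompact (Metric.sphere (0 : ℂ) 1) := isCompact_sphere _ _
    obtain ⟨T, -, hTfin, hTcov⟩ := hcomp.finite_cover_balls (show 0 < ε / 2 by positivity)
    refine ⟨hTfin.toFinset, fun z hz => ?_⟩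
    have h1 := hTcov (show z ∈ Metric.sphere (0 : ℂ) 1 by simpa using hz)
    rw [Set.mem_iUnion₂] at h1
    obtain ⟨p, hp, h2⟩ := h1
    rw [Metric.mem_ball, dist_eq_norm] at h2
    exact ⟨p, hTfin.mem_toFinset.2 hp, h2.le⟩
  have hΦne : Φ.Nonempty := by
    obtain ⟨p, hp, _⟩ := hΦ 1 (by simp)
    exact ⟨p, hp⟩
  have hq1 : (1 : ℝ) ≤ Φ.card := by exact_mod_cast hΦne.card_pos
  obtain ⟨lq, hlq⟩ : ∃ lq : ℝ, lq = Real.log Φ.card := ⟨_, rfl⟩
  have hlq0 : 0 ≤ lq := by rw [hlq]; exact Real.log_nonneg hq1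
  choose! net hnet1 hnet2 using hΦ
  -- few primes
  obtain ⟨κ, hκ⟩ : ∃ κ : ℝ, κ = δ / (2 * B * (lq + 1)) := ⟨_, rfl⟩
  have hκ0 : 0 < κ := by rw [hκ]; positivity
  have hu : ∀ᶠ N : ℕ in atTop, uK K N ≤ κ * N := by
    have h1 : ∀ᶠ N : ℕ in atTop, uK K N * Real.log N / N ≤ 2 :=
      (uK_tendsto (K := K)).eventually_le_const (by norm_num)
    have h2 : ∀ᶠ N : ℕ in atTop, 2 / κ + 1 ≤ Real.log N :=
      (Real.tendsto_log_atTop.comp tendsto_natCast_atTop_atTop).eventually_ge_atTop _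
    filter_upwards [h1, h2, eventually_ge_atTop 1] with N h1 h2 h3
    have hN0 : (0 : ℝ) < N := by exact_mod_cast h3
    rw [div_le_iff₀ hN0] at h1
    have h4 : 0 ≤ uK K N := Nat.cast_nonneg _
    have h5 : 2 / κ ≤ Real.log N := by linarith
    rw [div_le_iff₀ hκ0] at h5
    have h6 : uK K N * 2 ≤ uK K N * (Real.log N * κ) := by gcongr
    nlinarith
  obtain ⟨N₁, hN₁⟩ := eventually_atTop.1 hu
  have c1 : ∀ᶠ X : ℕ in atTop, (N₁ : ℝ) + 1 ≤ B * Real.log X := by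
    have h1 : Tendsto (fun X : ℕ => B * Real.log X) atTop atTop :=
      Tendsto.const_mul_atTop hB (Real.tendsto_log_atTop.comp tendsto_natCast_atTop_atTop)
    exact h1.eventually_ge_atTop _
  have c2 : ∀ᶠ X : ℕ in atTop, (4 : ℝ) ≤ (X : ℝ) ^ (δ / 2) :=
    ((tendsto_rpow_atTop (by positivity)).comp tendsto_natCast_atTop_atTop).eventually_ge_atTop _
  have c3 : ∀ᶠ X : ℕ in atTop, δ / 2 < 1 → (4 : ℝ) ≤ (X : ℝ) ^ (1 - δ / 2) := by
    by_cases h : δ / 2 < 1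
    · have := ((tendsto_rpow_atTop (show 0 < 1 - δ / 2 by linarith)).comp
        (tendsto_natCast_atTop_atTop (R := ℝ))).eventually_ge_atTop 4
      filter_upwards [this] with X hX _
      exact hX
    · exact Eventually.of_forall fun X h' => absurd h' h
  obtain ⟨X₀, hX₀⟩ := eventually_atTop.1 (c1.and (c2.and (c3.and (eventually_ge_atTop 2))))
  refine ⟨X₀, fun X hX => ?_⟩
  obtain ⟨g1, g2, g3, g4⟩ := hX₀ X hX
  have hXr : (2 : ℝ) ≤ X := by exact_mod_cast g4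
  have hX0 : (0 : ℝ) < X := by linarith
  have hX1 : (1 : ℝ) ≤ X := by linarith
  have hlX : 0 < Real.log X := Real.log_pos (by linarith)
  obtain ⟨N, hN⟩ : ∃ N : ℕ, N = ⌊B * Real.log X⌋₊ := ⟨_, rfl⟩
  have hN1 : (N : ℝ) ≤ B * Real.log X := by rw [hN]; exact Nat.floor_le (by positivity)
  have hN2 : N₁ ≤ N := by
    rw [hN]
    apply Nat.le_floor
    linarith
  obtain ⟨W, hW⟩ : ∃ W : Finset (HeightOneSpectrum (𝓞 K)), W = upto K N := ⟨_, rfl⟩
  have hWc : (W.card : ℝ) ≤ κ * N := by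
    have := hN₁ N hN2
    unfold uK at this
    rw [hW]
    exact this
  have hmemW : ∀ v : HeightOneSpectrum (𝓞 K), (Ideal.absNorm v.asIdeal : ℝ) ≤ B * Real.log X →
      v ∈ W := by
    intro v hv
    rw [hW, mem_upto, hN]
    apply Nat.le_floor
    exact hv
  -- the cells
  obtain ⟨q, hq⟩ : ∃ q : ℕ, q = Φ.card ^ W.card := ⟨_, rfl⟩
  have hqX : (q : ℝ) ≤ (X : ℝ) ^ (δ / 2) := by
    have h1 : (q : ℝ) = Real.exp (W.card * lq) := by
      rw [hq, hlq, Real.exp_nat_mul, Real.exp_log (by linarith)]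
      push_cast
      rfl
    have h2 : (X : ℝ) ^ (δ / 2) = Real.exp (Real.log X * (δ / 2)) := Real.rpow_def_of_pos hX0 _
    rw [h1, h2]
    apply Real.exp_le_exp.2
    calc (W.card : ℝ) * lq ≤ (κ * N) * (lq + 1) := by
          apply mul_le_mul hWc (by linarith) hlq0 (by positivity)
      _ ≤ (κ * (B * Real.log X)) * (lq + 1) := by gcongr
      _ = Real.log X * (δ / 2) := by rw [hκ]; field_simp
  have hq0 : 0 < q := by rw [hq]; exact Nat.pow_pos hΦne.card_pos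
  let z : HeightOneSpectrum (𝓞 K) → ℂ := fun v => (ψ (Ideal.relNorm (𝓞 F) v.asIdeal) : ℂ)
  have hz : ∀ v, ‖z v‖ = 1 := fun v => Circle.norm_coe _
  let cell : ℕ → (W → ℂ) := fun k v => net (z v ^ k)
  have hcell : ∀ k ∈ range (X + 1), cell k ∈ Fintype.piFinset fun _ : W => Φ := by
    intro k _
    rw [Fintype.mem_piFinset]
    intro v
    exact hnet1 _ (by rw [norm_pow, hz, one_pow])
  have hcardpi : (Fintype.piFinset fun _ : W => Φ).card = q := by
    rw [Fintype.card_piFinset, hq]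
    simp
  obtain ⟨n, hn⟩ : ∃ n : ℕ, n = (X + 1) / q := ⟨_, rfl⟩
  have hnq : (Fintype.piFinset fun _ : W => Φ).card * n ≤ (range (X + 1)).card := by
    rw [hcardpi, card_range, hn]
    exact Nat.mul_div_le _ _
  have hne : (Fintype.piFinset fun _ : W => Φ).Nonempty := by
    rw [← card_pos, hcardpi]; exact hq0
  obtain ⟨t, _, ht⟩ := exists_le_card_fiber_of_mul_le_card_of_maps_to hcell hne hnq
  obtain ⟨P, hP⟩ : ∃ P : Finset ℕ, P = (range (X + 1)).filter fun k => cell k = t := ⟨_, rfl⟩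
  rw [← hP] at ht
  -- n is large
  have hnlarge : (X : ℝ) ^ (1 - δ / 2) - 1 ≤ n := by
    have h1 : X + 1 < q * (n + 1) := by
      rw [hn]
      exact Nat.lt_mul_div_succ _ hq0
    have h2 : (X : ℝ) + 1 < q * (n + 1) := by exact_mod_cast h1
    have h3 : (X : ℝ) < (X : ℝ) ^ (δ / 2) * (n + 1) := by
      have h4 : (q : ℝ) * (n + 1) ≤ (X : ℝ) ^ (δ / 2) * (n + 1) := by gcongr
      linarith
    have h5 : (X : ℝ) = (X : ℝ) ^ (δ / 2) * (X : ℝ) ^ (1 - δ / 2) := by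
      rw [← Real.rpow_add hX0]
      have : δ / 2 + (1 - δ / 2) = 1 := by ring
      rw [this, Real.rpow_one]
    have hp : 0 < (X : ℝ) ^ (δ / 2) := Real.rpow_pos_of_pos hX0 _
    have h6 : (X : ℝ) ^ (δ / 2) * (X : ℝ) ^ (1 - δ / 2) < (X : ℝ) ^ (δ / 2) * (n + 1) := by
      rw [← h5]; exact h3
    have h7 := lt_of_mul_lt_mul_left h6 hp.le
    linarith
  -- the good set
  obtain ⟨G, hG⟩ : ∃ G : Set ℕ, G = {k : ℕ | 1 ≤ k ∧ k ≤ X ∧ ∀ v : HeightOneSpectrum (𝓞 K),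
        (Ideal.absNorm v.asIdeal : ℝ) ≤ B * Real.log X →
          ‖(ψ (Ideal.relNorm (𝓞 F) v.asIdeal) : ℂ) ^ k - 1‖ ≤ ε} := ⟨_, rfl⟩
  rw [← hG]
  have hGfin : G.Finite := by
    rw [hG]
    exact (Set.finite_Icc 0 X).subset fun k hk => ⟨Nat.zero_le _, hk.2.1⟩
  have hPG : P.card ≤ G.ncard + 1 := by
    rcases P.eq_empty_or_nonempty with he | hPne
    · rw [he]; simp
    obtain ⟨k₀, hk₀⟩ : ∃ k₀ : ℕ, k₀ = P.min' hPne := ⟨_, rfl⟩
    have hk₀P : k₀ ∈ P := by rw [hk₀]; exact min'_mem _ _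
    have hsub : (((P.erase k₀).image fun k => k - k₀ : Finset ℕ) : Set ℕ) ⊆ G := by
      intro k hk
      rw [mem_coe, mem_image] at hk
      obtain ⟨k', hk', rfl⟩ := hk
      rw [mem_erase] at hk'
      have hle : k₀ ≤ k' := by rw [hk₀]; exact min'_le _ _ hk'.2
      have hlt : k₀ < k' := lt_of_le_of_ne hle (Ne.symm hk'.1)
      have hP' := hk'.2
      have hP0 := hk₀P
      rw [hP, mem_filter, mem_range] at hP' hP0
      rw [hG]
      refine ⟨by omega, by omega, fun v hv => ?_⟩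
      have hvW := hmemW v hv
      have e1 : net (z v ^ k') = net (z v ^ k₀) := by
        have := congrFun (hP'.2.trans hP0.2.symm) ⟨v, hvW⟩
        exact this
      have e2 := hnet2 (z v ^ k') (by rw [norm_pow, hz, one_pow])
      have e3 := hnet2 (z v ^ k₀) (by rw [norm_pow, hz, one_pow])
      rw [← e1] at e3
      have e4 : ‖z v ^ k' - z v ^ k₀‖ ≤ ε := by
        have : z v ^ k' - z v ^ k₀ = (z v ^ k' - net (z v ^ k')) - (z v ^ k₀ - net (z v ^ k')) := by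
          ring
        rw [this]
        refine (norm_sub_le _ _).trans ?_
        linarith
      have e5 : z v ^ k' - z v ^ k₀ = z v ^ k₀ * (z v ^ (k' - k₀) - 1) := by
        rw [mul_sub, ← pow_add, Nat.add_sub_cancel' hle, mul_one]
      rw [e5, norm_mul, norm_pow, hz, one_pow, one_mul] at e4
      exact e4
    have h1 := Set.ncard_le_ncard hsub hGfin
    rw [Set.ncard_coe_finset, card_image_of_injOn, card_erase_of_mem hk₀P] at h1
    · omega
    · intro a ha b hb hab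
      rw [mem_coe, mem_erase] at ha hb
      have h2 : k₀ ≤ a := by rw [hk₀]; exact min'_le _ _ ha.2
      have h3 : k₀ ≤ b := by rw [hk₀]; exact min'_le _ _ hb.2
      simp only at hab
      omega
  have hfinal : (X : ℝ) ^ (1 - δ / 2) - 2 ≤ G.ncard := by
    have h1 : (n : ℝ) ≤ G.ncard + 1 := by exact_mod_cast ht.trans hPG
    linarith
  refine le_trans ?_ hfinal
  have h4 := g3 (by linarith)
  have h5 : (X : ℝ) ^ (1 - δ / 2) = (X : ℝ) ^ (1 - δ) * (X : ℝ) ^ (δ / 2) := by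
    rw [← Real.rpow_add hX0]; congr 1; ring
  have h6 : 0 ≤ (X : ℝ) ^ (1 - δ) := by positivity
  nlinarith

end Pool.Agent.H4.Hk
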