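import Pool.Agent.H4.HDefs

/-! Hecke characters of infinite order of imaginary quadratic fields: basic properties. -/

set_option autoImplicit false

namespace Pool.Agent.H4.Hk

open Finset NumberField ComplexConjugate
open Pool.Agent.H4 (IsHecke)

section

variable {F : Type} [Field F] [NumberField F]

theorem exists_gen {𝔪 : Ideal (𝓞 F)} (hm : 𝔪 ≠ ⊥) : ∃ M : ℕ, 0 < M ∧ ∀ 𝔞 : Ideal (𝓞 F), 𝔞 ≠ ⊥ →
    IsCoprime 𝔞 𝔪 → ∃ α : 𝓞 F, α ≠ 0 ∧ 𝔞 ^ M = Ideal.span {α} ∧ α - 1 ∈ 𝔪 := by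
  classical
  have : Finite (𝓞 F ⧸ 𝔪) := Ideal.finiteQuotientOfFreeOfNeBot _ hm
  have : Finite (𝓞 F ⧸ 𝔪)ˣ := inferInstance
  refine ⟨Fintype.card (ClassGroup (𝓞 F)) * Nat.card (𝓞 F ⧸ 𝔪)ˣ,
    Nat.mul_pos Fintype.card_pos Nat.card_pos, fun 𝔞 h0 hc => ?_⟩
  have h0' : 𝔞 ∈ nonZeroDivisors (Ideal (𝓞 F)) := mem_nonZeroDivisors_of_ne_zero h0
  have h1 : (ClassGroup.mk0 ⟨𝔞, h0'⟩) ^ Fintype.card (ClassGroup (𝓞 F)) = 1 := pow_card_eq_one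
  rw [← map_pow] at h1
  have h2 : (𝔞 ^ Fintype.card (ClassGroup (𝓞 F))).IsPrincipal := by
    have h3 := (ClassGroup.mk0_eq_one_iff (I := 𝔞 ^ Fintype.card (ClassGroup (𝓞 F)))
      (pow_mem h0' _)).1 h1
    exact h3
  obtain ⟨α, hα⟩ := h2
  rw [Ideal.submodule_span_eq] at hα
  have hcop : IsCoprime (Ideal.span {α}) 𝔪 := by
    rw [← hα]
    exact hc.pow_left
  rw [Ideal.isCoprime_iff_exists] at hcop
  obtain ⟨i, hi, j, hj, hij⟩ := hcop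
  rw [Ideal.mem_span_singleton'] at hi
  obtain ⟨c, rfl⟩ := hi
  have hu : IsUnit (Ideal.Quotient.mk 𝔪 α) := by
    apply IsUnit.of_mul_eq_one (Ideal.Quotient.mk 𝔪 c)
    rw [← map_mul, ← map_one (Ideal.Quotient.mk 𝔪), Ideal.Quotient.eq]
    have : α * c - 1 = - j := by rw [← hij]; ring
    rw [this]
    exact 𝔪.neg_mem hj
  obtain ⟨u, hu⟩ := hu
  have h4 : (Ideal.Quotient.mk 𝔪 α) ^ Nat.card (𝓞 F ⧸ 𝔪)ˣ = 1 := by
    rw [← hu, ← Units.val_pow_eq_pow_val, pow_card_eq_one', Units.val_one]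
  rw [← map_pow, ← map_one (Ideal.Quotient.mk 𝔪), Ideal.Quotient.eq] at h4
  have hα0 : α ≠ 0 := by
    rintro rfl
    rw [Ideal.span_singleton_eq_bot.2 rfl] at hα
    exact h0 (eq_zero_of_pow_eq_zero hα)
  refine ⟨α ^ Nat.card (𝓞 F ⧸ 𝔪)ˣ, pow_ne_zero _ hα0, ?_, h4⟩
  rw [pow_mul, hα, Ideal.span_singleton_pow]

variable {𝔪 : Ideal (𝓞 F)} {σ : F →+* ℂ} {m : ℕ} {ψ : Ideal (𝓞 F) → Circle}

theorem _root_.Pool.Agent.H4.IsHecke.one (h : IsHecke F 𝔪 σ m ψ) : ψ ⊤ = 1 := by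
  have h1 : IsCoprime (⊤ : Ideal (𝓞 F)) 𝔪 := by
    rw [← Ideal.one_eq_top]; exact isCoprime_one_left
  have h2 := h.mul ⊤ ⊤ h1 h1
  rw [Ideal.top_mul] at h2
  simpa using h2

theorem _root_.Pool.Agent.H4.IsHecke.pow (h : IsHecke F 𝔪 σ m ψ) {𝔞 : Ideal (𝓞 F)} (ha : IsCoprime 𝔞 𝔪) (n : ℕ) :
    ψ (𝔞 ^ n) = ψ 𝔞 ^ n := by
  induction n with
  | zero => rw [pow_zero, pow_zero, Ideal.one_eq_top, h.one]
  | succ n ih => rw [pow_succ, pow_succ, h.mul _ _ ha.pow_left ha, ih]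

theorem _root_.Pool.Agent.H4.IsHecke.prod (h : IsHecke F 𝔪 σ m ψ) {ι : Type*} (s : Finset ι) (f : ι → Ideal (𝓞 F))
    (hf : ∀ i ∈ s, IsCoprime (f i) 𝔪) : ψ (∏ i ∈ s, f i) = ∏ i ∈ s, ψ (f i) := by
  classical
  induction s using Finset.induction_on with
  | empty => rw [prod_empty, prod_empty, Ideal.one_eq_top, h.one]
  | insert a s ha ih =>
    rw [prod_insert ha, prod_insert ha, h.mul _ _ (hf a (mem_insert_self _ _)) ?_,
      ih fun i hi => hf i (mem_insert_of_mem hi)]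
    exact IsCoprime.prod_left fun i hi => hf i (mem_insert_of_mem hi)

/-- the absolute value of an embedding of an imaginary quadratic field -/
theorem norm_sq (hF : Module.finrank ℚ F = 2) (hσ : ¬ ComplexEmbedding.IsReal σ) (α : 𝓞 F) :
    ‖σ α‖ ^ 2 = (Ideal.absNorm (Ideal.span {α}) : ℝ) := by
  classical
  have hw : (InfinitePlace.mk σ).IsComplex := InfinitePlace.isComplex_mk_iff.2 hσ
  have h1 := InfinitePlace.card_add_two_mul_card_eq_rank F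
  have h2 := InfinitePlace.card_eq_nrRealPlaces_add_nrComplexPlaces F
  have h3 : 0 < InfinitePlace.nrComplexPlaces F :=
    Fintype.card_pos_iff.2 ⟨⟨InfinitePlace.mk σ, hw⟩⟩
  have h4 : Fintype.card (InfinitePlace F) = 1 := by omega
  obtain ⟨w, hw'⟩ := Fintype.card_eq_one_iff.1 h4
  have h5 := InfinitePlace.prod_eq_abs_norm (α : F)
  have h6 : (univ : Finset (InfinitePlace F)) = {InfinitePlace.mk σ} := by
    ext v
    simp [hw' v, hw' (InfinitePlace.mk σ)]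
  rw [h6, prod_singleton, hw.mult_eq_two, InfinitePlace.apply] at h5
  have e : ((Ideal.absNorm (Ideal.span {α}) : ℕ) : ℝ) = ((|Algebra.norm ℤ α| : ℤ) : ℝ) := by
    rw [Ideal.absNorm_span_singleton, Nat.cast_natAbs]
  rw [h5, e, ← Algebra.coe_norm_int]
  push_cast
  rfl

theorem one_le_norm (hF : Module.finrank ℚ F = 2) (hσ : ¬ ComplexEmbedding.IsReal σ) {α : 𝓞 F}
    (h : α ≠ 0) : 1 ≤ ‖σ α‖ := by
  have h1 := norm_sq hF hσ α
  have h2 : 1 ≤ Ideal.absNorm (Ideal.span {α}) := by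
    rw [Nat.one_le_iff_ne_zero, Ne, Ideal.absNorm_eq_zero_iff, Ideal.span_singleton_eq_bot]
    exact h
  have h3 : (1 : ℝ) ≤ ‖σ α‖ ^ 2 := by
    rw [h1]
    exact_mod_cast h2
  nlinarith [norm_nonneg (σ α)]

theorem norm_pow_sub_le {x y : ℂ} (hx : ‖x‖ = 1) (hy : ‖y‖ = 1) (n : ℕ) :
    ‖x ^ n - y ^ n‖ ≤ n * ‖x - y‖ := by
  induction n with
  | zero => simp
  | succ n ih =>
    have e : x ^ (n + 1) - y ^ (n + 1) = (x ^ n - y ^ n) * x + y ^ n * (x - y) := by ring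
    rw [e]
    refine (norm_add_le _ _).trans ?_
    rw [norm_mul, norm_mul, norm_pow, hx, hy, one_pow, one_mul, mul_one]
    push_cast
    linarith

/-- either the two ideals have the same direction, or the values of `ψ` are separated -/
theorem _root_.Pool.Agent.H4.IsHecke.sep (hF : Module.finrank ℚ F = 2) (hσ : ¬ ComplexEmbedding.IsReal σ)
    (h : IsHecke F 𝔪 σ m ψ) (hm : 0 < m) {M : ℕ} (hM : 0 < M)
    (hgen : ∀ 𝔞 : Ideal (𝓞 F), 𝔞 ≠ ⊥ → IsCoprime 𝔞 𝔪 →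
      ∃ α : 𝓞 F, α ≠ 0 ∧ 𝔞 ^ M = Ideal.span {α} ∧ α - 1 ∈ 𝔪)
    {𝔞 𝔟 : Ideal (𝓞 F)} (ha0 : 𝔞 ≠ ⊥) (hb0 : 𝔟 ≠ ⊥) (ha : IsCoprime 𝔞 𝔪) (hb : IsCoprime 𝔟 𝔪) :
    𝔞 ^ 2 * Ideal.span {((Ideal.absNorm 𝔟 : ℕ) : 𝓞 F)} =
      𝔟 ^ 2 * Ideal.span {((Ideal.absNorm 𝔞 : ℕ) : 𝓞 F)} ∨
    1 ≤ (2 * M : ℝ) * ((Ideal.absNorm 𝔞 : ℝ) * (Ideal.absNorm 𝔟 : ℝ)) ^ (M * m) *
      ‖(ψ 𝔞 : ℂ) - ψ 𝔟‖ := by
  obtain ⟨α, hα0, hα, hα1⟩ := hgen 𝔞 ha0 ha
  obtain ⟨β, hβ0, hβ, hβ1⟩ := hgen 𝔟 hb0 hb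
  have hNα : Ideal.absNorm (Ideal.span {α}) = Ideal.absNorm 𝔞 ^ M := by rw [← hα, map_pow]
  have hNβ : Ideal.absNorm (Ideal.span {β}) = Ideal.absNorm 𝔟 ^ M := by rw [← hβ, map_pow]
  set na := Ideal.absNorm 𝔞 with hna
  set nb := Ideal.absNorm 𝔟 with hnb
  have hna0 : na ≠ 0 := by rw [hna, Ne, Ideal.absNorm_eq_zero_iff]; exact ha0
  have hnb0 : nb ≠ 0 := by rw [hnb, Ne, Ideal.absNorm_eq_zero_iff]; exact hb0
  set δ : 𝓞 F := β ^ (2 * m) * ((na : ℕ) : 𝓞 F) ^ (M * m) - α ^ (2 * m) * ((nb : ℕ) : 𝓞 F) ^ (M * m)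
    with hδ
  by_cases h0 : δ = 0
  · left
    have h1 : β ^ (2 * m) * ((na : ℕ) : 𝓞 F) ^ (M * m) =
        α ^ (2 * m) * ((nb : ℕ) : 𝓞 F) ^ (M * m) := sub_eq_zero.1 h0
    have h2 := congrArg (fun x : 𝓞 F => Ideal.span {x}) h1
    rw [← Ideal.span_singleton_mul_span_singleton, ← Ideal.span_singleton_mul_span_singleton,
      ← Ideal.span_singleton_pow, ← Ideal.span_singleton_pow, ← Ideal.span_singleton_pow,
      ← Ideal.span_singleton_pow, ← hα, ← hβ] at h2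
    have h3 : (𝔟 ^ 2 * Ideal.span {((na : ℕ) : 𝓞 F)}) ^ (M * m) =
        (𝔞 ^ 2 * Ideal.span {((nb : ℕ) : 𝓞 F)}) ^ (M * m) := by
      rw [mul_pow, mul_pow, ← pow_mul, ← pow_mul]
      rw [← pow_mul, ← pow_mul] at h2
      have e : 2 * (M * m) = M * (2 * m) := by ring
      rw [e]
      exact h2
    have hMm : M * m ≠ 0 := by positivity
    apply dvd_antisymm
    · rw [← UniqueFactorizationMonoid.pow_dvd_pow_iff_dvd hMm, h3]
    · rw [← UniqueFactorizationMonoid.pow_dvd_pow_iff_dvd hMm, h3]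
  · right
    have h1 : 1 ≤ ‖σ δ‖ := one_le_norm hF hσ h0
    have hA := h.pow ha M
    rw [hα] at hA
    have hA' := h.principal α hα0 hα1
    have hB := h.pow hb M
    rw [hβ] at hB
    have hB' := h.principal β hβ0 hβ1
    rw [hA] at hA'
    rw [hB] at hB'
    push_cast at hA' hB'
    have hσα : (‖σ α‖ : ℂ) ^ 2 = (na : ℂ) ^ M := by
      have := norm_sq hF hσ α
      rw [hNα] at this
      exact_mod_cast this
    have hσβ : (‖σ β‖ : ℂ) ^ 2 = (nb : ℂ) ^ M := by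
      have := norm_sq hF hσ β
      rw [hNβ] at this
      exact_mod_cast this
    have hA2 : (ψ 𝔞 : ℂ) ^ (2 * M) * (na : ℂ) ^ (M * m) = σ α ^ (2 * m) := by
      have h0' : (‖σ α‖ : ℂ) ≠ 0 := by
        have := one_le_norm hF hσ hα0
        have h' : ‖σ α‖ ≠ 0 := by linarith
        exact_mod_cast h'
      rw [pow_mul' (ψ 𝔞 : ℂ) 2 M, hA', pow_mul (na : ℂ) M m, ← hσα, div_pow, div_pow]
      field_simp
      ring
    have hB2 : (ψ 𝔟 : ℂ) ^ (2 * M) * (nb : ℂ) ^ (M * m) = σ β ^ (2 * m) := by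
      have h0' : (‖σ β‖ : ℂ) ≠ 0 := by
        have := one_le_norm hF hσ hβ0
        have h' : ‖σ β‖ ≠ 0 := by linarith
        exact_mod_cast h'
      rw [pow_mul' (ψ 𝔟 : ℂ) 2 M, hB', pow_mul (nb : ℂ) M m, ← hσβ, div_pow, div_pow]
      field_simp
      ring
    have h2 : σ δ = ((ψ 𝔟 : ℂ) ^ (2 * M) - (ψ 𝔞 : ℂ) ^ (2 * M)) *
        ((na : ℂ) ^ (M * m) * (nb : ℂ) ^ (M * m)) := by
      rw [hδ]
      push_cast
      rw [map_sub, map_mul, map_mul, map_pow, map_pow, map_pow, map_pow, map_natCast, map_natCast,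
        ← hA2, ← hB2]
      ring
    rw [h2, norm_mul, norm_mul, norm_pow, norm_pow, Complex.norm_natCast, Complex.norm_natCast] at h1
    have h3 := norm_pow_sub_le (x := (ψ 𝔟 : ℂ)) (y := (ψ 𝔞 : ℂ)) (Circle.norm_coe _)
      (Circle.norm_coe _) (2 * M)
    rw [norm_sub_rev (ψ 𝔟 : ℂ)] at h3
    refine h1.trans ?_
    rw [mul_pow]
    calc _ ≤ ((2 * M : ℕ) : ℝ) * ‖(ψ 𝔞 : ℂ) - ψ 𝔟‖ * ((na : ℝ) ^ (M * m) * (nb : ℝ) ^ (M * m)) :=
          mul_le_mul_of_nonneg_right h3 (by positivity)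
      _ = _ := by push_cast; ring

end

end Pool.Agent.H4.Hk
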