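import Pool.Agent.H4.Hk

/-! Ideals with the same direction. -/

set_option autoImplicit false
namespace Pool.Agent.H4.Hk

open Pool.Agent.H4 (IsHecke)
open Finset NumberField ComplexConjugate UniqueFactorizationMonoid

variable {F : Type} [Field F] [NumberField F]

theorem count_prime {p : ℕ} (hp : p.Prime) (hd : ¬ (p : ℤ) ∣ discr F) {P : Ideal (𝓞 F)}
    (hP : P.IsPrime) (hpP : (p : 𝓞 F) ∈ P) :
    (normalizedFactors (Ideal.span {(p : 𝓞 F)})).count P = 1 := by
  have hp' : Prime (p : ℤ) := Nat.prime_iff_prime_int.1 hp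
  have h1 := (not_dvd_discr_iff_forall_mem F (𝓞 F) hp').1 hd P hP (by exact_mod_cast hpP)
  have hP0 : P ≠ ⊥ := by
    rintro rfl
    rw [Ideal.mem_bot, Nat.cast_eq_zero] at hpP
    exact hp.ne_zero hpP
  have hover : P.under ℤ = Ideal.span {(p : ℤ)} := by
    have hmax : (Ideal.span {(p : ℤ)}).IsMaximal := by
      have := (Ideal.span_singleton_prime hp'.ne_zero).2 hp'
      exact this.isMaximal (by rw [Ne, Ideal.span_singleton_eq_bot]; exact hp'.ne_zero)
    symm
    apply hmax.eq_of_le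
    · exact (hP.under ℤ).ne_top
    · rw [Ideal.span_singleton_le_iff_mem, Ideal.mem_comap]
      exact_mod_cast hpP
  have hl : P.LiesOver (Ideal.span {(p : ℤ)}) := ⟨hover.symm⟩
  have hmap : (Ideal.span {(p : ℤ)}).map (algebraMap ℤ (𝓞 F)) = Ideal.span {(p : 𝓞 F)} := by
    rw [Ideal.map_span, Set.image_singleton]
    simp
  have hne : (Ideal.span {(p : ℤ)}).map (algebraMap ℤ (𝓞 F)) ≠ ⊥ := by
    rw [hmap, Ne, Ideal.span_singleton_eq_bot, Nat.cast_eq_zero]
    exact hp.ne_zero
  have h2 := Ideal.IsDedekindDomain.ramificationIdx_eq_normalizedFactors_count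
    (Ideal.span {(p : ℤ)}) P hne
  rw [hmap] at h2
  rw [← h2]
  exact Ideal.ramificationIdx_eq_one_of_isUnramifiedAt

theorem count_natCast {p : ℕ} (hp : p.Prime) (hd : ¬ (p : ℤ) ∣ discr F) {P : Ideal (𝓞 F)}
    (hP : P.IsPrime) (hpP : (p : 𝓞 F) ∈ P) {n : ℕ} (hn : n ≠ 0) :
    (normalizedFactors (Ideal.span {(n : 𝓞 F)})).count P = n.factorization p := by
  have h1 := Nat.ordProj_mul_ordCompl_eq_self n p
  set t := n / p ^ n.factorization p with ht
  have ht0 : t ≠ 0 := by
    intro h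
    rw [h, mul_zero] at h1
    exact hn h1.symm
  have htp : ¬ p ∣ t := Nat.not_dvd_ordCompl hp hn
  have h2 : Ideal.span {(n : 𝓞 F)} =
      Ideal.span {(p : 𝓞 F)} ^ n.factorization p * Ideal.span {(t : 𝓞 F)} := by
    rw [Ideal.span_singleton_pow, Ideal.span_singleton_mul_span_singleton, ← Nat.cast_pow,
      ← Nat.cast_mul, h1]
  have hp0 : Ideal.span {(p : 𝓞 F)} ≠ 0 := by
    rw [Ideal.zero_eq_bot, Ne, Ideal.span_singleton_eq_bot, Nat.cast_eq_zero]
    exact hp.ne_zero
  have ht0' : Ideal.span {(t : 𝓞 F)} ≠ 0 := by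
    rw [Ideal.zero_eq_bot, Ne, Ideal.span_singleton_eq_bot, Nat.cast_eq_zero]
    exact ht0
  rw [h2, normalizedFactors_mul (pow_ne_zero _ hp0) ht0', normalizedFactors_pow, Multiset.count_add,
    Multiset.count_nsmul, count_prime hp hd hP hpP, mul_one]
  have h3 : (normalizedFactors (Ideal.span {(t : 𝓞 F)})).count P = 0 := by
    rw [Multiset.count_eq_zero]
    intro hmem
    have h4 := dvd_of_mem_normalizedFactors hmem
    rw [Ideal.dvd_span_singleton] at h4
    have hcop : IsCoprime (p : ℤ) (t : ℤ) := by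
      rw [Nat.isCoprime_iff_coprime]
      exact (Nat.Prime.coprime_iff_not_dvd hp).2 htp
    obtain ⟨r, s, hrs⟩ := hcop
    have h5 : (1 : 𝓞 F) ∈ P := by
      have h6 : ((r * p + s * t : ℤ) : 𝓞 F) = 1 := by rw [hrs]; simp
      rw [← h6]
      push_cast
      exact P.add_mem (P.mul_mem_left _ hpP) (P.mul_mem_left _ h4)
    exact hP.ne_top ((Ideal.eq_top_iff_one _).2 h5)
  omega

/-- two ideals with the same direction: the product of the norms is a square -/
theorem isSquare_of_dir {𝔞 𝔟 : Ideal (𝓞 F)} (ha0 : 𝔞 ≠ ⊥) (hb0 : 𝔟 ≠ ⊥)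
    (h : 𝔞 ^ 2 * Ideal.span {((Ideal.absNorm 𝔟 : ℕ) : 𝓞 F)} =
      𝔟 ^ 2 * Ideal.span {((Ideal.absNorm 𝔞 : ℕ) : 𝓞 F)})
    (hd : ∀ p : ℕ, p.Prime → p ∣ Ideal.absNorm 𝔞 * Ideal.absNorm 𝔟 → ¬ (p : ℤ) ∣ discr F) :
    IsSquare (Ideal.absNorm 𝔞 * Ideal.absNorm 𝔟) := by
  set na := Ideal.absNorm 𝔞 with hna
  set nb := Ideal.absNorm 𝔟 with hnb
  have hna0 : na ≠ 0 := by rw [hna, Ne, Ideal.absNorm_eq_zero_iff]; exact ha0
  have hnb0 : nb ≠ 0 := by rw [hnb, Ne, Ideal.absNorm_eq_zero_iff]; exact hb0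
  have hn0 : na * nb ≠ 0 := mul_ne_zero hna0 hnb0
  have heven : ∀ p : ℕ, Even ((na * nb).factorization p) := by
    intro p
    by_cases hp : p.Prime
    · by_cases hpn : p ∣ na * nb
      · have hd' := hd p hp hpn
        -- a prime above p
        obtain ⟨P, hPmax, hpP⟩ : ∃ P : Ideal (𝓞 F), P.IsMaximal ∧ (p : 𝓞 F) ∈ P := by
          have h1 : Ideal.span {(p : 𝓞 F)} ≠ ⊤ := by
            intro h2
            have h3 := Ideal.absNorm_span_natCast (S := 𝓞 F) p
            rw [h2, Ideal.absNorm_top] at h3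
            have h4 : Module.finrank ℤ (𝓞 F) ≠ 0 := Module.finrank_pos.ne'
            have h5 := Nat.one_lt_pow h4 hp.one_lt
            omega
          obtain ⟨P, hP, hle⟩ := Ideal.exists_le_maximal _ h1
          exact ⟨P, hP, (Ideal.span_singleton_le_iff_mem _).1 hle⟩
        have hP := hPmax.isPrime
        have h2 := congrArg (fun I : Ideal (𝓞 F) => (normalizedFactors I).count P) h
        have e1 : Ideal.span {((nb : ℕ) : 𝓞 F)} ≠ 0 := by
          rw [Ideal.zero_eq_bot, Ne, Ideal.span_singleton_eq_bot, Nat.cast_eq_zero]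
          exact hnb0
        have e2 : Ideal.span {((na : ℕ) : 𝓞 F)} ≠ 0 := by
          rw [Ideal.zero_eq_bot, Ne, Ideal.span_singleton_eq_bot, Nat.cast_eq_zero]
          exact hna0
        rw [normalizedFactors_mul (pow_ne_zero _ ha0) e1, normalizedFactors_mul (pow_ne_zero _ hb0) e2,
          normalizedFactors_pow, normalizedFactors_pow, Multiset.count_add, Multiset.count_add,
          Multiset.count_nsmul, Multiset.count_nsmul, count_natCast hp hd' hP hpP hna0,
          count_natCast hp hd' hP hpP hnb0] at h2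
        rw [Nat.factorization_mul hna0 hnb0, Finsupp.add_apply]
        rw [Nat.even_iff]
        omega
      · rw [Nat.factorization_eq_zero_of_not_dvd hpn]
        exact Even.zero
    · rw [Nat.factorization_eq_zero_of_not_prime _ hp]
      exact Even.zero
  refine ⟨∏ p ∈ (na * nb).primeFactors, p ^ ((na * nb).factorization p / 2), ?_⟩
  rw [← prod_mul_distrib]
  conv_lhs => rw [← Nat.prod_factorization_pow_eq_self hn0]
  unfold Finsupp.prod
  rw [Nat.support_factorization]
  refine prod_congr rfl fun p _ => ?_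
  rw [← pow_add]
  congr 1
  have := heven p
  rw [Nat.even_iff] at this
  omega

end Pool.Agent.H4.Hk
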