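import Mathlib

/-! Even moments of sums `∑ b_v z_v^k` over the exponents `k`. -/

set_option autoImplicit false

namespace Pool.Agent.H4.Mom

open Finset ComplexConjugate

variable {ι : Type*}

/-- the tuples of length `r` -/
def tup [DecidableEq ι] (V : Finset ι) (r : ℕ) : Finset (Fin r → ι) :=
  Fintype.piFinset fun _ : Fin r => V

theorem mem_tup [DecidableEq ι] {V : Finset ι} {r : ℕ} {g : Fin r → ι} :
    g ∈ tup V r ↔ ∀ i, g i ∈ V := by
  unfold tup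
  rw [Fintype.mem_piFinset]

theorem card_tup [DecidableEq ι] (V : Finset ι) (r : ℕ) : (tup V r).card = V.card ^ r := by
  unfold tup
  rw [Fintype.card_piFinset]
  simp

theorem geom_eq (z : ℂ) (X : ℕ) : (∑ k ∈ Icc 1 X, z ^ k) * (1 - z) = z - z ^ (X + 1) := by
  induction X with
  | zero => simp
  | succ n ih =>
    rw [Finset.sum_Icc_succ_top (by omega), add_mul, ih]
    ring

theorem norm_geom_le {z : ℂ} (hz : ‖z‖ = 1) (h1 : z ≠ 1) (X : ℕ) :
    ‖∑ k ∈ Icc 1 X, z ^ k‖ ≤ 2 / ‖1 - z‖ := by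
  have h2 : 1 - z ≠ 0 := sub_ne_zero.2 (Ne.symm h1)
  have h3 : 0 < ‖1 - z‖ := norm_pos_iff.2 h2
  rw [le_div_iff₀ h3, ← norm_mul, geom_eq]
  refine (norm_sub_le _ _).trans ?_
  rw [norm_pow, hz, one_pow]
  norm_num

theorem norm_geom_le' {z : ℂ} (hz : ‖z‖ = 1) (X : ℕ) : ‖∑ k ∈ Icc 1 X, z ^ k‖ ≤ X := by
  refine (norm_sum_le _ _).trans ?_
  simp [hz]

/-- the product over a tuple -/
noncomputable def Z (z : ι → ℂ) {r : ℕ} (g : Fin r → ι) : ℂ := ∏ i, z (g i)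

theorem norm_Z [DecidableEq ι] {V : Finset ι} {z : ι → ℂ} (hz : ∀ v ∈ V, ‖z v‖ = 1) {r : ℕ}
    {g : Fin r → ι} (hg : g ∈ tup V r) : ‖Z z g‖ = 1 := by
  unfold Z
  rw [norm_prod]
  exact prod_eq_one fun i _ => hz _ (mem_tup.1 hg i)

theorem norm_Z_le [DecidableEq ι] {V : Finset ι} {z : ι → ℂ} (hz : ∀ v ∈ V, ‖z v‖ ≤ 1) {r : ℕ}
    {g : Fin r → ι} (hg : g ∈ tup V r) : ‖Z z g‖ ≤ 1 := by
  unfold Z
  rw [norm_prod]
  exact prod_le_one (fun i _ => norm_nonneg _) fun i _ => hz _ (mem_tup.1 hg i)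

/-- the sum -/
noncomputable def S (V : Finset ι) (b z : ι → ℂ) (k : ℕ) : ℂ := ∑ v ∈ V, b v * z v ^ k

theorem S_pow [DecidableEq ι] (V : Finset ι) (b z : ι → ℂ) (k r : ℕ) :
    S V b z k ^ r = ∑ p ∈ tup V r, Z b p * Z z p ^ k := by
  unfold S tup
  have h := Finset.prod_univ_sum (fun _ : Fin r => V) (fun _ v => b v * z v ^ k)
  rw [prod_const, card_univ, Fintype.card_fin] at h
  rw [h]
  refine sum_congr rfl fun p _ => ?_
  unfold Z
  rw [prod_mul_distrib, prod_pow]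

theorem S_pow_two [DecidableEq ι] (V : Finset ι) (b z : ι → ℂ) (k r : ℕ) :
    ((‖S V b z k‖ ^ (2 * r) : ℝ) : ℂ) = ∑ p ∈ tup V r, ∑ q ∈ tup V r,
      (Z b p * conj (Z b q)) * (Z z p * conj (Z z q)) ^ k := by
  have h1 : ((‖S V b z k‖ ^ (2 * r) : ℝ) : ℂ) = (S V b z k) ^ r * conj ((S V b z k) ^ r) := by
    rw [map_pow, ← mul_pow, Complex.mul_conj, Complex.normSq_eq_norm_sq, pow_mul]
    push_cast
    rfl
  rw [h1, S_pow, map_sum, sum_mul_sum]
  refine sum_congr rfl fun p _ => sum_congr rfl fun q _ => ?_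
  rw [map_mul, map_pow, mul_pow]
  ring

/-- the even moments -/
theorem moment [DecidableEq ι] (V : Finset ι) (b z : ι → ℂ) (hb : ∀ v ∈ V, ‖b v‖ ≤ 1) (X r : ℕ) :
    ∑ k ∈ Icc 1 X, ‖S V b z k‖ ^ (2 * r) ≤
      ∑ p ∈ tup V r, ∑ q ∈ tup V r, ‖∑ k ∈ Icc 1 X, (Z z p * conj (Z z q)) ^ k‖ := by
  have h1 : ((∑ k ∈ Icc 1 X, ‖S V b z k‖ ^ (2 * r) : ℝ) : ℂ) =
      ∑ p ∈ tup V r, ∑ q ∈ tup V r, (Z b p * conj (Z b q)) *
        ∑ k ∈ Icc 1 X, (Z z p * conj (Z z q)) ^ k := by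
    rw [Complex.ofReal_sum]
    simp_rw [S_pow_two, mul_sum]
    rw [sum_comm]
    refine sum_congr rfl fun p _ => ?_
    rw [sum_comm]
  have h2 : 0 ≤ ∑ k ∈ Icc 1 X, ‖S V b z k‖ ^ (2 * r) := sum_nonneg fun k _ => by positivity
  have h3 : ∑ k ∈ Icc 1 X, ‖S V b z k‖ ^ (2 * r) =
      ‖((∑ k ∈ Icc 1 X, ‖S V b z k‖ ^ (2 * r) : ℝ) : ℂ)‖ := by
    rw [Complex.norm_real, Real.norm_of_nonneg h2]
  rw [h3, h1]
  refine (norm_sum_le _ _).trans (sum_le_sum fun p hp => (norm_sum_le _ _).trans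
    (sum_le_sum fun q hq => ?_))
  rw [norm_mul, norm_mul, Complex.norm_conj]
  have a1 := norm_Z_le hb hp
  have a2 := norm_Z_le hb hq
  exact mul_le_of_le_one_left (norm_nonneg _) (mul_le_one₀ a1 (norm_nonneg _) a2)

/-- the close pairs -/
noncomputable def close [DecidableEq ι] (V : Finset ι) (z : ι → ℂ) (r : ℕ) (η : ℝ) :
    Finset ((Fin r → ι) × (Fin r → ι)) :=
  open Classical in (tup V r ×ˢ tup V r).filter fun t => ‖Z z t.1 - Z z t.2‖ < η

theorem norm_one_sub [DecidableEq ι] {V : Finset ι} {z : ι → ℂ} (hz : ∀ v ∈ V, ‖z v‖ = 1) {r : ℕ}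
    {p q : Fin r → ι} (hq : q ∈ tup V r) :
    ‖1 - Z z p * conj (Z z q)‖ = ‖Z z p - Z z q‖ := by
  have h1 := norm_Z hz hq
  have h2 : Z z q * conj (Z z q) = 1 := by
    rw [Complex.mul_conj, Complex.normSq_eq_norm_sq, h1]
    simp
  have h3 : 1 - Z z p * conj (Z z q) = (Z z q - Z z p) * conj (Z z q) := by
    rw [sub_mul, h2]
  rw [h3, norm_mul, Complex.norm_conj, h1, mul_one, norm_sub_rev]

theorem moment_le [DecidableEq ι] (V : Finset ι) (b z : ι → ℂ) (hb : ∀ v ∈ V, ‖b v‖ ≤ 1)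
    (hz : ∀ v ∈ V, ‖z v‖ = 1) (X r : ℕ) (η : ℝ) (hη : 0 < η) :
    ∑ k ∈ Icc 1 X, ‖S V b z k‖ ^ (2 * r) ≤
      X * (close V z r η).card + 2 / η * (V.card : ℝ) ^ (2 * r) := by
  classical
  refine (moment V b z hb X r).trans ?_
  rw [← sum_product']
  have h1 : ∀ t ∈ tup V r ×ˢ tup V r, ‖∑ k ∈ Icc 1 X, (Z z t.1 * conj (Z z t.2)) ^ k‖ ≤
      (if ‖Z z t.1 - Z z t.2‖ < η then (X : ℝ) else 0) + 2 / η := by
    intro t ht
    rw [mem_product] at ht
    have hn : ‖Z z t.1 * conj (Z z t.2)‖ = 1 := by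
      rw [norm_mul, Complex.norm_conj, norm_Z hz ht.1, norm_Z hz ht.2, mul_one]
    split_ifs with h
    · refine (norm_geom_le' hn X).trans ?_
      have : 0 < 2 / η := by positivity
      linarith
    · push Not at h
      have h2 : η ≤ ‖1 - Z z t.1 * conj (Z z t.2)‖ := by rw [norm_one_sub hz ht.2]; exact h
      have h3 : Z z t.1 * conj (Z z t.2) ≠ 1 := by
        intro h4
        rw [h4, sub_self, norm_zero] at h2
        linarith
      refine (norm_geom_le hn h3 X).trans ?_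
      rw [zero_add]
      exact div_le_div_of_nonneg_left (by norm_num) hη h2
  refine (sum_le_sum h1).trans ?_
  rw [sum_add_distrib, ← sum_filter, sum_const, sum_const, nsmul_eq_mul, nsmul_eq_mul,
    card_product, card_tup]
  unfold close
  apply le_of_eq
  congr 1
  · rw [mul_comm]
  · push_cast
    ring

/-- the number of exponents with a large sum -/
theorem bad_le [DecidableEq ι] (V : Finset ι) (b z : ι → ℂ) (hb : ∀ v ∈ V, ‖b v‖ ≤ 1)
    (hz : ∀ v ∈ V, ‖z v‖ = 1) (X r : ℕ) (η : ℝ) (hη : 0 < η) (T : ℝ) (hT : 0 ≤ T) :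
    (((Icc 1 X).filter fun k => T ≤ ‖S V b z k‖).card : ℝ) * T ^ (2 * r) ≤
      X * (close V z r η).card + 2 / η * (V.card : ℝ) ^ (2 * r) := by
  refine le_trans ?_ (moment_le V b z hb hz X r η hη)
  rw [← nsmul_eq_mul, ← sum_const]
  refine (sum_le_sum fun k hk => ?_).trans (sum_le_sum_of_subset_of_nonneg (filter_subset _ _)
    fun k _ _ => by positivity)
  exact pow_le_pow_left₀ hT (mem_filter.1 hk).2 _

end Pool.Agent.H4.Mom
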