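import Pool.Agent.H4.Un2

/-! Almost all exponents, very large `N`. -/

set_option autoImplicit false

namespace Pool.Agent.H4.Mom

open Finset Filter Topology ComplexConjugate

variable {ι : Type*} [DecidableEq ι] {V : ℕ → Finset ι} {z : ι → ℂ} {d B : ℕ} {C : ℝ}

theorem kernel {w : ℂ} (hw : ‖w‖ = 1) {X J : ℕ} (hXJ : X ≤ 2 ^ J) :
    ‖∑ k ∈ Icc 1 X, w ^ k‖ ≤
      2 + ∑ j ∈ range (J + 1), (if ‖1 - w‖ < 1 / 2 ^ j then (2 : ℝ) ^ (j + 2) else 0) := by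
  have hnn : ∀ j ∈ range (J + 1), (0 : ℝ) ≤ (if ‖1 - w‖ < 1 / 2 ^ j then (2 : ℝ) ^ (j + 2) else 0) := by
    intro j _
    split_ifs <;> positivity
  by_cases h : ‖1 - w‖ < 1 / 2 ^ J
  · have h1 : (if ‖1 - w‖ < 1 / 2 ^ J then (2 : ℝ) ^ (J + 2) else 0) ≤
        ∑ j ∈ range (J + 1), (if ‖1 - w‖ < 1 / 2 ^ j then (2 : ℝ) ^ (j + 2) else 0) :=
      single_le_sum hnn (mem_range.2 (Nat.lt_succ_self J))
    rw [if_pos h] at h1
    have h2 : (X : ℝ) ≤ 2 ^ J := by exact_mod_cast hXJ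
    have h3 : (2 : ℝ) ^ (J + 2) = 2 ^ J * 4 := by rw [pow_add]; norm_num
    have h4 := norm_geom_le' hw X
    have h5 : (0 : ℝ) ≤ 2 ^ J := by positivity
    linarith
  · push Not at h
    -- the least j
    have hex : ∃ j : ℕ, 1 / 2 ^ j ≤ ‖1 - w‖ := ⟨J, h⟩
    classical
    obtain ⟨j, hj, hmin⟩ : ∃ j : ℕ, 1 / 2 ^ j ≤ ‖1 - w‖ ∧ ∀ i < j, ‖1 - w‖ < 1 / 2 ^ i :=
      ⟨Nat.find hex, Nat.find_spec hex, fun i hi => not_le.1 (Nat.find_min hex hi)⟩
    have hjJ : j ≤ J := by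
      by_contra hcon
      push Not at hcon
      exact absurd (hmin J hcon) (not_lt.2 h)
    have hpos : 0 < ‖1 - w‖ := lt_of_lt_of_le (by positivity) hj
    have hw1 : w ≠ 1 := by
      rintro rfl
      rw [sub_self, norm_zero] at hpos
      exact lt_irrefl _ hpos
    have h1 := norm_geom_le hw hw1 X
    have h2 : 2 / ‖1 - w‖ ≤ 2 * 2 ^ j := by
      rw [div_le_iff₀ hpos]
      have h3 : (1 : ℝ) ≤ ‖1 - w‖ * 2 ^ j := by
        rwa [div_le_iff₀ (by positivity)] at hj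
      nlinarith
    rcases Nat.eq_zero_or_pos j with rfl | hj0
    · have h3 := sum_nonneg hnn
      rw [pow_zero, mul_one] at h2
      linarith
    · obtain ⟨i, rfl⟩ : ∃ i, j = i + 1 := ⟨j - 1, by omega⟩
      have h3 : (if ‖1 - w‖ < 1 / 2 ^ i then (2 : ℝ) ^ (i + 2) else 0) ≤
        ∑ j ∈ range (J + 1), (if ‖1 - w‖ < 1 / 2 ^ j then (2 : ℝ) ^ (j + 2) else 0) :=
        single_le_sum hnn (mem_range.2 (by omega))
      rw [if_pos (hmin i (Nat.lt_succ_self i))] at h3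
      have h4 : 2 * (2 : ℝ) ^ (i + 1) = 2 ^ (i + 2) := by rw [pow_succ, pow_succ, pow_succ]; ring
      linarith

theorem moment_dyadic (W : Finset ι) (b z : ι → ℂ) (hb : ∀ v ∈ W, ‖b v‖ ≤ 1)
    (hz : ∀ v ∈ W, ‖z v‖ = 1) {X J : ℕ} (hXJ : X ≤ 2 ^ J) :
    ∑ k ∈ Icc 1 X, ‖S W b z k‖ ^ 2 ≤
      2 * (W.card : ℝ) ^ 2 +
        ∑ j ∈ range (J + 1), (2 : ℝ) ^ (j + 2) * ((close W z 1 (1 / 2 ^ j)).card : ℝ) := by
  classical
  have h0 := moment W b z hb X 1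
  rw [mul_one] at h0
  refine h0.trans ?_
  rw [← sum_product']
  have h1 : ∀ t ∈ tup W 1 ×ˢ tup W 1, ‖∑ k ∈ Icc 1 X, (Z z t.1 * conj (Z z t.2)) ^ k‖ ≤
      2 + ∑ j ∈ range (J + 1),
        (if ‖Z z t.1 - Z z t.2‖ < 1 / 2 ^ j then (2 : ℝ) ^ (j + 2) else 0) := by
    intro t ht
    rw [mem_product] at ht
    have hn : ‖Z z t.1 * conj (Z z t.2)‖ = 1 := by
      rw [norm_mul, Complex.norm_conj, norm_Z hz ht.1, norm_Z hz ht.2, mul_one]
    have h2 := kernel hn hXJ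
    rw [norm_one_sub hz ht.2] at h2
    exact h2
  refine (sum_le_sum h1).trans ?_
  rw [sum_add_distrib, sum_const, card_product, card_tup, pow_one, nsmul_eq_mul, sum_comm]
  apply add_le_add
  · push_cast
    apply le_of_eq
    ring
  · refine sum_le_sum fun j _ => ?_
    rw [← sum_filter, sum_const, nsmul_eq_mul, mul_comm]
    unfold close
    exact le_rfl

/-- the exceptional set -/
def Ex1 (V : ℕ → Finset ι) (u : ℕ → ℝ) (b : ι → ℂ) (z : ι → ℂ) (A c η : ℝ) (K₀ : ℕ) : Set ℕ :=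
  {k : ℕ | K₀ ≤ k ∧ ∃ N : ℕ, (Real.log k) ^ A ≤ N ∧ Real.log N ≤ (k : ℝ) ^ c ∧
    η * u N < ‖S (V N) b z k‖}

/-- one length, large `N` -/
theorem Fam.bad3 (h : Fam V z d B C) {u : ℕ → ℝ} (hu2 : ∀ N, ((V N).card : ℝ) ≤ u N)
    {b : ι → ℂ} (hb : ∀ v, ‖b v‖ ≤ 1) {η : ℝ} (hη : 0 < η) {X n : ℕ} (hX : 3 ≤ X)
    (hXn : (X : ℝ) ^ 2 ≤ 2 * n) (hun : (n : ℝ) ≤ 2 * (u n * Real.log n)) (hu0 : 0 < u n) :
    (((Icc 1 X).filter fun k => η * u n ≤ ‖S (V n) b z k‖).card : ℝ) ≤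
      (2 + 400 * d * C * (Real.log X * Real.log n)) / η ^ 2 := by
  have hd1 := h.one_le_d
  have hC0 := h.hC
  have hXr : (3 : ℝ) ≤ X := by exact_mod_cast hX
  obtain ⟨J, hJ⟩ : ∃ J : ℕ, J = Nat.clog 2 X := ⟨_, rfl⟩
  have hXJ : X ≤ 2 ^ J := by rw [hJ]; exact Nat.le_pow_clog (by norm_num) _
  have hJX : (2 : ℝ) ^ J ≤ 2 * X := by
    have h1 : 2 ^ (J - 1) < X := by
      rw [hJ]
      exact Nat.pow_pred_clog_lt_self (by norm_num) (by omega)
    have hJ1 : 1 ≤ J := by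
      rw [hJ]
      exact Nat.clog_pos (by norm_num) (by omega)
    have h2 : 2 ^ J = 2 * 2 ^ (J - 1) := by
      rw [← pow_succ']
      congr 1
      omega
    have h3 : 2 ^ J ≤ 2 * X := by omega
    exact_mod_cast h3
  have hXe : Real.exp 1 ≤ X := by
    have := Real.exp_one_lt_d9
    linarith
  have hlogX : 1 ≤ Real.log X := (Real.le_log_iff_exp_le (by linarith)).2 hXe
  have hJlog : (J : ℝ) + 1 ≤ 5 * Real.log X := by
    have h1 : (J : ℝ) * Real.log 2 ≤ Real.log 2 + Real.log X := by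
      rw [← Real.log_mul (by norm_num) (by linarith), ← Real.log_pow]
      exact Real.log_le_log (by positivity) hJX
    have h2 := Real.log_two_gt_d9
    have h3 : (J : ℝ) * Real.log 2 - Real.log 2 ≤ Real.log X := by linarith
    have h4 : ((J : ℝ) - 1) * (1 / 2) ≤ Real.log X := by
      rcases le_total ((J : ℝ) - 1) 0 with h5 | h5
      · nlinarith
      · nlinarith
    nlinarith
  obtain ⟨s, hs⟩ : ∃ s : ℝ, s = Real.sqrt ((n : ℝ) ^ 1) := ⟨_, rfl⟩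
  have hss : s * s = n := by
    rw [hs, Real.mul_self_sqrt (by positivity), pow_one]
  have hs0 : 0 ≤ s := by rw [hs]; exact Real.sqrt_nonneg _
  have hsX : (X : ℝ) / 2 ≤ s := by
    have h1 : ((X : ℝ) / 2) ^ 2 ≤ s ^ 2 := by
      rw [sq s, hss]
      nlinarith
    exact le_of_sq_le_sq h1 hs0
  have hmom := moment_dyadic (V n) b z (fun v _ => hb v) (fun v _ => h.unit v) hXJ
  have hcl : ∀ j ∈ range (J + 1), (2 : ℝ) ^ (j + 2) * ((close (V n) z 1 (1 / 2 ^ j)).card : ℝ) ≤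
      40 * d * C * (u n * n) := by
    intro j hj
    rw [mem_range] at hj
    have h1 := h.large n 1 (1 / 2 ^ j) (by positivity)
    rw [← hs, pow_one, pow_one, Nat.factorial_one, Nat.cast_one, mul_one] at h1
    have h2j : (0 : ℝ) < 2 ^ j := by positivity
    have h2 : (2 : ℝ) ^ j ≤ 4 * s := by
      have : (2 : ℝ) ^ j ≤ 2 ^ J := pow_le_pow_right₀ (by norm_num) (by omega)
      linarith
    have h3 : s * (1 / 2 ^ j) + 1 ≤ 5 * (s * (1 / 2 ^ j)) := by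
      have : 1 ≤ 4 * (s * (1 / 2 ^ j)) := by
        rw [mul_one_div, ← mul_div_assoc, le_div_iff₀ h2j]
        linarith
      linarith
    have h4 : s + 1 ≤ 2 * s := by linarith
    have hcn : (0 : ℝ) ≤ ((V n).card : ℝ) := Nat.cast_nonneg _
    have h5 : ((close (V n) z 1 (1 / 2 ^ j)).card : ℝ) ≤
        u n * d * (C * ((2 * s) * (5 * (s * (1 / 2 ^ j))))) := by
      refine h1.trans ?_
      have h6 := hu2 n
      generalize ((V n).card : ℝ) = cV at *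
      gcongr
    have h7 : u n * d * (C * ((2 * s) * (5 * (s * (1 / 2 ^ j))))) =
        10 * d * C * (u n * (s * s)) / 2 ^ j := by ring
    rw [h7, hss] at h5
    have h8 : (2 : ℝ) ^ (j + 2) = 4 * 2 ^ j := by rw [pow_add]; ring
    rw [h8]
    calc 4 * 2 ^ j * ((close (V n) z 1 (1 / 2 ^ j)).card : ℝ)
        ≤ 4 * 2 ^ j * (10 * d * C * (u n * n) / 2 ^ j) := by
          apply mul_le_mul_of_nonneg_left h5 (by positivity)
      _ = _ := by field_simp; ring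
  have hsum := (sum_le_card_nsmul _ _ _ hcl)
  rw [card_range, nsmul_eq_mul] at hsum
  push_cast at hsum
  have hn2 : ((V n).card : ℝ) ^ 2 ≤ (u n) ^ 2 := by
    have := hu2 n
    have h0 : (0 : ℝ) ≤ ((V n).card : ℝ) := Nat.cast_nonneg _
    nlinarith
  have hbad : (((Icc 1 X).filter fun k => η * u n ≤ ‖S (V n) b z k‖).card : ℝ) * (η * u n) ^ 2 ≤
      ∑ k ∈ Icc 1 X, ‖S (V n) b z k‖ ^ 2 := by
    rw [← nsmul_eq_mul, ← sum_const]
    refine (sum_le_sum fun k hk => ?_).trans (sum_le_sum_of_subset_of_nonneg (filter_subset _ _)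
      fun k _ _ => by positivity)
    exact pow_le_pow_left₀ (by positivity) (mem_filter.1 hk).2 _
  generalize (((Icc 1 X).filter fun k => η * u n ≤ ‖S (V n) b z k‖).card : ℝ) = q at *
  rw [le_div_iff₀ (by positivity)]
  have h1 : q * η ^ 2 * (u n) ^ 2 ≤ (2 + 400 * d * C * (Real.log X * Real.log n)) * (u n) ^ 2 := by
    calc q * η ^ 2 * (u n) ^ 2 = q * (η * u n) ^ 2 := by ring
      _ ≤ 2 * (u n) ^ 2 + (J + 1) * (40 * d * C * (u n * n)) := by linarith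
      _ ≤ 2 * (u n) ^ 2 + (5 * Real.log X) * (40 * d * C * (u n * (2 * (u n * Real.log n)))) := by
          gcongr
      _ = _ := by ring
  exact le_of_mul_le_mul_right h1 (by positivity)

/-- consequences of the prime number theorem -/
theorem pnt_facts {u : ℕ → ℝ} (hu : Tendsto (fun N : ℕ => u N * Real.log N / N) atTop (𝓝 1)) :
    ∃ N₁ : ℕ, 3 ≤ N₁ ∧ ∀ N, N₁ ≤ N → 0 < u N ∧ (N : ℝ) ≤ 2 * (u N * Real.log N) := by
  have h3 : ∀ᶠ N : ℕ in atTop, (1 / 2 : ℝ) ≤ u N * Real.log N / N :=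
    hu.eventually_const_le (by norm_num)
  obtain ⟨M, hM⟩ := eventually_atTop.1 h3
  refine ⟨max 3 M, le_max_left _ _, fun N hN => ?_⟩
  have hN3 : (3 : ℝ) ≤ N := by exact_mod_cast (le_max_left _ _).trans hN
  have h4 := hM N ((le_max_right _ _).trans hN)
  rw [le_div_iff₀ (by linarith)] at h4
  have hl : 0 < Real.log N := Real.log_pos (by linarith)
  refine ⟨?_, by linarith⟩
  by_contra h
  push Not at h
  have : u N * Real.log N ≤ 0 := mul_nonpos_of_nonpos_of_nonneg h hl.le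
  linarith

theorem pnt_short {u : ℕ → ℝ} (hu : Tendsto (fun N : ℕ => u N * Real.log N / N) atTop (𝓝 1))
    {η : ℝ} (hη : 0 < η) (hη1 : η ≤ 1) : ∃ Q : ℕ, 4 ≤ Q ∧ ∃ N₂ : ℕ, 3 ≤ N₂ ∧ ∀ N n : ℕ, N₂ ≤ N → n ≤ N →
      (N : ℝ) - n ≤ N / Q + 1 → u N - u n ≤ η / 2 * u N := by
  obtain ⟨Q, hQ⟩ := exists_nat_ge (max 4 (8 / η))
  have hQ4 : (4 : ℝ) ≤ Q := (le_max_left _ _).trans hQ
  have hQη : 8 / η ≤ Q := (le_max_right _ _).trans hQ
  have hQη' : 8 ≤ Q * η := by rwa [div_le_iff₀ hη] at hQη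
  have hε : (0 : ℝ) < η / 8 := by positivity
  have h1 : ∀ᶠ N : ℕ in atTop, 1 - η / 8 ≤ u N * Real.log N / N :=
    hu.eventually_const_le (by linarith)
  have h2 : ∀ᶠ N : ℕ in atTop, u N * Real.log N / N ≤ 1 + η / 8 :=
    hu.eventually_le_const (by linarith)
  obtain ⟨M, hM⟩ := eventually_atTop.1 (h1.and h2)
  refine ⟨Q, by exact_mod_cast hQ4, max (max 8 (2 * M)) Q, ?_, fun N n hN hn hNn => ?_⟩
  · exact le_trans (by norm_num) ((le_max_left 8 (2 * M)).trans (le_max_left _ _))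
  have hN8 : 8 ≤ N := ((le_max_left 8 (2 * M)).trans (le_max_left _ _)).trans hN
  have hNM : 2 * M ≤ N := ((le_max_right 8 (2 * M)).trans (le_max_left _ _)).trans hN
  have hNQ : Q ≤ N := (le_max_right _ _).trans hN
  have hNr : (8 : ℝ) ≤ N := by exact_mod_cast hN8
  have hNQr : (Q : ℝ) ≤ N := by exact_mod_cast hNQ
  have hQ0 : (0 : ℝ) < Q := by linarith
  have hN0 : (0 : ℝ) < N := by linarith
  have hone : (1 : ℝ) ≤ N / Q := by rwa [le_div_iff₀ hQ0, one_mul]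
  have hn1 : (N : ℝ) * (1 - 2 / Q) ≤ n := by
    have : (N : ℝ) * (1 - 2 / Q) = N - 2 * (N / Q) := by ring
    linarith
  have h2Q : 2 / (Q : ℝ) ≤ η / 4 := by
    rw [div_le_iff₀ hQ0]
    linarith
  have h2Q' : 2 / (Q : ℝ) ≤ 1 / 2 := by linarith
  have hn2 : (N : ℝ) / 2 ≤ n := by nlinarith
  have hnM : M ≤ n := by
    have : (2 : ℝ) * M ≤ N := by exact_mod_cast hNM
    have : (M : ℝ) ≤ n := by linarith
    exact_mod_cast this
  have hn0 : (0 : ℝ) < n := by linarith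
  have hlN : 0 < Real.log N := Real.log_pos (by linarith)
  have hln : 0 < Real.log n := Real.log_pos (by linarith)
  have hnN : (n : ℝ) ≤ N := by exact_mod_cast hn
  have hll : Real.log n ≤ Real.log N := Real.log_le_log hn0 hnN
  have a1 := (hM n hnM).1
  have a2 := (hM N (by omega)).2
  rw [le_div_iff₀ hn0] at a1
  rw [div_le_iff₀ hN0] at a2
  have hun0 : 0 ≤ u n := by
    by_contra hcon
    push Not at hcon
    have h1 : u n * Real.log n < 0 := mul_neg_of_neg_of_pos hcon hln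
    have h2 : 0 < (1 - η / 8) * n := mul_pos (by linarith) hn0
    linarith
  have a3 : (1 - η / 8) * n ≤ u n * Real.log N := a1.trans (by gcongr)
  -- multiply by log N
  have a4 : (1 - η / 2) * (u N * Real.log N) ≤ u n * Real.log N := by
    have b1 : (1 - η / 2) * (u N * Real.log N) ≤ (1 - η / 2) * ((1 + η / 8) * N) := by
      apply mul_le_mul_of_nonneg_left a2 (by linarith)
    have b2 : (1 - η / 8) * ((N : ℝ) * (1 - 2 / Q)) ≤ (1 - η / 8) * n := by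
      apply mul_le_mul_of_nonneg_left hn1 (by linarith)
    have b3 : (1 - η / 2) * (1 + η / 8) ≤ (1 - η / 8) * (1 - 2 / Q) := by
      have : (1 - η / 8) * (1 - η / 4) ≤ (1 - η / 8) * (1 - 2 / (Q : ℝ)) := by
        apply mul_le_mul_of_nonneg_left _ (by linarith)
        linarith
      nlinarith
    have b4 : (1 - η / 2) * (1 + η / 8) * N ≤ (1 - η / 8) * (1 - 2 / Q) * N :=
      mul_le_mul_of_nonneg_right b3 hN0.le
    calc _ ≤ _ := b1
      _ = (1 - η / 2) * (1 + η / 8) * N := by ring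
      _ ≤ _ := b4
      _ = (1 - η / 8) * ((N : ℝ) * (1 - 2 / Q)) := by ring
      _ ≤ _ := b2
      _ ≤ _ := a3
  have a5 : (1 - η / 2) * u N * Real.log N ≤ u n * Real.log N := by linarith
  have a6 := le_of_mul_le_mul_right a5 hlN
  linarith

theorem Fam.un1 (h : Fam V z d B C) {u : ℕ → ℝ}
    (hu : Tendsto (fun N : ℕ => u N * Real.log N / N) atTop (𝓝 1))
    (hu2 : ∀ N, ((V N).card : ℝ) ≤ u N)
    (hu3 : ∀ n N, n ≤ N → ((V N \ V n).card : ℝ) ≤ u N - u n)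
    {A c η : ℝ} (hA : 1 < A) (hc0 : 0 < c) (hc : c < 1 / 2) (hη : 0 < η) (hη1 : η ≤ 1) :
    ∃ δ : ℝ, 0 < δ ∧ δ < 1 ∧ ∃ C' : ℝ, 0 < C' ∧ ∃ K₀ : ℕ, 1 ≤ K₀ ∧
      ∀ b : ι → ℂ, (∀ v, ‖b v‖ ≤ 1) → ∀ X : ℕ,
        (({k : ℕ | k ∈ Ex1 V u b z A c η K₀ ∧ k ≤ X}.ncard : ℕ) : ℝ) ≤
          C' * (X : ℝ) ^ (1 - δ) := by
  classical
  have hd1 := h.one_le_d
  have hC0 := h.hC
  have hA0 : 0 < A := by linarith
  obtain ⟨θ, hθ0, hθ1, δ₂, hδ₂, hδ₂1, C₂, hC₂, K₂, hK₂, h2⟩ := h.un2 hA (show (0 : ℝ) < 4 by norm_num)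
  obtain ⟨N₁, hN₁3, hN₁⟩ := pnt_facts hu
  obtain ⟨Q, hQ4, N₂, hN₂3, hshort⟩ := pnt_short hu hη hη1
  have hQr : (4 : ℝ) ≤ Q := by exact_mod_cast hQ4
  -- N^(1-θ) ≤ η u
  have f1 : ∀ᶠ N : ℕ in atTop, Real.log N ≤ η / 2 * (N : ℝ) ^ θ := by
    have h1 : ∀ᶠ x : ℝ in atTop, ‖Real.log x‖ ≤ η / 2 * ‖x ^ θ‖ :=
      (isLittleO_log_rpow_atTop hθ0).bound (by positivity)
    have h2 := (tendsto_natCast_atTop_atTop (R := ℝ)).eventually h1
    filter_upwards [h2] with X hX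
    rw [Real.norm_of_nonneg (by positivity : (0 : ℝ) ≤ (X : ℝ) ^ θ)] at hX
    exact (le_abs_self _).trans hX
  obtain ⟨N₃, hN₃⟩ := eventually_atTop.1 f1
  have hsmall : ∀ N : ℕ, max N₁ N₃ ≤ N → (N : ℝ) ^ (1 - θ) ≤ η * u N := by
    intro N hN
    obtain ⟨g1, g2⟩ := hN₁ N ((le_max_left _ _).trans hN)
    have g3 := hN₃ N ((le_max_right _ _).trans hN)
    have hN3 : (3 : ℝ) ≤ N := by exact_mod_cast hN₁3.trans ((le_max_left _ _).trans hN)
    have hN0 : (0 : ℝ) < N := by linarith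
    rw [Real.rpow_sub hN0, Real.rpow_one, div_le_iff₀ (Real.rpow_pos_of_pos hN0 _)]
    have hl : 0 < Real.log N := Real.log_pos (by linarith)
    calc (N : ℝ) ≤ 2 * (u N * Real.log N) := g2
      _ ≤ 2 * (u N * (η / 2 * (N : ℝ) ^ θ)) := by gcongr
      _ = _ := by ring
  -- K₀
  have e1 : ∀ᶠ k : ℕ in atTop, ((max (max N₁ N₃) (2 * max N₁ N₂) : ℕ) : ℝ) ≤ (Real.log k) ^ A :=
    (tendsto_logpow hA0).eventually_ge_atTop _
  obtain ⟨K₁, hK₁⟩ := eventually_atTop.1 e1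
  obtain ⟨K₀, hK₀⟩ : ∃ K₀ : ℕ, K₀ = max (max 1 K₁) K₂ := ⟨_, rfl⟩
  have hK₀1 : 1 ≤ K₀ := by rw [hK₀]; exact (le_max_left _ _).trans (le_max_left _ _)
  have hK₀K₁ : K₁ ≤ K₀ := by rw [hK₀]; exact (le_max_right _ _).trans (le_max_left _ _)
  have hK₀K₂ : K₂ ≤ K₀ := by rw [hK₀]; exact le_max_right _ _
  -- δ
  obtain ⟨δ₃, hδ₃⟩ : ∃ δ₃ : ℝ, δ₃ = (1 - 2 * c) / 2 := ⟨_, rfl⟩
  have hδ₃0 : 0 < δ₃ := by rw [hδ₃]; linarith
  obtain ⟨δ, hδ⟩ : ∃ δ : ℝ, δ = min (min δ₂ δ₃) (1 / 2) := ⟨_, rfl⟩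
  have hδ0 : 0 < δ := by rw [hδ]; exact lt_min (lt_min hδ₂ hδ₃0) (by norm_num)
  have hδa : δ ≤ δ₂ := by rw [hδ]; exact (min_le_left _ _).trans (min_le_left _ _)
  have hδb : δ ≤ δ₃ := by rw [hδ]; exact (min_le_left _ _).trans (min_le_right _ _)
  have hδc : δ ≤ 1 / 2 := by rw [hδ]; exact min_le_right _ _
  -- X₁
  have c1 : ∀ᶠ X : ℕ in atTop, max 1 (Real.log X) ≤ (X : ℝ) ^ δ₃ := by
    have h1 : ∀ᶠ x : ℝ in atTop, ‖Real.log x‖ ≤ 1 * ‖x ^ δ₃‖ :=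
      (isLittleO_log_rpow_atTop hδ₃0).bound one_pos
    have h2 := (tendsto_natCast_atTop_atTop (R := ℝ)).eventually h1
    filter_upwards [h2, eventually_ge_atTop 1] with X hX hX1
    rw [Real.norm_of_nonneg (by positivity : (0 : ℝ) ≤ (X : ℝ) ^ δ₃), one_mul] at hX
    exact max_le (Real.one_le_rpow (by exact_mod_cast hX1) hδ₃0.le) ((le_abs_self _).trans hX)
  obtain ⟨X₁, hX₁⟩ := eventually_atTop.1 c1
  obtain ⟨X₂, hX₂⟩ : ∃ X₂ : ℕ, X₂ = max X₁ 16 := ⟨_, rfl⟩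
  have hX21 : X₁ ≤ X₂ := by rw [hX₂]; exact le_max_left _ _
  have hX216 : 16 ≤ X₂ := by rw [hX₂]; exact le_max_right _ _
  obtain ⟨D, hD⟩ : ∃ D : ℝ, D = 2 * Q * ((2 + 400 * d * C) / (η / 2) ^ 2) := ⟨_, rfl⟩
  have hD0 : 0 < D := by rw [hD]; positivity
  refine ⟨δ, hδ0, by linarith, 1 + C₂ + D + X₂, by positivity, K₀, hK₀1, fun b hb X => ?_⟩
  have hsubX : {k : ℕ | k ∈ Ex1 V u b z A c η K₀ ∧ k ≤ X} ⊆ ((Icc 1 X : Finset ℕ) : Set ℕ) := by
    intro k hk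
    rw [mem_coe, mem_Icc]
    exact ⟨hK₀1.trans hk.1.1, hk.2⟩
  rcases lt_or_ge X X₂ with hXs | hXl
  · have h1 : {k : ℕ | k ∈ Ex1 V u b z A c η K₀ ∧ k ≤ X}.ncard ≤ X := by
      have := Set.ncard_le_ncard hsubX (finite_toSet _)
      rw [Set.ncard_coe_finset, Nat.card_Icc] at this
      omega
    have h2 : (({k : ℕ | k ∈ Ex1 V u b z A c η K₀ ∧ k ≤ X}.ncard : ℕ) : ℝ) ≤ X := by
      exact_mod_cast h1
    rcases Nat.eq_zero_or_pos X with rfl | hX1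
    · refine h2.trans ?_
      push_cast
      positivity
    · have hX1r : (1 : ℝ) ≤ X := by exact_mod_cast hX1
      have h3 : (1 : ℝ) ≤ (X : ℝ) ^ (1 - δ) := Real.one_le_rpow hX1r (by linarith)
      have h4 : (X : ℝ) ≤ X₂ := by exact_mod_cast hXs.le
      have h5 : (0 : ℝ) ≤ (X₂ : ℝ) := Nat.cast_nonneg _
      calc _ ≤ (X : ℝ) := h2
        _ ≤ X₂ := h4
        _ ≤ X₂ * (X : ℝ) ^ (1 - δ) := le_mul_of_one_le_right h5 h3
        _ ≤ (1 + C₂ + D + X₂) * (X : ℝ) ^ (1 - δ) := by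
            apply mul_le_mul_of_nonneg_right _ (by positivity)
            linarith
  · have g1 := hX₁ X (hX21.trans hXl)
    have hX16 : 16 ≤ X := hX216.trans hXl
    have hXr : (16 : ℝ) ≤ X := by exact_mod_cast hX16
    have hX0 : (0 : ℝ) < X := by linarith
    have hX1r : (1 : ℝ) ≤ X := by linarith
    have hL0 : 0 < Real.log X := Real.log_pos (by linarith)
    have hL1 : 1 ≤ Real.log X := by
      rw [Real.le_log_iff_exp_le hX0]
      have := Real.exp_one_lt_d9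
      linarith
    obtain ⟨I, hI⟩ : ∃ I : ℕ, I = ⌊(Q : ℝ) * (X : ℝ) ^ c⌋₊ := ⟨_, rfl⟩
    set nd : ℕ → ℕ := fun i => ⌊Real.exp ((i : ℝ) / Q)⌋₊ with hnd
    set G : Finset ℕ := (range (I + 1)).filter fun i =>
      (X : ℝ) ^ 2 ≤ 2 * (nd i : ℝ) ∧ N₁ ≤ nd i ∧ Real.log (nd i) ≤ (X : ℝ) ^ c with hG
    set bad : ℕ → Finset ℕ := fun i =>
      (Icc 1 X).filter fun k => η / 2 * u (nd i) ≤ ‖S (V (nd i)) b z k‖ with hbad
    have hsub : {k : ℕ | k ∈ Ex1 V u b z A c η K₀ ∧ k ≤ X} ⊆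
        ((Icc 1 (Nat.sqrt X) : Finset ℕ) : Set ℕ) ∪
          {k : ℕ | k ∈ Ex V (fun _ => b) z A 4 θ K₂ ∧ k ≤ X} ∪
        ((G.biUnion fun i => bad i : Finset ℕ) : Set ℕ) := by
      rintro k ⟨⟨hk1, N, hN1, hN2, hlt⟩, hkX⟩
      have hk11 : 1 ≤ k := hK₀1.trans hk1
      have hkr : (1 : ℝ) ≤ k := by exact_mod_cast hk11
      have hk0 : (0 : ℝ) < k := by linarith
      have hkXr : (k : ℝ) ≤ X := by exact_mod_cast hkX
      have hNbig := (hK₁ k (hK₀K₁.trans hk1)).trans hN1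
      have hNbig' : max (max N₁ N₃) (2 * max N₁ N₂) ≤ N := by exact_mod_cast hNbig
      have hNa : max N₁ N₃ ≤ N := (le_max_left _ _).trans hNbig'
      have hNb : 2 * max N₁ N₂ ≤ N := (le_max_right _ _).trans hNbig'
      rcases le_total (N : ℝ) ((k : ℝ) ^ (4 : ℝ)) with hc4 | hc4
      · left; right
        refine ⟨⟨hK₀K₂.trans hk1, N, hN1, hc4, 0, ?_, (hsmall N hNa).trans_lt hlt⟩, hkX⟩
        push_cast
        positivity
      by_cases hks : k ≤ Nat.sqrt X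
      · left; left
        rw [mem_coe, mem_Icc]
        exact ⟨hk11, hks⟩
      right
      push Not at hks
      have hk2 : (X : ℝ) ≤ (k : ℝ) ^ 2 := by
        have : X < (Nat.sqrt X + 1) ^ 2 := Nat.lt_succ_sqrt' X
        have h2 : (Nat.sqrt X + 1) ^ 2 ≤ k ^ 2 := Nat.pow_le_pow_left hks 2
        exact_mod_cast (this.trans_le h2).le
      have hX2N : (X : ℝ) ^ 2 ≤ N := by
        refine le_trans ?_ hc4
        have : (k : ℝ) ^ (4 : ℝ) = (k : ℝ) ^ 4 := by exact_mod_cast Real.rpow_natCast (k : ℝ) 4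
        rw [this]
        calc (X : ℝ) ^ 2 ≤ ((k : ℝ) ^ 2) ^ 2 := by gcongr
          _ = (k : ℝ) ^ 4 := by ring
      have hN8 : (256 : ℝ) ≤ N := by
        calc (256 : ℝ) = 16 ^ 2 := by norm_num
          _ ≤ (X : ℝ) ^ 2 := by gcongr
          _ ≤ N := hX2N
      have hN0 : (0 : ℝ) < N := by linarith
      have hNn : 1 ≤ N := by
        have : (1 : ℝ) ≤ N := by linarith
        exact_mod_cast this
      have hQn : 1 ≤ Q := by omega
      obtain ⟨hgr1, hgr2⟩ := grid hQn hNn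
      obtain ⟨i, hi⟩ : ∃ i : ℕ, i = ⌊(Q : ℝ) * Real.log N⌋₊ := ⟨_, rfl⟩
      rw [← hi] at hgr1 hgr2
      have hndi : nd i = ⌊Real.exp ((i : ℝ) / Q)⌋₊ := rfl
      rw [← hndi] at hgr1 hgr2
      have hkc : (k : ℝ) ^ c ≤ (X : ℝ) ^ c := Real.rpow_le_rpow hk0.le hkXr hc0.le
      have hiI : i ≤ I := by
        rw [hi, hI]
        apply Nat.floor_le_floor
        have := hN2.trans hkc
        gcongr
      have hndN : (nd i : ℝ) ≤ N := by exact_mod_cast hgr1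
      have hNQ4 : (N : ℝ) / Q ≤ N / 4 := div_le_div_of_nonneg_left hN0.le (by norm_num) hQr
      have hnd2 : (N : ℝ) / 2 ≤ nd i := by linarith
      have hndN1 : N₁ ≤ nd i := by
        have h5 : ((2 * max N₁ N₂ : ℕ) : ℝ) ≤ N := by exact_mod_cast hNb
        push_cast at h5
        have h6 : (N₁ : ℝ) ≤ max (N₁ : ℝ) N₂ := le_max_left _ _
        have : (N₁ : ℝ) ≤ nd i := by linarith
        exact_mod_cast this
      rw [mem_coe, mem_biUnion]
      refine ⟨i, ?_, ?_⟩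
      · rw [hG, mem_filter, mem_range]
        refine ⟨by omega, by linarith, hndN1, ?_⟩
        have hnd0 : (0 : ℝ) < nd i := by linarith
        exact (Real.log_le_log hnd0 hndN).trans (hN2.trans hkc)
      rw [hbad]
      simp only
      rw [mem_filter, mem_Icc]
      refine ⟨⟨hk11, hkX⟩, ?_⟩
      have hsh := hshort N (nd i) (by omega) hgr1 hgr2
      have ht : ‖S (V N) b z k‖ ≤ ‖S (V (nd i)) b z k‖ + (u N - u (nd i)) := by
        have h1 : S (V N) b z k = S (V (nd i)) b z k + ∑ v ∈ V N \ V (nd i), b v * z v ^ k := by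
          unfold S
          rw [add_comm, sum_sdiff (h.mono _ N hgr1)]
        rw [h1]
        refine (norm_add_le _ _).trans (add_le_add le_rfl ?_)
        refine le_trans ?_ (hu3 (nd i) N hgr1)
        refine (norm_sum_le _ _).trans ?_
        have : ∀ v ∈ V N \ V (nd i), ‖b v * z v ^ k‖ ≤ 1 := by
          intro v _
          rw [norm_mul, norm_pow, h.unit v, one_pow, mul_one]
          exact hb v
        refine (sum_le_card_nsmul _ _ _ this).trans ?_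
        simp
      have hmono : u (nd i) ≤ u N := by
        have h6 := hu3 (nd i) N hgr1
        have h7 : (0 : ℝ) ≤ ((V N \ V (nd i)).card : ℝ) := Nat.cast_nonneg _
        linarith
      nlinarith
    have hfin1 : ({k : ℕ | k ∈ Ex V (fun _ => b) z A 4 θ K₂ ∧ k ≤ X}).Finite :=
      (Set.finite_Icc 0 X).subset fun k hk => ⟨Nat.zero_le _, hk.2⟩
    have h1 := Set.ncard_le_ncard hsub (((finite_toSet _).union hfin1).union (finite_toSet _))
    have h2' := Set.ncard_union_le (((Icc 1 (Nat.sqrt X) : Finset ℕ) : Set ℕ) ∪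
          {k : ℕ | k ∈ Ex V (fun _ => b) z A 4 θ K₂ ∧ k ≤ X})
          ((G.biUnion fun i => bad i : Finset ℕ) : Set ℕ)
    have h3' := Set.ncard_union_le ((Icc 1 (Nat.sqrt X) : Finset ℕ) : Set ℕ)
          {k : ℕ | k ∈ Ex V (fun _ => b) z A 4 θ K₂ ∧ k ≤ X}
    rw [Set.ncard_coe_finset] at h2' h3'
    rw [Nat.card_Icc, Nat.add_sub_cancel] at h3'
    have h4 : {k : ℕ | k ∈ Ex1 V u b z A c η K₀ ∧ k ≤ X}.ncard ≤
        Nat.sqrt X + {k : ℕ | k ∈ Ex V (fun _ => b) z A 4 θ K₂ ∧ k ≤ X}.ncard +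
          (G.biUnion fun i => bad i).card := by omega
    have h5 : (({k : ℕ | k ∈ Ex1 V u b z A c η K₀ ∧ k ≤ X}.ncard : ℕ) : ℝ) ≤
        Nat.sqrt X + (({k : ℕ | k ∈ Ex V (fun _ => b) z A 4 θ K₂ ∧ k ≤ X}.ncard : ℕ) : ℝ) +
          ((G.biUnion fun i => bad i).card : ℝ) := by exact_mod_cast h4
    have hXδ : ∀ x : ℝ, x ≤ 1 - δ → (X : ℝ) ^ x ≤ (X : ℝ) ^ (1 - δ) := fun x hx =>
      Real.rpow_le_rpow_of_exponent_le hX1r hx
    have b1 : (Nat.sqrt X : ℝ) ≤ (X : ℝ) ^ (1 - δ) := by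
      calc (Nat.sqrt X : ℝ) ≤ Real.sqrt X := Real.nat_sqrt_le_real_sqrt
        _ = (X : ℝ) ^ (1 / 2 : ℝ) := Real.sqrt_eq_rpow _
        _ ≤ _ := hXδ _ (by linarith)
    have b2 : (({k : ℕ | k ∈ Ex V (fun _ => b) z A 4 θ K₂ ∧ k ≤ X}.ncard : ℕ) : ℝ) ≤
        C₂ * (X : ℝ) ^ (1 - δ) := by
      refine (h2 (fun _ => b) (fun _ => hb) X).trans ?_
      exact mul_le_mul_of_nonneg_left (hXδ _ (by linarith)) hC₂.le
    have b3 : ((G.biUnion fun i => bad i).card : ℝ) ≤ D * (X : ℝ) ^ (1 - δ) := by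
      have f1 : ((G.biUnion fun i => bad i).card : ℝ) ≤ ∑ i ∈ G, ((bad i).card : ℝ) := by
        exact_mod_cast card_biUnion_le
      have hXc1 : 1 ≤ (X : ℝ) ^ c := Real.one_le_rpow hX1r hc0.le
      have f2 : ∀ i ∈ G, ((bad i).card : ℝ) ≤
          (2 + 400 * d * C) / (η / 2) ^ 2 * (Real.log X * (X : ℝ) ^ c) := by
        intro i hi
        rw [hG, mem_filter] at hi
        obtain ⟨_, i1, i2, i3⟩ := hi
        obtain ⟨j1, j2⟩ := hN₁ _ i2
        refine (h.bad3 hu2 hb (show 0 < η / 2 by positivity) (by omega) i1 j2 j1).trans ?_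
        rw [div_mul_eq_mul_div]
        apply div_le_div_of_nonneg_right _ (by positivity)
        have k1 : Real.log X * Real.log (nd i) ≤ Real.log X * (X : ℝ) ^ c := by gcongr
        have k2 : 1 ≤ Real.log X * (X : ℝ) ^ c := by nlinarith
        have k3 : 0 ≤ 400 * d * C := by positivity
        nlinarith
      have f4 : (G.card : ℝ) ≤ 2 * Q * (X : ℝ) ^ c := by
        have g2 : G.card ≤ I + 1 := by
          have := card_filter_le (range (I + 1)) fun i =>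
            (X : ℝ) ^ 2 ≤ 2 * (nd i : ℝ) ∧ N₁ ≤ nd i ∧ Real.log (nd i) ≤ (X : ℝ) ^ c
          rwa [card_range] at this
        have g3 : (G.card : ℝ) ≤ I + 1 := by exact_mod_cast g2
        have g4 : (I : ℝ) ≤ Q * (X : ℝ) ^ c := by rw [hI]; exact Nat.floor_le (by positivity)
        nlinarith
      refine f1.trans ((sum_le_card_nsmul _ _ _ f2).trans ?_)
      rw [nsmul_eq_mul]
      have g5 : Real.log X ≤ (X : ℝ) ^ δ₃ := (le_max_right _ _).trans g1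
      calc (G.card : ℝ) * ((2 + 400 * d * C) / (η / 2) ^ 2 * (Real.log X * (X : ℝ) ^ c))
          ≤ (2 * Q * (X : ℝ) ^ c) * ((2 + 400 * d * C) / (η / 2) ^ 2 *
              ((X : ℝ) ^ δ₃ * (X : ℝ) ^ c)) := by
            apply mul_le_mul f4 _ (by positivity) (by positivity)
            gcongr
        _ = D * ((X : ℝ) ^ c * (X : ℝ) ^ δ₃ * (X : ℝ) ^ c) := by rw [hD]; ring
        _ = D * (X : ℝ) ^ (c + δ₃ + c) := by rw [← Real.rpow_add hX0, ← Real.rpow_add hX0]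
        _ ≤ D * (X : ℝ) ^ (1 - δ) := by
            apply mul_le_mul_of_nonneg_left _ hD0.le
            apply hXδ
            rw [hδ₃] at hδb ⊢
            linarith
    have h6 : (0 : ℝ) ≤ X₂ * (X : ℝ) ^ (1 - δ) := by positivity
    calc _ ≤ _ := h5
      _ ≤ (X : ℝ) ^ (1 - δ) + C₂ * (X : ℝ) ^ (1 - δ) + D * (X : ℝ) ^ (1 - δ) :=
        add_le_add (add_le_add b1 b2) b3
      _ ≤ _ := by linarith

end Pool.Agent.H4.Mom
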