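import Pool.Agent.H4.Pr
import Pool.Agent.H4.Un1

/-! The family of values of a Hecke character at the primes of a number field. -/

set_option autoImplicit false

namespace Pool.Agent.H4.Hk

open Finset NumberField ComplexConjugate IsDedekindDomain Filter Topology
open Pool.Agent.W540.BE (nm upto mem_upto fiber_finite fiber_card two_le_nm)
open Pool.Agent.H821.ST (uK uK_tendsto)
open Pool.Agent.H4.Mom
open Pool.Agent.H4 (IsHecke)

section

variable {K : Type} [Field K] [NumberField K]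

theorem gd_mono (D : ℕ) {n N : ℕ} (h : n ≤ N) : gd K D n ⊆ gd K D N := by
  intro v hv
  rw [mem_gd] at hv ⊢
  exact ⟨hv.1.trans h, hv.2⟩

theorem gd_zero (D : ℕ) : gd K D 0 = ∅ := by
  rw [eq_empty_iff_forall_notMem]
  intro v hv
  rw [mem_gd] at hv
  have := hv.2.1.pos
  omega

open Classical in
theorem gd_incr (D n N : ℕ) : (gd K D N \ gd K D n).card ≤ Module.finrank ℚ K * (N - n) := by
  have h1 : (gd K D N \ gd K D n).card =
      ∑ m ∈ Ioc n N, ((gd K D N \ gd K D n).filter fun v => nm K v = m).card := by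
    apply card_eq_sum_card_fiberwise
    intro v hv
    rw [mem_coe, Finset.mem_sdiff, mem_gd, mem_gd] at hv
    rw [mem_coe, mem_Ioc]
    refine ⟨?_, hv.1.1⟩
    by_contra hcon
    exact hv.2 ⟨not_lt.1 hcon, hv.1.2⟩
  rw [h1]
  refine (sum_le_card_nsmul _ _ _ fun m _ => card_nm_le _ m).trans ?_
  rw [Nat.card_Ioc, smul_eq_mul, mul_comm]

open Classical in
theorem gd_upto (D : ℕ) {n N : ℕ} (h : n ≤ N) :
    ((gd K D N \ gd K D n).card : ℝ) ≤ uK K N - uK K n := by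
  have hsub : upto K n ⊆ upto K N := by
    intro v hv
    rw [mem_upto] at hv ⊢
    exact hv.trans h
  have h1 : gd K D N \ gd K D n ⊆ upto K N \ upto K n := by
    intro v hv
    rw [Finset.mem_sdiff, mem_gd, mem_gd] at hv
    rw [Finset.mem_sdiff, mem_upto, mem_upto]
    refine ⟨hv.1.1, fun h2 => hv.2 ⟨h2, hv.1.2⟩⟩
  have h2 := card_le_card h1
  have h3 := card_sdiff_add_card_eq_card hsub
  unfold uK
  have h4 : ((upto K N \ upto K n).card : ℝ) + ((upto K n).card : ℝ) = ((upto K N).card : ℝ) := by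
    exact_mod_cast h3
  have h5 : ((gd K D N \ gd K D n).card : ℝ) ≤ ((upto K N \ upto K n).card : ℝ) := by
    exact_mod_cast h2
  linarith

theorem gd_card_le (D N : ℕ) : ((gd K D N).card : ℝ) ≤ uK K N := by
  classical
  unfold uK
  have : gd K D N ⊆ upto K N := by
    intro v hv
    rw [mem_gd] at hv
    rw [mem_upto]
    exact hv.1
  exact_mod_cast card_le_card this

end

section

variable {F K : Type} [Field F] [NumberField F] [Field K] [NumberField K] [Algebra F K]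
variable {𝔪 : Ideal (𝓞 F)} {σ : F →+* ℂ} {m : ℕ} {ψ : Ideal (𝓞 F) → Circle}

open Classical in
theorem fam (hF : Module.finrank ℚ F = 2) (hσ : ¬ ComplexEmbedding.IsReal σ)
    (h : IsHecke F 𝔪 σ m ψ) (hm : 0 < m) (h𝔪 : 𝔪 ≠ ⊥) :
    ∃ (B : ℕ) (C : ℝ), Fam (gd K (D0 𝔪)) (zz K ψ) (Module.finrank ℚ K) B C := by
  obtain ⟨B, hB, hs⟩ := close_small (K := K) hF hσ h hm h𝔪
  obtain ⟨C, hC, hl⟩ := close_large (K := K) hF hσ h hm h𝔪
  exact ⟨B, C, Module.finrank_pos, hB, hC, norm_zz, gd_zero _, fun _ _ => gd_mono _,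
    fun n N _ => gd_incr _ n N, hs, hl⟩

end

end Pool.Agent.H4.Hk

namespace Pool.Agent.H4.Mom

open Finset Filter Topology ComplexConjugate

variable {ι : Type*} [DecidableEq ι] {V : ℕ → Finset ι} {z : ι → ℂ} {d B : ℕ} {C : ℝ}

/-- the exponents `k` such that a multiple of `k` by a small number is exceptional -/
def ExL (V : ℕ → Finset ι) (b : ℕ → ι → ℂ) (z : ι → ℂ) (A β θ θ' : ℝ) (K₀ K₁ : ℕ) : Set ℕ :=
  {k : ℕ | 1 ≤ k ∧ (k < K₁ ∨ ∃ l : ℕ, 1 ≤ l ∧ (l : ℝ) ≤ (k : ℝ) ^ (β * θ') ∧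
    l * k ∈ Ex V b z A β θ K₀)}

/-- power saving, simultaneously for the powers -/
theorem Fam.un2l (h : Fam V z d B C) {A β : ℝ} (hA : 1 < A) (hβ : 0 < β) :
    ∃ θ : ℝ, 0 < θ ∧ θ < 1 ∧ ∃ δ : ℝ, 0 < δ ∧ δ < 1 ∧ ∃ C' : ℝ, 0 < C' ∧
      ∀ b : ℕ → ι → ℂ, (∀ j v, ‖b j v‖ ≤ 1) → ∃ E : Set ℕ,
        (∀ X : ℕ, 1 ≤ X → (({k : ℕ | k ∈ E ∧ 1 ≤ k ∧ k ≤ X}.ncard : ℕ) : ℝ) ≤
          C' * (X : ℝ) ^ (1 - δ)) ∧
        ∀ k : ℕ, 1 ≤ k → k ∉ E → ∀ N : ℕ, (Real.log k) ^ A ≤ N → (N : ℝ) ≤ (k : ℝ) ^ β →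
          ∀ j l : ℕ, 1 ≤ l → (j : ℝ) ≤ (N : ℝ) ^ θ → (l : ℝ) ≤ (N : ℝ) ^ θ →
            ‖S (V N) (b j) z (l * k)‖ ≤ (N : ℝ) ^ (1 - θ) := by
  classical
  have hA0 : 0 < A := by linarith
  obtain ⟨A', hA'⟩ : ∃ A' : ℝ, A' = (1 + A) / 2 := ⟨_, rfl⟩
  have hA'1 : 1 < A' := by rw [hA']; linarith
  have hA'A : A' < A := by rw [hA']; linarith
  have hA'0 : 0 < A' := by linarith
  obtain ⟨θ, hθ0, hθ1, δ, hδ0, hδ1, C', hC', K₀, hK₀, h2⟩ := h.un2 hA'1 hβ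
  obtain ⟨θ', hθ'⟩ : ∃ θ' : ℝ, θ' = min θ (min 1 (δ / 4) / (β + 1)) := ⟨_, rfl⟩
  have hθ'0 : 0 < θ' := by
    rw [hθ']
    exact lt_min hθ0 (div_pos (lt_min one_pos (by positivity)) (by positivity))
  have hθ'θ : θ' ≤ θ := by rw [hθ']; exact min_le_left _ _
  have hβθ : β * θ' ≤ min 1 (δ / 4) := by
    have h3 : θ' ≤ min 1 (δ / 4) / (β + 1) := by rw [hθ']; exact min_le_right _ _
    rw [le_div_iff₀ (by positivity)] at h3
    nlinarith
  have hβθ1 : β * θ' ≤ 1 := hβθ.trans (min_le_left _ _)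
  have hβθδ : β * θ' ≤ δ / 4 := hβθ.trans (min_le_right _ _)
  have hβθ0 : 0 < β * θ' := by positivity
  -- K₁
  have e1 : ∀ᶠ k : ℕ in atTop, (2 : ℝ) ^ A' ≤ (Real.log k) ^ (A - A') :=
    (tendsto_logpow (by linarith)).eventually_ge_atTop _
  have e2 : ∀ᶠ k : ℕ in atTop, (1 : ℝ) ≤ Real.log k :=
    (Real.tendsto_log_atTop.comp tendsto_natCast_atTop_atTop).eventually_ge_atTop _
  obtain ⟨K', hK'⟩ := eventually_atTop.1 (e1.and e2)
  obtain ⟨K₁, hK₁⟩ : ∃ K₁ : ℕ, K₁ = max K' K₀ := ⟨_, rfl⟩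
  refine ⟨θ', hθ'0, by linarith, δ / 2, by positivity, by linarith, K₁ + 2 * C', by positivity,
    fun b hb => ⟨ExL V b z A' β θ θ' K₀ K₁, fun X hX => ?_, fun k hk1 hk N hN1 hN2 j l hl hj hlN => ?_⟩⟩
  · -- the count
    have hXr : (1 : ℝ) ≤ X := by exact_mod_cast hX
    have hX0 : (0 : ℝ) < X := by linarith
    obtain ⟨L, hL⟩ : ∃ L : ℕ, L = ⌊(X : ℝ) ^ (β * θ')⌋₊ := ⟨_, rfl⟩
    have hLX : (L : ℝ) ≤ (X : ℝ) ^ (β * θ') := by rw [hL]; exact Nat.floor_le (by positivity)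
    have hsub : {k : ℕ | k ∈ ExL V b z A' β θ θ' K₀ K₁ ∧ 1 ≤ k ∧ k ≤ X} ⊆
        ((range K₁ : Finset ℕ) : Set ℕ) ∪
        ⋃ l ∈ Icc 1 L, {k : ℕ | 1 ≤ k ∧ l * k ∈ Ex V b z A' β θ K₀ ∧ l * k ≤ l * X} := by
      rintro k ⟨⟨_, h3⟩, h4, h5⟩
      rcases h3 with h3 | ⟨l, h6, h7, h8⟩
      · left
        rw [mem_coe, mem_range]
        exact h3
      · right
        rw [Set.mem_iUnion₂]
        refine ⟨l, ?_, h4, h8, Nat.mul_le_mul_left _ h5⟩
        rw [mem_Icc]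
        refine ⟨h6, ?_⟩
        rw [hL]
        apply Nat.le_floor
        refine h7.trans (Real.rpow_le_rpow (Nat.cast_nonneg _) (by exact_mod_cast h5) hβθ0.le)
    have hfin : ∀ l ∈ Icc 1 L, {k : ℕ | 1 ≤ k ∧ l * k ∈ Ex V b z A' β θ K₀ ∧ l * k ≤ l * X}.Finite := by
      intro l hl
      rw [mem_Icc] at hl
      apply (Set.finite_Icc 0 X).subset
      rintro k ⟨_, _, h5⟩
      exact ⟨Nat.zero_le _, Nat.le_of_mul_le_mul_left h5 hl.1⟩
    have hU : (⋃ l ∈ Icc 1 L, {k : ℕ | 1 ≤ k ∧ l * k ∈ Ex V b z A' β θ K₀ ∧ l * k ≤ l * X}).Finite :=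
      Set.Finite.biUnion (Finset.finite_toSet _) hfin
    have h1 := (Set.ncard_le_ncard hsub ((finite_toSet _).union hU)).trans (Set.ncard_union_le _ _)
    have h3 : (⋃ l ∈ Icc 1 L, {k : ℕ | 1 ≤ k ∧ l * k ∈ Ex V b z A' β θ K₀ ∧ l * k ≤ l * X}).ncard ≤
        ∑ l ∈ Icc 1 L, {k : ℕ | 1 ≤ k ∧ l * k ∈ Ex V b z A' β θ K₀ ∧ l * k ≤ l * X}.ncard := by
      have key : ∀ (s : Finset ℕ) (f : ℕ → Set ℕ), (⋃ l ∈ s, f l).ncard ≤ ∑ l ∈ s, (f l).ncard := by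
        intro s f
        induction s using Finset.induction_on with
        | empty => simp
        | insert a s ha ih =>
          rw [Finset.set_biUnion_insert, Finset.sum_insert ha]
          exact (Set.ncard_union_le _ _).trans (Nat.add_le_add_left ih _)
      exact key _ _
    rw [Set.ncard_coe_finset, card_range] at h1
    have h4 : (({k : ℕ | k ∈ ExL V b z A' β θ θ' K₀ K₁ ∧ 1 ≤ k ∧ k ≤ X}.ncard : ℕ) : ℝ) ≤ K₁ +
        ∑ l ∈ Icc 1 L, (({k : ℕ | 1 ≤ k ∧ l * k ∈ Ex V b z A' β θ K₀ ∧ l * k ≤ l * X}.ncard : ℕ) : ℝ) := by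
      exact_mod_cast h1.trans (Nat.add_le_add_left h3 _)
    have h5 : ∀ l ∈ Icc 1 L,
        (({k : ℕ | 1 ≤ k ∧ l * k ∈ Ex V b z A' β θ K₀ ∧ l * k ≤ l * X}.ncard : ℕ) : ℝ) ≤
          C' * (X : ℝ) ^ ((1 + β * θ') * (1 - δ)) := by
      intro l hl
      rw [mem_Icc] at hl
      have hlpos : 0 < l := hl.1
      have g1 : {k : ℕ | 1 ≤ k ∧ l * k ∈ Ex V b z A' β θ K₀ ∧ l * k ≤ l * X}.ncard ≤
          {k : ℕ | k ∈ Ex V b z A' β θ K₀ ∧ k ≤ l * X}.ncard := by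
        refine Set.ncard_le_ncard_of_injOn (fun k => l * k) ?_ ?_ ?_
        · rintro k ⟨_, h6, h7⟩
          exact ⟨h6, h7⟩
        · intro a _ a' _ haa
          exact Nat.eq_of_mul_eq_mul_left hlpos haa
        · exact (Set.finite_Icc 0 (l * X)).subset fun k hk => ⟨Nat.zero_le _, hk.2⟩
      have g2 : (({k : ℕ | 1 ≤ k ∧ l * k ∈ Ex V b z A' β θ K₀ ∧ l * k ≤ l * X}.ncard : ℕ) : ℝ) ≤
          (({k : ℕ | k ∈ Ex V b z A' β θ K₀ ∧ k ≤ l * X}.ncard : ℕ) : ℝ) := by exact_mod_cast g1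
      refine g2.trans ((h2 b hb (l * X)).trans ?_)
      apply mul_le_mul_of_nonneg_left _ hC'.le
      push_cast
      have g3 : (l : ℝ) * X ≤ (X : ℝ) ^ (1 + β * θ') := by
        rw [Real.rpow_add hX0, Real.rpow_one, mul_comm]
        have : (l : ℝ) ≤ L := by exact_mod_cast hl.2
        gcongr
        exact this.trans hLX
      calc ((l : ℝ) * X) ^ (1 - δ) ≤ ((X : ℝ) ^ (1 + β * θ')) ^ (1 - δ) :=
            Real.rpow_le_rpow (by positivity) g3 (by linarith)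
        _ = _ := by rw [← Real.rpow_mul hX0.le]
    have h6 := sum_le_card_nsmul _ _ _ h5
    rw [Nat.card_Icc, Nat.add_sub_cancel, nsmul_eq_mul] at h6
    have h7 : (L : ℝ) * (C' * (X : ℝ) ^ ((1 + β * θ') * (1 - δ))) ≤ C' * (X : ℝ) ^ (1 - δ / 2) := by
      calc (L : ℝ) * (C' * (X : ℝ) ^ ((1 + β * θ') * (1 - δ)))
          ≤ (X : ℝ) ^ (β * θ') * (C' * (X : ℝ) ^ ((1 + β * θ') * (1 - δ))) := by gcongr
        _ = C' * ((X : ℝ) ^ (β * θ') * (X : ℝ) ^ ((1 + β * θ') * (1 - δ))) := by ring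
        _ = C' * (X : ℝ) ^ (β * θ' + (1 + β * θ') * (1 - δ)) := by rw [← Real.rpow_add hX0]
        _ ≤ C' * (X : ℝ) ^ (1 - δ / 2) := by
            apply mul_le_mul_of_nonneg_left _ hC'.le
            apply Real.rpow_le_rpow_of_exponent_le hXr
            nlinarith
    have h8 : (1 : ℝ) ≤ (X : ℝ) ^ (1 - δ / 2) := Real.one_le_rpow hXr (by linarith)
    have h9 : (K₁ : ℝ) ≤ K₁ * (X : ℝ) ^ (1 - δ / 2) := le_mul_of_one_le_right (Nat.cast_nonneg _) h8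
    have h10 : 0 ≤ C' * (X : ℝ) ^ (1 - δ / 2) := by positivity
    calc _ ≤ _ := h4
      _ ≤ K₁ * (X : ℝ) ^ (1 - δ / 2) + C' * (X : ℝ) ^ (1 - δ / 2) := add_le_add h9 (h6.trans h7)
      _ ≤ _ := by linarith
  · -- outside of the exceptional set
    have hkr : (1 : ℝ) ≤ k := by exact_mod_cast hk1
    have hk0 : (0 : ℝ) < k := by linarith
    have hK : K₁ ≤ k := by
      by_contra hcon
      exact hk ⟨hk1, Or.inl (not_le.1 hcon)⟩
    obtain ⟨g1, g2⟩ := hK' k ((by rw [hK₁]; exact le_max_left _ _ : K' ≤ K₁).trans hK)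
    have hL0 : 0 < Real.log k := by linarith
    have hNX : (0 : ℝ) ≤ N := Nat.cast_nonneg _
    have hNr : (1 : ℝ) ≤ N := by
      have : (1 : ℝ) ≤ (Real.log k) ^ A := Real.one_le_rpow g2 hA0.le
      linarith
    have hlk : (l : ℝ) ≤ (k : ℝ) ^ (β * θ') := by
      refine hlN.trans ?_
      rw [Real.rpow_mul hk0.le]
      exact Real.rpow_le_rpow hNX hN2 hθ'0.le
    have hnot : l * k ∉ Ex V b z A' β θ K₀ := fun h3 => hk ⟨hk1, Or.inr ⟨l, hl, hlk, h3⟩⟩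
    by_contra hcon
    push Not at hcon
    apply hnot
    have hlr : (1 : ℝ) ≤ l := by exact_mod_cast hl
    refine ⟨?_, N, ?_, ?_, j, ?_, ?_⟩
    · have h3 : K₀ ≤ k := (by rw [hK₁]; exact le_max_right _ _ : K₀ ≤ K₁).trans hK
      exact h3.trans (Nat.le_mul_of_pos_left k hl)
    · have h3 : Real.log ((l * k : ℕ) : ℝ) ≤ 2 * Real.log k := by
        push_cast
        have h4 : (l : ℝ) * k ≤ (k : ℝ) ^ 2 := by
          have : (l : ℝ) ≤ k := by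
            calc (l : ℝ) ≤ (k : ℝ) ^ (β * θ') := hlk
              _ ≤ (k : ℝ) ^ (1 : ℝ) := Real.rpow_le_rpow_of_exponent_le hkr hβθ1
              _ = k := Real.rpow_one _
          nlinarith
        have h5 := Real.log_le_log (by positivity) h4
        rw [Real.log_pow] at h5
        push_cast at h5
        exact h5
      have h4 : 0 ≤ Real.log ((l * k : ℕ) : ℝ) := by
        apply Real.log_nonneg
        push_cast
        nlinarith
      calc (Real.log ((l * k : ℕ) : ℝ)) ^ A' ≤ (2 * Real.log k) ^ A' :=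
            Real.rpow_le_rpow h4 h3 hA'0.le
        _ = 2 ^ A' * (Real.log k) ^ A' := Real.mul_rpow (by norm_num) hL0.le
        _ ≤ (Real.log k) ^ (A - A') * (Real.log k) ^ A' := by gcongr
        _ = (Real.log k) ^ A := by rw [← Real.rpow_add hL0]; congr 1; ring
        _ ≤ N := hN1
    · refine hN2.trans (Real.rpow_le_rpow hk0.le ?_ hβ.le)
      push_cast
      nlinarith
    · exact hj.trans (Real.rpow_le_rpow_of_exponent_le hNr hθ'θ)
    · refine lt_of_le_of_lt ?_ hcon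
      exact Real.rpow_le_rpow_of_exponent_le hNr (by linarith)

/-- all lengths, simultaneously for finitely many powers -/
theorem Fam.un1l (h : Fam V z d B C) {u : ℕ → ℝ}
    (hu : Tendsto (fun N : ℕ => u N * Real.log N / N) atTop (𝓝 1))
    (hu2 : ∀ N, ((V N).card : ℝ) ≤ u N)
    (hu3 : ∀ n N, n ≤ N → ((V N \ V n).card : ℝ) ≤ u N - u n)
    {A c η : ℝ} (hA : 1 < A) (hc0 : 0 < c) (hc : c < 1 / 2) (hη : 0 < η) (hη1 : η ≤ 1) (L : ℕ) :
    ∃ δ : ℝ, 0 < δ ∧ δ < 1 ∧ ∃ C' : ℝ, 0 < C' ∧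
      ∀ b : ι → ℂ, (∀ v, ‖b v‖ ≤ 1) → ∃ E : Set ℕ,
        (∀ X : ℕ, 1 ≤ X → (({k : ℕ | k ∈ E ∧ 1 ≤ k ∧ k ≤ X}.ncard : ℕ) : ℝ) ≤
          C' * (X : ℝ) ^ (1 - δ)) ∧
        ∀ k : ℕ, 1 ≤ k → k ∉ E → ∀ N : ℕ, (Real.log k) ^ A ≤ N → Real.log N ≤ (k : ℝ) ^ c →
          ∀ l : ℕ, 1 ≤ l → l ≤ L → ‖S (V N) b z (l * k)‖ ≤ η * u N := by
  classical
  have hA0 : 0 < A := by linarith
  obtain ⟨A', hA'⟩ : ∃ A' : ℝ, A' = (1 + A) / 2 := ⟨_, rfl⟩
  have hA'1 : 1 < A' := by rw [hA']; linarith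
  have hA'A : A' < A := by rw [hA']; linarith
  have hA'0 : 0 < A' := by linarith
  obtain ⟨δ, hδ0, hδ1, C', hC', K₀, hK₀, h2⟩ := h.un1 hu hu2 hu3 hA'1 hc0 hc hη hη1
  have e1 : ∀ᶠ k : ℕ in atTop, (2 : ℝ) ^ A' ≤ (Real.log k) ^ (A - A') :=
    (tendsto_logpow (by linarith)).eventually_ge_atTop _
  have e2 : ∀ᶠ k : ℕ in atTop, (1 : ℝ) ≤ Real.log k :=
    (Real.tendsto_log_atTop.comp tendsto_natCast_atTop_atTop).eventually_ge_atTop _
  obtain ⟨K', hK'⟩ := eventually_atTop.1 (e1.and e2)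
  obtain ⟨K₁, hK₁⟩ : ∃ K₁ : ℕ, K₁ = max (max K' K₀) L := ⟨_, rfl⟩
  have hK₁a : K' ≤ K₁ := by rw [hK₁]; exact (le_max_left _ _).trans (le_max_left _ _)
  have hK₁b : K₀ ≤ K₁ := by rw [hK₁]; exact (le_max_right _ _).trans (le_max_left _ _)
  have hK₁c : L ≤ K₁ := by rw [hK₁]; exact le_max_right _ _
  refine ⟨δ, hδ0, hδ1, K₁ + L * (C' * (L : ℝ) ^ (1 - δ)) + 1, by positivity, fun b hb =>
    ⟨{k : ℕ | k < K₁ ∨ ∃ l ∈ Icc 1 L, l * k ∈ Ex1 V u b z A' c η K₀}, fun X hX => ?_,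
      fun k hk1 hk N hN1 hN2 l hl hlL => ?_⟩⟩
  · have hXr : (1 : ℝ) ≤ X := by exact_mod_cast hX
    have hX0 : (0 : ℝ) < X := by linarith
    have hsub : {k : ℕ | k ∈ {k : ℕ | k < K₁ ∨ ∃ l ∈ Icc 1 L, l * k ∈ Ex1 V u b z A' c η K₀} ∧
        1 ≤ k ∧ k ≤ X} ⊆ ((range K₁ : Finset ℕ) : Set ℕ) ∪
        ⋃ l ∈ Icc 1 L, {k : ℕ | 1 ≤ k ∧ l * k ∈ Ex1 V u b z A' c η K₀ ∧ l * k ≤ l * X} := by
      rintro k ⟨h3, h4, h5⟩
      rcases h3 with h3 | ⟨l, h6, h8⟩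
      · left
        rw [mem_coe, mem_range]
        exact h3
      · right
        rw [Set.mem_iUnion₂]
        exact ⟨l, h6, h4, h8, Nat.mul_le_mul_left _ h5⟩
    have hfin : ∀ l ∈ Icc 1 L,
        {k : ℕ | 1 ≤ k ∧ l * k ∈ Ex1 V u b z A' c η K₀ ∧ l * k ≤ l * X}.Finite := by
      intro l hl
      rw [mem_Icc] at hl
      apply (Set.finite_Icc 0 X).subset
      rintro k ⟨_, _, h5⟩
      exact ⟨Nat.zero_le _, Nat.le_of_mul_le_mul_left h5 hl.1⟩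
    have hU : (⋃ l ∈ Icc 1 L,
        {k : ℕ | 1 ≤ k ∧ l * k ∈ Ex1 V u b z A' c η K₀ ∧ l * k ≤ l * X}).Finite :=
      Set.Finite.biUnion (Finset.finite_toSet _) hfin
    have h1 := (Set.ncard_le_ncard hsub ((finite_toSet _).union hU)).trans (Set.ncard_union_le _ _)
    have h3 : (⋃ l ∈ Icc 1 L,
        {k : ℕ | 1 ≤ k ∧ l * k ∈ Ex1 V u b z A' c η K₀ ∧ l * k ≤ l * X}).ncard ≤
        ∑ l ∈ Icc 1 L, {k : ℕ | 1 ≤ k ∧ l * k ∈ Ex1 V u b z A' c η K₀ ∧ l * k ≤ l * X}.ncard := by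
      have key : ∀ (s : Finset ℕ) (f : ℕ → Set ℕ), (⋃ l ∈ s, f l).ncard ≤ ∑ l ∈ s, (f l).ncard := by
        intro s f
        induction s using Finset.induction_on with
        | empty => simp
        | insert a s ha ih =>
          rw [Finset.set_biUnion_insert, Finset.sum_insert ha]
          exact (Set.ncard_union_le _ _).trans (Nat.add_le_add_left ih _)
      exact key _ _
    rw [Set.ncard_coe_finset, card_range] at h1
    have h4 : (({k : ℕ | k ∈ {k : ℕ | k < K₁ ∨ ∃ l ∈ Icc 1 L, l * k ∈ Ex1 V u b z A' c η K₀} ∧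
        1 ≤ k ∧ k ≤ X}.ncard : ℕ) : ℝ) ≤ K₁ + ∑ l ∈ Icc 1 L,
          (({k : ℕ | 1 ≤ k ∧ l * k ∈ Ex1 V u b z A' c η K₀ ∧ l * k ≤ l * X}.ncard : ℕ) : ℝ) := by
      exact_mod_cast h1.trans (Nat.add_le_add_left h3 _)
    have h5 : ∀ l ∈ Icc 1 L,
        (({k : ℕ | 1 ≤ k ∧ l * k ∈ Ex1 V u b z A' c η K₀ ∧ l * k ≤ l * X}.ncard : ℕ) : ℝ) ≤
          C' * (L : ℝ) ^ (1 - δ) * (X : ℝ) ^ (1 - δ) := by
      intro l hl
      rw [mem_Icc] at hl
      have hlpos : 0 < l := hl.1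
      have g1 : {k : ℕ | 1 ≤ k ∧ l * k ∈ Ex1 V u b z A' c η K₀ ∧ l * k ≤ l * X}.ncard ≤
          {k : ℕ | k ∈ Ex1 V u b z A' c η K₀ ∧ k ≤ l * X}.ncard := by
        refine Set.ncard_le_ncard_of_injOn (fun k => l * k) ?_ ?_ ?_
        · rintro k ⟨_, h6, h7⟩
          exact ⟨h6, h7⟩
        · intro a _ a' _ haa
          exact Nat.eq_of_mul_eq_mul_left hlpos haa
        · exact (Set.finite_Icc 0 (l * X)).subset fun k hk => ⟨Nat.zero_le _, hk.2⟩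
      have g2 : (({k : ℕ | 1 ≤ k ∧ l * k ∈ Ex1 V u b z A' c η K₀ ∧ l * k ≤ l * X}.ncard : ℕ) : ℝ) ≤
          (({k : ℕ | k ∈ Ex1 V u b z A' c η K₀ ∧ k ≤ l * X}.ncard : ℕ) : ℝ) := by exact_mod_cast g1
      refine g2.trans ((h2 b hb (l * X)).trans ?_)
      rw [mul_assoc]
      apply mul_le_mul_of_nonneg_left _ hC'.le
      push_cast
      rw [← Real.mul_rpow (Nat.cast_nonneg _) (Nat.cast_nonneg _)]
      have : (l : ℝ) ≤ L := by exact_mod_cast hl.2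
      apply Real.rpow_le_rpow (by positivity) _ (by linarith)
      gcongr
    have h6 := sum_le_card_nsmul _ _ _ h5
    rw [Nat.card_Icc, Nat.add_sub_cancel, nsmul_eq_mul] at h6
    have h8 : (1 : ℝ) ≤ (X : ℝ) ^ (1 - δ) := Real.one_le_rpow hXr (by linarith)
    have h9 : (K₁ : ℝ) ≤ K₁ * (X : ℝ) ^ (1 - δ) := le_mul_of_one_le_right (Nat.cast_nonneg _) h8
    calc _ ≤ _ := h4
      _ ≤ K₁ * (X : ℝ) ^ (1 - δ) + L * (C' * (L : ℝ) ^ (1 - δ) * (X : ℝ) ^ (1 - δ)) :=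
        add_le_add h9 h6
      _ ≤ _ := by nlinarith
  · have hkr : (1 : ℝ) ≤ k := by exact_mod_cast hk1
    have hk0 : (0 : ℝ) < k := by linarith
    have hK : K₁ ≤ k := by
      by_contra hcon
      exact hk (Or.inl (not_le.1 hcon))
    obtain ⟨g1, g2⟩ := hK' k (hK₁a.trans hK)
    have hL0 : 0 < Real.log k := by linarith
    by_contra hcon
    push Not at hcon
    apply hk
    right
    refine ⟨l, mem_Icc.2 ⟨hl, hlL⟩, ?_, N, ?_, ?_, hcon⟩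
    · exact (hK₁b.trans hK).trans (Nat.le_mul_of_pos_left k hl)
    · have hlr : (1 : ℝ) ≤ l := by exact_mod_cast hl
      have h3 : Real.log ((l * k : ℕ) : ℝ) ≤ 2 * Real.log k := by
        push_cast
        have h4 : (l : ℝ) * k ≤ (k : ℝ) ^ 2 := by
          have : (l : ℝ) ≤ k := by exact_mod_cast (hlL.trans hK₁c).trans hK
          nlinarith
        have h5 := Real.log_le_log (by positivity) h4
        rw [Real.log_pow] at h5
        push_cast at h5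
        exact h5
      have h4 : 0 ≤ Real.log ((l * k : ℕ) : ℝ) := by
        apply Real.log_nonneg
        push_cast
        nlinarith
      calc (Real.log ((l * k : ℕ) : ℝ)) ^ A' ≤ (2 * Real.log k) ^ A' :=
            Real.rpow_le_rpow h4 h3 hA'0.le
        _ = 2 ^ A' * (Real.log k) ^ A' := Real.mul_rpow (by norm_num) hL0.le
        _ ≤ (Real.log k) ^ (A - A') * (Real.log k) ^ A' := by gcongr
        _ = (Real.log k) ^ A := by rw [← Real.rpow_add hL0]; congr 1; ring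
        _ ≤ N := hN1
    · refine hN2.trans (Real.rpow_le_rpow hk0.le ?_ hc0.le)
      push_cast
      have hlr : (1 : ℝ) ≤ l := by exact_mod_cast hl
      nlinarith

end Pool.Agent.H4.Mom
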