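import Pool.Agent.H4.Mom

/-! Counting tuples of primes. -/

set_option autoImplicit false

namespace Pool.Agent.H4.Mom

open Finset

theorem isSquare_of_mul_self {p m : ℕ} (hp : 0 < p) (h : IsSquare (p * (p * m))) : IsSquare m := by
  obtain ⟨c, hc⟩ := h
  have h1 : p ∣ c := by
    have : p ^ 2 ∣ c ^ 2 := ⟨m, by rw [sq, sq, ← hc]; ring⟩
    exact (Nat.pow_dvd_pow_iff two_ne_zero).1 this
  obtain ⟨e, rfl⟩ := h1
  refine ⟨e, ?_⟩
  have : p * p * m = p * p * (e * e) := by
    calc p * p * m = p * (p * m) := by ring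
      _ = p * e * (p * e) := hc
      _ = p * p * (e * e) := by ring
  exact Nat.eq_of_mul_eq_mul_left (Nat.mul_pos hp hp) this

theorem dvd_of_isSquare_mul {p m : ℕ} (hp : p.Prime) (h : IsSquare (p * m)) : p ∣ m := by
  obtain ⟨c, hc⟩ := h
  have h1 : p ∣ c := by
    have h2 : p ∣ c * c := ⟨m, hc.symm⟩
    rcases (Nat.Prime.dvd_mul hp).1 h2 with h | h <;> exact h
  obtain ⟨e, rfl⟩ := h1
  refine ⟨e * e, ?_⟩
  have : p * m = p * (p * (e * e)) := by
    calc p * m = p * e * (p * e) := hc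
      _ = p * (p * (e * e)) := by ring
  exact Nat.eq_of_mul_eq_mul_left hp.pos this

variable {ι : Type*} [DecidableEq ι]

/-- tuples with product of the norms a square -/
noncomputable def sqV (V : Finset ι) (nm : ι → ℕ) (n : ℕ) : Finset (Fin n → ι) :=
  open Classical in (tup V n).filter fun g => IsSquare (∏ i, nm (g i))

theorem mem_sqV {V : Finset ι} {nm : ι → ℕ} {n : ℕ} {g : Fin n → ι} :
    g ∈ sqV V nm n ↔ (∀ i, g i ∈ V) ∧ IsSquare (∏ i, nm (g i)) := by
  classical
  unfold sqV
  rw [mem_filter, mem_tup]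

omit [DecidableEq ι] in
theorem card_pairs (V : Finset ι) {κ : Type*} [DecidableEq κ] (nm : ι → κ) (d : ℕ)
    (hd : ∀ v ∈ V, (V.filter fun w => nm w = nm v).card ≤ d) :
    ((V ×ˢ V).filter fun t => nm t.1 = nm t.2).card ≤ d * V.card := by
  classical
  rw [card_filter, sum_product]
  have h1 : ∀ a ∈ V, ∑ b ∈ V, (if nm a = nm b then 1 else 0) ≤ d := by
    intro a ha
    rw [← card_filter]
    refine le_trans (card_le_card ?_) (hd a ha)
    intro b hb
    rw [mem_filter] at hb ⊢
    exact ⟨hb.1, hb.2.symm⟩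
  refine (sum_le_card_nsmul _ _ _ h1).trans ?_
  rw [smul_eq_mul, mul_comm]

theorem card_sqV_succ (V : Finset ι) (nm : ι → ℕ) (hP : ∀ v ∈ V, (nm v).Prime) (d : ℕ)
    (hd : ∀ v ∈ V, (V.filter fun w => nm w = nm v).card ≤ d) (n : ℕ) :
    (sqV V nm (n + 2)).card ≤ (n + 1) * (d * V.card) * (sqV V nm n).card := by
  classical
  let Fm : Fin (n + 1) × (ι × ι) × (Fin n → ι) → (Fin (n + 2) → ι) :=
    fun t => Fin.cons (α := fun _ => ι) t.2.1.1 (Fin.insertNth (α := fun _ => ι) t.1 t.2.1.2 t.2.2)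
  have hsub : sqV V nm (n + 2) ⊆
      ((univ : Finset (Fin (n + 1))) ×ˢ ((V ×ˢ V).filter fun t => nm t.1 = nm t.2) ×ˢ
        sqV V nm n).image Fm := by
    intro g hg
    rw [mem_sqV] at hg
    obtain ⟨h1, h2⟩ := hg
    rw [Fin.prod_univ_succ] at h2
    have hp : (nm (g 0)).Prime := hP _ (h1 0)
    have h3 := dvd_of_isSquare_mul hp h2
    obtain ⟨j, -, hj⟩ := (hp.prime.dvd_finsetProd_iff _).1 h3
    have hj' : nm (g 0) = nm (g j.succ) :=
      (Nat.prime_dvd_prime_iff_eq hp (hP _ (h1 _))).1 hj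
    rw [Fin.prod_univ_succAbove _ j, ← hj'] at h2
    have h4 := isSquare_of_mul_self hp.pos h2
    rw [mem_image]
    refine ⟨(j, (g 0, g j.succ), fun i => g (j.succAbove i).succ), ?_, ?_⟩
    · rw [mem_product, mem_product]
      refine ⟨mem_univ _, ?_, ?_⟩
      · rw [mem_filter, mem_product]
        exact ⟨⟨h1 0, h1 _⟩, hj'⟩
      · rw [mem_sqV]
        exact ⟨fun i => h1 _, h4⟩
    · funext i
      refine Fin.cases ?_ (fun i => ?_) i
      · rfl
      · show Fin.insertNth (α := fun _ => ι) j (g j.succ) (fun i => g (j.succAbove i).succ) i =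
          g i.succ
        refine Fin.succAboveCases j ?_ (fun k => ?_) i
        · rw [Fin.insertNth_apply_same]
        · rw [Fin.insertNth_apply_succAbove]
  refine (card_le_card hsub).trans (card_image_le.trans ?_)
  rw [card_product, card_product, card_univ, Fintype.card_fin, ← mul_assoc]
  exact Nat.mul_le_mul_right _ (Nat.mul_le_mul_left _ (card_pairs V nm d hd))

theorem card_sqV (V : Finset ι) (nm : ι → ℕ) (hP : ∀ v ∈ V, (nm v).Prime) (d : ℕ)
    (hd : ∀ v ∈ V, (V.filter fun w => nm w = nm v).card ≤ d) (k : ℕ) :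
    (sqV V nm (2 * k)).card ≤ (2 * k) ^ k * (d * V.card) ^ k := by
  induction k with
  | zero =>
    simp only [mul_zero, pow_zero, mul_one]
    classical
    refine (card_filter_le _ _).trans ?_
    rw [card_tup]
    simp
  | succ k ih =>
    have h1 := card_sqV_succ V nm hP d hd (2 * k)
    have e : 2 * (k + 1) = 2 * k + 2 := by ring
    rw [e]
    refine h1.trans ?_
    calc (2 * k + 1) * (d * V.card) * (sqV V nm (2 * k)).card
        ≤ (2 * k + 1) * (d * V.card) * ((2 * k) ^ k * (d * V.card) ^ k) := Nat.mul_le_mul_left _ ih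
      _ = ((2 * k + 1) * (2 * k) ^ k) * (d * V.card) ^ (k + 1) := by ring
      _ ≤ ((2 * k + 2) * (2 * k + 2) ^ k) * (d * V.card) ^ (k + 1) := by
          gcongr <;> omega
      _ = (2 * k + 2) ^ (k + 1) * (d * V.card) ^ (k + 1) := by ring

/-- pairs of tuples with product of all norms a square -/
theorem card_sq_pairs (V : Finset ι) (nm : ι → ℕ) (hP : ∀ v ∈ V, (nm v).Prime) (d : ℕ)
    (hd : ∀ v ∈ V, (V.filter fun w => nm w = nm v).card ≤ d) (r : ℕ)
    (Q : Finset ((Fin r → ι) × (Fin r → ι)))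
    (hQ : ∀ t ∈ Q, t.1 ∈ tup V r ∧ t.2 ∈ tup V r ∧ IsSquare ((∏ i, nm (t.1 i)) * ∏ i, nm (t.2 i))) :
    Q.card ≤ (2 * r) ^ r * (d * V.card) ^ r := by
  classical
  refine le_trans ?_ (card_sqV V nm hP d hd r)
  have e : r + r = 2 * r := by ring
  rw [← e]
  refine card_le_card_of_injOn (fun t => Fin.append t.1 t.2) ?_ ?_
  · intro t ht
    obtain ⟨h1, h2, h3⟩ := hQ t ht
    rw [mem_tup] at h1 h2
    rw [mem_coe, mem_sqV]
    refine ⟨fun i => ?_, ?_⟩
    · show Fin.append t.1 t.2 i ∈ V
      refine Fin.addCases (fun i => ?_) (fun i => ?_) i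
      · rw [Fin.append_left]; exact h1 i
      · rw [Fin.append_right]; exact h2 i
    · rw [Fin.prod_univ_add]
      simp only [Fin.append_left, Fin.append_right]
      exact h3
  · intro t _ t' _ h
    simp only at h
    apply Prod.ext
    · funext i
      have := congrFun h (Fin.castAdd r i)
      rwa [Fin.append_left, Fin.append_left] at this
    · funext i
      have := congrFun h (Fin.natAdd r i)
      rwa [Fin.append_right, Fin.append_right] at this

/-- tuples with given product -/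
theorem card_fac {M : Type*} [CommMonoidWithZero M] [IsCancelMulZero M] [Subsingleton Mˣ]
    [DecidableEq M]
    (V : Finset ι) (π : ι → M) (hP : ∀ v ∈ V, Prime (π v)) (d : ℕ)
    (hd : ∀ v ∈ V, (V.filter fun w => π w = π v).card ≤ d) (r : ℕ) :
    ∀ (b : M) (Q : Finset (Fin r → ι)), (∀ g ∈ Q, g ∈ tup V r ∧ ∏ i, π (g i) = b) →
      Q.card ≤ d ^ r * r.factorial := by
  induction r with
  | zero =>
    intro b Q _
    rw [pow_zero, Nat.factorial_zero, mul_one]
    refine card_le_one.2 fun g _ g' _ => Subsingleton.elim _ _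
  | succ r ih =>
    intro b Q hQ
    rcases Q.eq_empty_or_nonempty with rfl | ⟨g₀, hg₀⟩
    · simp
    obtain ⟨h1, h2⟩ := hQ g₀ hg₀
    rw [mem_tup] at h1
    set W : Finset ι := (univ : Finset (Fin (r + 1))).biUnion fun j =>
      V.filter fun w => π w = π (g₀ j) with hW
    have hWc : W.card ≤ (r + 1) * d := by
      refine card_biUnion_le.trans ?_
      refine (sum_le_card_nsmul _ _ _ fun j _ => hd (g₀ j) (h1 j)).trans ?_
      rw [card_univ, Fintype.card_fin, smul_eq_mul]
    have hmaps : ∀ g ∈ Q, g 0 ∈ W := by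
      intro g hg
      obtain ⟨h3, h4⟩ := hQ g hg
      rw [mem_tup] at h3
      have hp := hP _ (h3 0)
      have h5 : π (g 0) ∣ ∏ i, π (g₀ i) := by
        rw [h2, ← h4]
        exact dvd_prod_of_mem _ (mem_univ 0)
      obtain ⟨j, -, hj⟩ := (hp.dvd_finsetProd_iff _).1 h5
      rw [hW, mem_biUnion]
      refine ⟨j, mem_univ _, ?_⟩
      rw [mem_filter]
      refine ⟨h3 0, ?_⟩
      exact associated_iff_eq.1 ((hp.dvd_prime_iff_associated (hP _ (h1 j))).1 hj)
    have hfib : ∀ w ∈ W, (Q.filter fun g => g 0 = w).card ≤ d ^ r * r.factorial := by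
      intro w _
      rcases (Q.filter fun g => g 0 = w).eq_empty_or_nonempty with he | ⟨g₁, hg₁⟩
      · rw [he]; simp
      rw [mem_filter] at hg₁
      obtain ⟨h5, h6⟩ := hQ g₁ hg₁.1
      rw [mem_tup] at h5
      have hinj : Set.InjOn (fun g : Fin (r + 1) → ι => Fin.tail g) (Q.filter fun g => g 0 = w) := by
        intro g hg g' hg' h
        rw [mem_coe, mem_filter] at hg hg'
        rw [← Fin.cons_self_tail g, ← Fin.cons_self_tail g', hg.2, hg'.2]
        simp only at h
        rw [h]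
      rw [← card_image_of_injOn hinj]
      refine ih (∏ i, π (Fin.tail g₁ i)) _ fun g hg => ?_
      rw [mem_image] at hg
      obtain ⟨g', hg', rfl⟩ := hg
      rw [mem_filter] at hg'
      obtain ⟨h7, h8⟩ := hQ g' hg'.1
      rw [mem_tup] at h7
      refine ⟨?_, ?_⟩
      · rw [mem_tup]
        intro i
        exact h7 i.succ
      · rw [Fin.prod_univ_succ] at h6 h8
        have hne : π w ≠ 0 := by
          rw [← hg₁.2]
          exact (hP _ (h5 0)).ne_zero
        rw [hg₁.2] at h6
        rw [hg'.2, ← h6] at h8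
        exact mul_left_cancel₀ hne h8
    have h3 := card_eq_sum_card_fiberwise (s := Q) (t := W) (f := fun g : Fin (r + 1) → ι => g 0)
      (fun g hg => mem_coe.2 (hmaps g (mem_coe.1 hg)))
    rw [h3]
    refine (sum_le_card_nsmul _ _ _ hfib).trans ?_
    rw [smul_eq_mul]
    calc W.card * (d ^ r * r.factorial) ≤ ((r + 1) * d) * (d ^ r * r.factorial) :=
          Nat.mul_le_mul_right _ hWc
      _ = d ^ (r + 1) * (r + 1).factorial := by rw [Nat.factorial_succ]; ring

end Pool.Agent.H4.Mom
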