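import Pool.Agent.H4.Sec2
import Pool.Agent.H4.Hsq
import Pool.Agent.H4.Tup
import Pool.Graph.R_pool_sql_team_seeded_620a6dc7.H821.ST.Fld

/-! The primes of a number field above an imaginary quadratic field: close pairs of tuples. -/

set_option autoImplicit false

namespace Pool.Agent.H4.Hk

open Pool.Agent.H4 (IsHecke)

open Finset NumberField ComplexConjugate IsDedekindDomain
open Pool.Agent.W540.BE (nm upto mem_upto fiber_finite fiber_card two_le_nm)
open Pool.Agent.H4.Mom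

section

variable (F : Type) {K : Type} [Field F] [NumberField F] [Field K] [NumberField K] [Algebra F K]

/-- the norm of a prime -/
noncomputable def rn (v : HeightOneSpectrum (𝓞 K)) : Ideal (𝓞 F) := Ideal.relNorm (𝓞 F) v.asIdeal

theorem absNorm_rn (v : HeightOneSpectrum (𝓞 K)) : Ideal.absNorm (rn F v) = nm K v := by
  unfold rn nm
  exact Ideal.absNorm_relNorm (R := 𝓞 F) (S := 𝓞 K) (I := v.asIdeal)

theorem rn_ne_bot (v : HeightOneSpectrum (𝓞 K)) : rn F v ≠ ⊥ := by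
  unfold rn
  rw [Ne, Ideal.relNorm_eq_bot_iff]
  exact v.ne_bot

/-- the modulus -/
noncomputable def D0 {F : Type} [Field F] [NumberField F] (𝔪 : Ideal (𝓞 F)) : ℕ :=
  (discr F).natAbs * Ideal.absNorm 𝔪

theorem D0_ne_zero {F : Type} [Field F] [NumberField F] {𝔪 : Ideal (𝓞 F)} (h : 𝔪 ≠ ⊥) :
    D0 𝔪 ≠ 0 := by
  unfold D0
  apply mul_ne_zero
  · rw [Int.natAbs_ne_zero]; exact discr_ne_zero F
  · rw [Ne, Ideal.absNorm_eq_zero_iff]; exact h

/-- the good primes -/
noncomputable def gd (K : Type) [Field K] [NumberField K] (D N : ℕ) :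
    Finset (HeightOneSpectrum (𝓞 K)) :=
  open Classical in (upto K N).filter fun v => (nm K v).Prime ∧ ¬ nm K v ∣ D

theorem mem_gd {D N : ℕ} {v : HeightOneSpectrum (𝓞 K)} :
    v ∈ gd K D N ↔ nm K v ≤ N ∧ (nm K v).Prime ∧ ¬ nm K v ∣ D := by
  classical
  unfold gd
  rw [mem_filter, mem_upto]

variable {𝔪 : Ideal (𝓞 F)} {D N : ℕ}

theorem isPrime_rn {v : HeightOneSpectrum (𝓞 K)} (hv : v ∈ gd K D N) : (rn F v).IsPrime := by
  apply Ideal.isPrime_of_irreducible_absNorm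
  rw [absNorm_rn]
  exact (mem_gd.1 hv).2.1

theorem prime_rn {v : HeightOneSpectrum (𝓞 K)} (hv : v ∈ gd K D N) : Prime (rn F v) :=
  Ideal.prime_of_isPrime (rn_ne_bot F v) (isPrime_rn F hv)

theorem coprime_rn (hD : Ideal.absNorm 𝔪 ∣ D) {v : HeightOneSpectrum (𝓞 K)} (hv : v ∈ gd K D N) :
    IsCoprime (rn F v) 𝔪 := by
  have hmax : (rn F v).IsMaximal := (isPrime_rn F hv).isMaximal (rn_ne_bot F v)
  rw [Ideal.isCoprime_iff_sup_eq]
  by_contra h
  have h1 : rn F v ⊔ 𝔪 = rn F v := by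
    have := hmax.eq_of_le h le_sup_left
    exact this.symm
  have h2 : 𝔪 ≤ rn F v := by rw [← h1]; exact le_sup_right
  have h3 := Ideal.absNorm_dvd_absNorm_of_le h2
  rw [absNorm_rn] at h3
  exact (mem_gd.1 hv).2.2 (h3.trans hD)

theorem card_nm_le (V : Finset (HeightOneSpectrum (𝓞 K))) (n : ℕ) :
    (V.filter fun w => nm K w = n).card ≤ Module.finrank ℚ K := by
  classical
  refine le_trans (card_le_card ?_) (Pool.Agent.H821.ST.card_fiber (K := K) n)
  intro w hw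
  rw [Pool.Agent.H821.ST.mem_fiber]
  exact (mem_filter.1 hw).2

theorem card_rn_le [DecidableEq (Ideal (𝓞 F))] (V : Finset (HeightOneSpectrum (𝓞 K))) (v : HeightOneSpectrum (𝓞 K)) :
    (V.filter fun w => rn F w = rn F v).card ≤ Module.finrank ℚ K := by
  classical
  refine le_trans (card_le_card ?_) (card_nm_le V (nm K v))
  intro w hw
  rw [mem_filter] at hw ⊢
  refine ⟨hw.1, ?_⟩
  rw [← absNorm_rn F w, ← absNorm_rn F v, hw.2]

theorem card_gd_le (D N : ℕ) : (gd K D N).card ≤ Module.finrank ℚ K * N := by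
  classical
  have h1 : (gd K D N).card = ∑ n ∈ Icc 1 N, ((gd K D N).filter fun v => nm K v = n).card := by
    apply card_eq_sum_card_fiberwise
    intro v hv
    rw [mem_coe, mem_gd] at hv
    rw [mem_coe, mem_Icc]
    exact ⟨hv.2.1.one_lt.le, hv.1⟩
  rw [h1]
  refine (sum_le_card_nsmul _ _ _ fun n _ => card_nm_le _ n).trans ?_
  rw [Nat.card_Icc, smul_eq_mul, mul_comm]
  simp

end

section

variable {F K : Type} [Field F] [NumberField F] [Field K] [NumberField K] [Algebra F K]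
variable {𝔪 : Ideal (𝓞 F)} {σ : F →+* ℂ} {m : ℕ} {ψ : Ideal (𝓞 F) → Circle}

/-- the value at a prime -/
noncomputable def zz (K : Type) [Field K] [NumberField K] [Algebra F K] (ψ : Ideal (𝓞 F) → Circle)
    (v : HeightOneSpectrum (𝓞 K)) : ℂ := ψ (rn F v)

theorem norm_zz (v : HeightOneSpectrum (𝓞 K)) : ‖zz K ψ v‖ = 1 := Circle.norm_coe _

/-- the ideal of a tuple -/
noncomputable def idl (F : Type) [Field F] [NumberField F] [Algebra F K] {r : ℕ}
    (g : Fin r → HeightOneSpectrum (𝓞 K)) : Ideal (𝓞 F) := ∏ i, rn F (g i)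

theorem Z_eq (h : IsHecke F 𝔪 σ m ψ) {D N : ℕ} (hD : Ideal.absNorm 𝔪 ∣ D) {r : ℕ}
    {g : Fin r → HeightOneSpectrum (𝓞 K)} (hg : ∀ i, g i ∈ gd K D N) :
    Z (zz K ψ) g = (ψ (idl F g) : ℂ) := by
  unfold Z idl zz
  rw [h.prod univ (fun i => rn F (g i)) fun i _ => coprime_rn F hD (hg i)]
  exact (map_prod Circle.coeHom _ _).symm

theorem idl_ne_bot {r : ℕ} (g : Fin r → HeightOneSpectrum (𝓞 K)) : idl F g ≠ ⊥ := by
  unfold idl
  rw [← Ideal.zero_eq_bot, prod_ne_zero_iff]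
  intro i _
  exact rn_ne_bot F _

theorem idl_coprime {D N : ℕ} (hD : Ideal.absNorm 𝔪 ∣ D) {r : ℕ}
    {g : Fin r → HeightOneSpectrum (𝓞 K)} (hg : ∀ i, g i ∈ gd K D N) :
    IsCoprime (idl F g) 𝔪 := by
  unfold idl
  exact IsCoprime.prod_left fun i _ => coprime_rn F hD (hg i)

theorem absNorm_idl {r : ℕ} (g : Fin r → HeightOneSpectrum (𝓞 K)) :
    Ideal.absNorm (idl F g) = ∏ i, nm K (g i) := by
  unfold idl
  rw [map_prod]
  exact prod_congr rfl fun i _ => absNorm_rn F _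

theorem absNorm_idl_le {D N : ℕ} {r : ℕ} {g : Fin r → HeightOneSpectrum (𝓞 K)}
    (hg : ∀ i, g i ∈ gd K D N) : Ideal.absNorm (idl F g) ≤ N ^ r := by
  rw [absNorm_idl]
  calc ∏ i, nm K (g i) ≤ ∏ _i : Fin r, N := prod_le_prod' fun i _ => (mem_gd.1 (hg i)).1
    _ = N ^ r := by simp

open Classical in
/-- close pairs, short products -/
theorem close_small (hF : Module.finrank ℚ F = 2) (hσ : ¬ ComplexEmbedding.IsReal σ)
    (h : IsHecke F 𝔪 σ m ψ) (hm : 0 < m) (h𝔪 : 𝔪 ≠ ⊥) :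
    ∃ B : ℕ, 0 < B ∧ ∀ (N r : ℕ) (η : ℝ), η * (2 * B * (N : ℝ) ^ (B * r)) ≤ 1 →
      (close (gd K (D0 𝔪) N) (zz K ψ) r η).card ≤
        (2 * r) ^ r * (Module.finrank ℚ K * (gd K (D0 𝔪) N).card) ^ r := by
  obtain ⟨M, hM, hgen⟩ := exists_gen h𝔪
  refine ⟨2 * M * m, by positivity, fun N r η hη => ?_⟩
  rcases Nat.eq_zero_or_pos N with rfl | hN
  · -- no primes
    have h0 : gd K (D0 𝔪) 0 = ∅ := by
      rw [eq_empty_iff_forall_notMem]
      intro v hv
      rw [mem_gd] at hv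
      have := hv.2.1.pos
      omega
    rcases Nat.eq_zero_or_pos r with rfl | hr
    · have h1 : (close (gd K (D0 𝔪) 0) (zz K ψ) 0 η).card ≤ 1 := by
        refine card_le_one.2 fun a _ b _ => Subsingleton.elim _ _
      simpa using h1
    · have h1 : close (gd K (D0 𝔪) 0) (zz K ψ) r η = ∅ := by
        rw [eq_empty_iff_forall_notMem]
        intro t ht
        unfold close at ht
        rw [mem_filter, mem_product, mem_tup] at ht
        have := ht.1.1 ⟨0, hr⟩
        rw [h0] at this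
        exact absurd this (notMem_empty _)
      rw [h1]
      simp
  apply card_sq_pairs (gd K (D0 𝔪) N) (nm K) (fun v hv => (mem_gd.1 hv).2.1)
    (Module.finrank ℚ K) (fun v _ => card_nm_le _ _) r
  intro t ht
  unfold close at ht
  rw [mem_filter, mem_product] at ht
  obtain ⟨⟨h1, h2⟩, h3⟩ := ht
  refine ⟨h1, h2, ?_⟩
  rw [mem_tup] at h1 h2
  have hD : Ideal.absNorm 𝔪 ∣ D0 𝔪 := Dvd.intro_left _ rfl
  rw [Z_eq h hD h1, Z_eq h hD h2] at h3
  rcases h.sep hF hσ hm hM hgen (idl_ne_bot t.1) (idl_ne_bot t.2) (idl_coprime hD h1)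
    (idl_coprime hD h2) with h4 | h4
  · have h5 := isSquare_of_dir (idl_ne_bot t.1) (idl_ne_bot t.2) h4 (by
      intro p hp hpd hdisc
      rw [absNorm_idl, absNorm_idl] at hpd
      have h6 : ∃ v ∈ gd K (D0 𝔪) N, nm K v = p := by
        rcases (Nat.Prime.dvd_mul hp).1 hpd with h7 | h7
        · obtain ⟨i, _, hi⟩ := (hp.prime.dvd_finsetProd_iff _).1 h7
          exact ⟨t.1 i, h1 i,
            ((Nat.prime_dvd_prime_iff_eq hp (mem_gd.1 (h1 i)).2.1).1 hi).symm⟩
        · obtain ⟨i, _, hi⟩ := (hp.prime.dvd_finsetProd_iff _).1 h7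
          exact ⟨t.2 i, h2 i,
            ((Nat.prime_dvd_prime_iff_eq hp (mem_gd.1 (h2 i)).2.1).1 hi).symm⟩
      obtain ⟨v, hv, hvp⟩ := h6
      apply (mem_gd.1 hv).2.2
      rw [hvp]
      unfold D0
      exact (Int.natCast_dvd.1 hdisc).mul_right _)
    rwa [absNorm_idl, absNorm_idl] at h5
  · exfalso
    have hNr : (1 : ℝ) ≤ N := by exact_mod_cast hN
    have e1 : (Ideal.absNorm (idl F t.1) : ℝ) ≤ (N : ℝ) ^ r := by exact_mod_cast absNorm_idl_le h1
    have e2 : (Ideal.absNorm (idl F t.2) : ℝ) ≤ (N : ℝ) ^ r := by exact_mod_cast absNorm_idl_le h2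
    have e3 : ((Ideal.absNorm (idl F t.1) : ℝ) * (Ideal.absNorm (idl F t.2) : ℝ)) ^ (M * m) ≤
        (N : ℝ) ^ (2 * M * m * r) := by
      calc _ ≤ ((N : ℝ) ^ r * (N : ℝ) ^ r) ^ (M * m) := by gcongr
        _ = _ := by rw [← pow_add, ← pow_mul]; congr 1; ring
    have hm1 : (1 : ℝ) ≤ m := by exact_mod_cast hm
    have hM1 : (1 : ℝ) ≤ M := by exact_mod_cast hM
    have hd0 : 0 ≤ ‖(ψ (idl F t.1) : ℂ) - ψ (idl F t.2)‖ := norm_nonneg _
    have hη0 : 0 < η := lt_of_le_of_lt hd0 h3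
    have e4 : (2 * M : ℝ) * ((Ideal.absNorm (idl F t.1) : ℝ) *
        (Ideal.absNorm (idl F t.2) : ℝ)) ^ (M * m) * ‖(ψ (idl F t.1) : ℂ) - ψ (idl F t.2)‖ <
        (2 * ((2 * M * m : ℕ) : ℝ)) * (N : ℝ) ^ (2 * M * m * r) * η := by
      have f1 : (2 * M : ℝ) ≤ 2 * ((2 * M * m : ℕ) : ℝ) := by
        push_cast
        nlinarith
      have f2 : (2 * M : ℝ) * ((Ideal.absNorm (idl F t.1) : ℝ) *
        (Ideal.absNorm (idl F t.2) : ℝ)) ^ (M * m) ≤
        (2 * ((2 * M * m : ℕ) : ℝ)) * (N : ℝ) ^ (2 * M * m * r) := by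
        apply mul_le_mul f1 e3 (by positivity) (by positivity)
      exact mul_lt_mul' f2 h3 hd0 (by positivity)
    have e5 : (2 * ((2 * M * m : ℕ) : ℝ)) * (N : ℝ) ^ (2 * M * m * r) * η =
        η * (2 * ((2 * M * m : ℕ) : ℝ) * (N : ℝ) ^ (2 * M * m * r)) := by ring
    linarith

open Classical in
/-- close pairs, long products -/
theorem close_large (hF : Module.finrank ℚ F = 2) (hσ : ¬ ComplexEmbedding.IsReal σ)
    (h : IsHecke F 𝔪 σ m ψ) (hm : 0 < m) (h𝔪 : 𝔪 ≠ ⊥) :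
    ∃ C : ℝ, 0 < C ∧ ∀ (N r : ℕ) (η : ℝ), 0 ≤ η →
      ((close (gd K (D0 𝔪) N) (zz K ψ) r η).card : ℝ) ≤
        ((gd K (D0 𝔪) N).card : ℝ) ^ r * ((Module.finrank ℚ K : ℝ) ^ r * r.factorial) *
          (C * ((Real.sqrt ((N : ℝ) ^ r) + 1) * (Real.sqrt ((N : ℝ) ^ r) * η + 1))) := by
  obtain ⟨C, hC, harc⟩ := card_arc hF hσ h hm h𝔪
  refine ⟨C, hC, fun N r η hη => ?_⟩
  set V := gd K (D0 𝔪) N with hV
  have hD : Ideal.absNorm 𝔪 ∣ D0 𝔪 := Dvd.intro_left _ rfl
  have h1 : (close V (zz K ψ) r η).card =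
      ∑ p ∈ tup V r, ((close V (zz K ψ) r η).filter fun t => t.1 = p).card := by
    apply card_eq_sum_card_fiberwise
    intro t ht
    unfold close at ht
    rw [mem_coe, mem_filter, mem_product] at ht
    exact ht.1.1
  have h2 : ∀ p ∈ tup V r, (((close V (zz K ψ) r η).filter fun t => t.1 = p).card : ℝ) ≤
      ((Module.finrank ℚ K : ℝ) ^ r * r.factorial) *
          (C * ((Real.sqrt ((N : ℝ) ^ r) + 1) * (Real.sqrt ((N : ℝ) ^ r) * η + 1))) := by
    intro p hp
    set Q : Finset (Fin r → HeightOneSpectrum (𝓞 K)) :=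
      (tup V r).filter fun q => ‖Z (zz K ψ) p - Z (zz K ψ) q‖ < η with hQ
    have h3 : ((close V (zz K ψ) r η).filter fun t => t.1 = p).card ≤ Q.card := by
      refine card_le_card_of_injOn (fun t => t.2) ?_ ?_
      · intro t ht
        unfold close at ht
        rw [mem_coe, mem_filter, mem_filter, mem_product] at ht
        rw [mem_coe, hQ, mem_filter]
        refine ⟨ht.1.1.2, ?_⟩
        rw [← ht.2]
        exact ht.1.2
      · intro t ht t' ht' htt
        rw [mem_coe, mem_filter] at ht ht'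
        exact Prod.ext (ht.2.trans ht'.2.symm) htt
    set T : Finset (Ideal (𝓞 F)) := Q.image (fun q => idl F q) with hT
    have h4 : Q.card = ∑ b ∈ T, (Q.filter fun q => idl F q = b).card :=
      card_eq_sum_card_image _ _
    have h5 : ∀ b ∈ T, (Q.filter fun q => idl F q = b).card ≤
        Module.finrank ℚ K ^ r * r.factorial := by
      intro b _
      refine card_fac V (fun v => rn F v) (fun v hv => prime_rn F hv) _
        (fun v _ => card_rn_le F V v) r b _ fun g hg => ?_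
      rw [mem_filter, hQ, mem_filter] at hg
      exact ⟨hg.1.1, hg.2⟩
    have h6 : (T.card : ℝ) ≤
        C * ((Real.sqrt ((N : ℝ) ^ r) + 1) * (Real.sqrt ((N : ℝ) ^ r) * η + 1)) := by
      refine harc (Real.sqrt ((N : ℝ) ^ r)) η (Real.sqrt_nonneg _) hη (Z (zz K ψ) p)
        (norm_Z (V := V) (fun v _ => norm_zz v) hp) T fun 𝔞 ha => ?_
      rw [hT, mem_image] at ha
      obtain ⟨q, hq, rfl⟩ := ha
      rw [hQ, mem_filter] at hq
      have hq1 := mem_tup.1 hq.1
      refine ⟨idl_ne_bot q, idl_coprime hD hq1, ?_, ?_⟩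
      · rw [Real.sq_sqrt (by positivity)]
        exact_mod_cast absNorm_idl_le hq1
      · rw [← Z_eq h hD hq1, norm_sub_rev]
        exact hq.2.le
    have h7 : Q.card ≤ T.card * (Module.finrank ℚ K ^ r * r.factorial) := by
      rw [h4]
      exact (sum_le_card_nsmul _ _ _ h5).trans (by rw [smul_eq_mul])
    have h8 : (((close V (zz K ψ) r η).filter fun t => t.1 = p).card : ℝ) ≤
        (T.card : ℝ) * ((Module.finrank ℚ K : ℝ) ^ r * r.factorial) := by
      exact_mod_cast h3.trans h7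
    refine h8.trans ?_
    rw [mul_comm]
    exact mul_le_mul_of_nonneg_left h6 (by positivity)
  have h9 : ((close V (zz K ψ) r η).card : ℝ) =
      ∑ p ∈ tup V r, (((close V (zz K ψ) r η).filter fun t => t.1 = p).card : ℝ) := by
    exact_mod_cast h1
  rw [h9]
  refine (sum_le_card_nsmul _ _ _ h2).trans ?_
  rw [nsmul_eq_mul, card_tup]
  push_cast
  apply le_of_eq
  ring

end

end Pool.Agent.H4.Hk
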