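import Pool.Agent.H4.Tup

/-! The number of exponents with a large sum, for one length. -/

set_option autoImplicit false

namespace Pool.Agent.H4.Mom

open Finset

/-- families of values -/
structure Fam {ι : Type*} [DecidableEq ι] (V : ℕ → Finset ι) (z : ι → ℂ) (d B : ℕ) (C : ℝ) :
    Prop where
  hd : 0 < d
  hB : 0 < B
  hC : 0 < C
  unit : ∀ v, ‖z v‖ = 1
  zero : V 0 = ∅
  mono : ∀ N N', N ≤ N' → V N ⊆ V N'
  incr : ∀ N N', N ≤ N' → (V N' \ V N).card ≤ d * (N' - N)
  small : ∀ (N r : ℕ) (η : ℝ), η * (2 * B * (N : ℝ) ^ (B * r)) ≤ 1 →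
    (close (V N) z r η).card ≤ (2 * r) ^ r * (d * (V N).card) ^ r
  large : ∀ (N r : ℕ) (η : ℝ), 0 ≤ η → ((close (V N) z r η).card : ℝ) ≤
    ((V N).card : ℝ) ^ r * ((d : ℝ) ^ r * r.factorial) *
      (C * ((Real.sqrt ((N : ℝ) ^ r) + 1) * (Real.sqrt ((N : ℝ) ^ r) * η + 1)))

section

variable {ι : Type*} [DecidableEq ι] {V : ℕ → Finset ι} {z : ι → ℂ} {d B : ℕ} {C : ℝ}

theorem Fam.card_le (h : Fam V z d B C) (N : ℕ) : (V N).card ≤ d * N := by
  have h1 := h.incr 0 N (Nat.zero_le _)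
  rwa [h.zero, sdiff_empty, Nat.sub_zero] at h1

theorem Fam.one_le_d (h : Fam V z d B C) : (1 : ℝ) ≤ d := by exact_mod_cast h.hd

theorem Fam.one_le_B (h : Fam V z d B C) : (1 : ℝ) ≤ B := by exact_mod_cast h.hB

/-- the number of exponents with a large sum -/
noncomputable def nb (V : ℕ → Finset ι) (b z : ι → ℂ) (X N : ℕ) (T : ℝ) : ℕ :=
  ((Icc 1 X).filter fun k => T ≤ ‖S (V N) b z k‖).card

/-- small `N` -/
theorem Fam.range1 (h : Fam V z d B C) {b : ι → ℂ} (hb : ∀ v, ‖b v‖ ≤ 1)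
    {A θ ε τ : ℝ} (hA : 1 < A) (hτ : τ = 1 - 1 / A) (hε : ε = τ / 4) (hθ0 : 0 < θ) (hθ : θ ≤ τ / 8)
    {X N : ℕ} (hN3 : 3 ≤ N)
    (hX1 : 2 * (B : ℝ) * Real.exp (-(Real.log X / 4)) ≤ 1)
    (hN1 : Real.log (2 * d ^ 2) ≤ ε * Real.log N)
    (hAN : (Real.log X) ^ A ≤ N) (hNX : Real.log N ≤ Real.log X / (8 * B)) :
    (nb V b z X N ((N : ℝ) ^ (1 - θ)) : ℝ) ≤ 3 * Real.exp (Real.log X * (1 - min (τ / (16 * B)) (3 / 8))) := by
  generalize hL' : Real.log (X : ℝ) = L at *
  generalize hl' : Real.log (N : ℝ) = l at *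
  have hL := hL'.symm
  have hl := hl'.symm
  have hd1 := h.one_le_d
  have hB1 := h.one_le_B
  have hNr : (3 : ℝ) ≤ N := by exact_mod_cast hN3
  have hN0 : (0 : ℝ) < N := by linarith
  have hl1 : 1 ≤ l := by
    rw [hl, Real.le_log_iff_exp_le hN0]
    have := Real.exp_one_lt_d9
    linarith
  have hL8 : 8 * B * l ≤ L := by
    rw [le_div_iff₀ (by positivity)] at hNX
    linarith
  have hL0 : 8 ≤ L := by nlinarith
  have hX0 : (0 : ℝ) < X := by
    by_contra hcon
    have : (X : ℝ) = 0 := le_antisymm (not_lt.1 hcon) (Nat.cast_nonneg _)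
    rw [hL, this, Real.log_zero] at hL0
    linarith
  have hXL : (X : ℝ) = Real.exp L := by rw [hL]; exact (Real.exp_log hX0).symm
  have hNl : (N : ℝ) = Real.exp l := by rw [hl]; exact (Real.exp_log hN0).symm
  have hA0 : 0 < A := by linarith
  have hτ0 : 0 < τ := by
    rw [hτ, sub_pos, div_lt_one hA0]; exact hA
  have hτ1 : τ < 1 := by
    rw [hτ]
    have : 0 < 1 / A := by positivity
    linarith
  -- the exponent r
  obtain ⟨r, hr⟩ : ∃ r : ℕ, r = ⌊L / (4 * B * l)⌋₊ := ⟨_, rfl⟩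
  have hr1 : r * (4 * B * l) ≤ L := by
    have := Nat.floor_le (show 0 ≤ L / (4 * B * l) by positivity)
    rwa [← hr, le_div_iff₀ (by positivity)] at this
  have hr2 : L < (r + 1) * (4 * B * l) := by
    have := Nat.lt_floor_add_one (L / (4 * B * l))
    rwa [← hr, div_lt_iff₀ (by positivity)] at this
  have hrL : (r : ℝ) ≤ L := by
    have h1 : (1 : ℝ) ≤ 4 * B * l := by nlinarith
    have h2 : (0 : ℝ) ≤ r := Nat.cast_nonneg _
    nlinarith
  have hr0 : (0 : ℝ) ≤ r := Nat.cast_nonneg _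
  -- the bound
  obtain ⟨η, hη⟩ : ∃ η : ℝ, η = Real.exp (-(L / 2)) := ⟨_, rfl⟩
  have hη0 : 0 < η := by rw [hη]; exact Real.exp_pos _
  have hsm : η * (2 * B * (N : ℝ) ^ (B * r)) ≤ 1 := by
    have h1 : (N : ℝ) ^ (B * r) = Real.exp (B * r * l) := by
      rw [hNl, ← Real.exp_nat_mul]; push_cast; rfl
    have h2 : Real.exp (B * r * l) ≤ Real.exp (L / 4) := by
      apply Real.exp_le_exp.2
      linarith
    rw [h1]
    calc η * (2 * B * Real.exp (B * r * l)) ≤ η * (2 * B * Real.exp (L / 4)) := by gcongr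
      _ = 2 * B * Real.exp (-(L / 4)) := by
          rw [hη]
          have : Real.exp (-(L / 4)) = Real.exp (-(L / 2)) * Real.exp (L / 4) := by
            rw [← Real.exp_add]; congr 1; ring
          rw [this]; ring
      _ ≤ 1 := hX1
  have hcl := h.small N r η hsm
  obtain ⟨T, hT⟩ : ∃ T : ℝ, T = (N : ℝ) ^ (1 - θ) := ⟨_, rfl⟩
  rw [← hT]
  have hT0 : 0 < T := by rw [hT]; exact Real.rpow_pos_of_pos hN0 _
  have hbad : (nb V b z X N T : ℝ) * T ^ (2 * r) ≤
      X * (close (V N) z r η).card + 2 / η * ((V N).card : ℝ) ^ (2 * r) :=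
    bad_le (V N) b z (fun v _ => hb v) (fun v _ => h.unit v) X r η hη0 T hT0.le
  have hcard : ((V N).card : ℝ) ≤ d * N := by exact_mod_cast h.card_le N
  have hclr0 : ((close (V N) z r η).card : ℝ) ≤ (2 * (r : ℝ)) ^ r * (d * ((V N).card : ℝ)) ^ r := by
    exact_mod_cast hcl
  have hc0 : (0 : ℝ) ≤ ((V N).card : ℝ) := Nat.cast_nonneg _
  have hq0 : (0 : ℝ) ≤ ((close (V N) z r η).card : ℝ) := Nat.cast_nonneg _
  have hn0 : (0 : ℝ) ≤ (nb V b z X N T : ℝ) := Nat.cast_nonneg _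
  clear hcl
  generalize (nb V b z X N T : ℝ) = nbad at *
  generalize ((V N).card : ℝ) = c at *
  generalize ((close (V N) z r η).card : ℝ) = q at *
  have hclr : q ≤ (2 * L) ^ r * (d * (d * N)) ^ r := by
    refine hclr0.trans ?_
    gcongr
  have hTr : T ^ (2 * r) = Real.exp (2 * r * l * (1 - θ)) := by
    rw [hT, hNl, ← Real.exp_mul, ← Real.exp_nat_mul]
    congr 1
    push_cast
    ring
  -- (2 L d^2) ≤ N^(1/A + ε)
  have hlogL : Real.log L ≤ 1 / A * l := by
    have hLp : 0 < L := by linarith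
    have h1 : Real.log (L ^ A) ≤ l := by
      rw [hl]
      exact Real.log_le_log (by positivity) hAN
    rw [Real.log_rpow (by linarith)] at h1
    rw [div_mul_eq_mul_div, one_mul, le_div_iff₀ hA0]
    linarith
  have h2L : 2 * L * d ^ 2 ≤ Real.exp ((1 / A + ε) * l) := by
    have h1 : 2 * L * d ^ 2 = Real.exp (Real.log (2 * d ^ 2) + Real.log L) := by
      rw [Real.exp_add, Real.exp_log (by positivity), Real.exp_log (by linarith)]
      ring
    rw [h1]
    apply Real.exp_le_exp.2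
    linarith
  have hd2 : (d : ℝ) ^ 2 ≤ Real.exp (ε * l) := by
    have h1 : (d : ℝ) ^ 2 ≤ 2 * d ^ 2 := by nlinarith
    have h2 : (2 * d ^ 2 : ℝ) = Real.exp (Real.log (2 * d ^ 2)) := by
      rw [Real.exp_log (by positivity)]
    rw [h2] at h1
    exact h1.trans (Real.exp_le_exp.2 hN1)
  have hrl : L / (8 * B) ≤ r * l := by
    have h1 : L < r * l * (4 * B) + l * (4 * B) := by linarith
    rw [div_le_iff₀ (by positivity)]
    have h2 : l * (8 * B) ≤ L := by linarith
    nlinarith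
  have hrl2 : r * l ≤ L / (4 * B) := by
    rw [le_div_iff₀ (by positivity)]
    linarith
  -- the two terms
  have t1 : X * ((2 * L) ^ r * (d * (d * N)) ^ r) ≤
      Real.exp (L - L * (τ / (16 * B))) * Real.exp (2 * r * l * (1 - θ)) := by
    have h1 : (2 * L) ^ r * (d * (d * (N : ℝ))) ^ r = (2 * L * d ^ 2) ^ r * (N : ℝ) ^ r := by
      rw [← mul_pow, ← mul_pow]; congr 1; ring
    have h2 : (2 * L * d ^ 2) ^ r ≤ Real.exp ((1 / A + ε) * l * r) := by
      calc (2 * L * d ^ 2) ^ r ≤ (Real.exp ((1 / A + ε) * l)) ^ r := by gcongr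
        _ = _ := by rw [← Real.exp_nat_mul]; congr 1; ring
    have h3 : (N : ℝ) ^ r = Real.exp (l * r) := by
      rw [hNl, ← Real.exp_nat_mul]; congr 1; ring
    rw [h1, h3, hXL]
    calc Real.exp L * ((2 * L * d ^ 2) ^ r * Real.exp (l * r))
        ≤ Real.exp L * (Real.exp ((1 / A + ε) * l * r) * Real.exp (l * r)) := by gcongr
      _ = Real.exp (L + ((1 / A + ε) * l * r + l * r)) := by rw [Real.exp_add, Real.exp_add]
      _ ≤ Real.exp (L - L * (τ / (16 * B)) + 2 * r * l * (1 - θ)) := by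
          apply Real.exp_le_exp.2
          have h5 : 1 / A = 1 - τ := by rw [hτ]; ring
          rw [h5, hε]
          have h6 : L * (τ / (16 * B)) = L / (8 * B) * (τ / 2) := by ring
          rw [h6]
          have h7 : L / (8 * B) * (τ / 2) ≤ r * l * (τ / 2) := by gcongr
          have h8 : r * l * θ ≤ r * l * (τ / 8) := by gcongr
          nlinarith
      _ = _ := by rw [Real.exp_add]
  have t2 : 2 / η * c ^ (2 * r) ≤
      2 * Real.exp (L - L * (3 / 8)) * Real.exp (2 * r * l * (1 - θ)) := by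
    have h1 : 2 / η = 2 * Real.exp (L / 2) := by
      rw [hη, Real.exp_neg]; field_simp
    have h2 : c ^ (2 * r) ≤ Real.exp (ε * l * r) * Real.exp (2 * r * l) := by
      calc c ^ (2 * r) ≤ (d * (N : ℝ)) ^ (2 * r) := by gcongr
        _ = ((d : ℝ) ^ 2) ^ r * (N : ℝ) ^ (2 * r) := by rw [mul_pow, ← pow_mul]
        _ ≤ (Real.exp (ε * l)) ^ r * (N : ℝ) ^ (2 * r) := by gcongr
        _ = _ := by
            rw [hNl, ← Real.exp_nat_mul, ← Real.exp_nat_mul]
            congr 2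
            · ring
            · push_cast; ring
    rw [h1]
    calc 2 * Real.exp (L / 2) * c ^ (2 * r)
        ≤ 2 * Real.exp (L / 2) * (Real.exp (ε * l * r) * Real.exp (2 * r * l)) := by gcongr
      _ = 2 * Real.exp (L / 2 + (ε * l * r + 2 * r * l)) := by rw [Real.exp_add, Real.exp_add]; ring
      _ ≤ 2 * Real.exp (L - L * (3 / 8) + 2 * r * l * (1 - θ)) := by
          have : L / 2 + (ε * l * r + 2 * r * l) ≤ L - L * (3 / 8) + 2 * r * l * (1 - θ) := by
            rw [hε]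
            have h7 : r * l * (τ / 4) ≤ L / (4 * B) * (τ / 4) := by gcongr
            have h8 : r * l * (2 * θ) ≤ L / (4 * B) * (τ / 4) := by
              have : 2 * θ ≤ τ / 4 := by linarith
              calc r * l * (2 * θ) ≤ r * l * (τ / 4) := by gcongr
                _ ≤ _ := h7
            have h9 : L / (4 * B) * (τ / 4) ≤ L / 16 := by
              have h10 : L / (4 * B) ≤ L / 4 := by
                apply div_le_div_of_nonneg_left (by linarith) (by norm_num)
                linarith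
              calc L / (4 * B) * (τ / 4) ≤ L / 4 * (1 / 4) := by
                    apply mul_le_mul h10 (by linarith) (by positivity) (by positivity)
                _ = L / 16 := by ring
            nlinarith
          have := Real.exp_le_exp.2 this
          linarith
      _ = _ := by rw [Real.exp_add]; ring
  have hsum : nbad * Real.exp (2 * r * l * (1 - θ)) ≤
      (Real.exp (L - L * (τ / (16 * B))) + 2 * Real.exp (L - L * (3 / 8))) *
        Real.exp (2 * r * l * (1 - θ)) := by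
    rw [hTr] at hbad
    refine hbad.trans ?_
    have h1 : (X : ℝ) * q ≤ X * ((2 * L) ^ r * (d * (d * N)) ^ r) := by
      gcongr
    rw [add_mul]
    exact add_le_add (h1.trans t1) t2
  have h1 := le_of_mul_le_mul_right hsum (Real.exp_pos _)
  refine h1.trans ?_
  have e1 : Real.exp (L - L * (τ / (16 * B))) ≤ Real.exp (L * (1 - min (τ / (16 * B)) (3 / 8))) := by
    apply Real.exp_le_exp.2
    have := min_le_left (τ / (16 * B)) (3 / 8 : ℝ)
    nlinarith
  have e2 : Real.exp (L - L * (3 / 8)) ≤ Real.exp (L * (1 - min (τ / (16 * B)) (3 / 8))) := by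
    apply Real.exp_le_exp.2
    have := min_le_right (τ / (16 * B)) (3 / 8 : ℝ)
    nlinarith
  linarith

/-- large `N` -/
theorem Fam.range2 (h : Fam V z d B C) {b : ι → ℂ} (hb : ∀ v, ‖b v‖ ≤ 1)
    {β θ : ℝ} (hβ : 0 < β) (hθ0 : 0 < θ) (hθ : θ * (256 * B * β) ≤ 1)
    {X N : ℕ} (hX : 1 ≤ Real.log X)
    (hNX : Real.log X / (8 * B) ≤ Real.log N) (hNX2 : Real.log N ≤ β * Real.log X) :
    (nb V b z X N ((N : ℝ) ^ (1 - θ)) : ℝ) ≤
      (d : ℝ) ^ (2 * (16 * B)) * (4 * C * (16 * B).factorial + 2) *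
        Real.exp (Real.log X * (5 / 8)) := by
  generalize hL' : Real.log (X : ℝ) = L at *
  generalize hl' : Real.log (N : ℝ) = l at *
  have hL := hL'.symm
  have hl := hl'.symm
  have hd1 := h.one_le_d
  have hB1 := h.one_le_B
  have hC0 := h.hC
  have hl0 : 0 < l := lt_of_lt_of_le (by positivity) hNX
  have hN0 : (0 : ℝ) < N := by
    by_contra hcon
    have : (N : ℝ) = 0 := le_antisymm (not_lt.1 hcon) (Nat.cast_nonneg _)
    rw [hl, this, Real.log_zero] at hl0
    linarith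
  have hX0 : (0 : ℝ) < X := by
    by_contra hcon
    have : (X : ℝ) = 0 := le_antisymm (not_lt.1 hcon) (Nat.cast_nonneg _)
    rw [hL, this, Real.log_zero] at hX
    linarith
  have hXL : (X : ℝ) = Real.exp L := by rw [hL]; exact (Real.exp_log hX0).symm
  have hNl : (N : ℝ) = Real.exp l := by rw [hl]; exact (Real.exp_log hN0).symm
  obtain ⟨r, hr⟩ : ∃ r : ℕ, r = 16 * B := ⟨_, rfl⟩
  rw [← hr]
  have hrr : (r : ℝ) = 16 * B := by rw [hr]; push_cast; ring
  have hrl : 2 * L ≤ r * l := by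
    rw [div_le_iff₀ (by positivity)] at hNX
    rw [hrr]
    linarith
  obtain ⟨η, hη⟩ : ∃ η : ℝ, η = Real.exp (-(L / 2)) := ⟨_, rfl⟩
  have hη0 : 0 < η := by rw [hη]; exact Real.exp_pos _
  obtain ⟨s, hs⟩ : ∃ s : ℝ, s = Real.sqrt ((N : ℝ) ^ r) := ⟨_, rfl⟩
  have hNr : (N : ℝ) ^ r = Real.exp (r * l) := by
    rw [hNl, ← Real.exp_nat_mul]
  have hs1 : s = Real.exp (r * l / 2) := by
    rw [hs, hNr, Real.sqrt_eq_rpow, ← Real.exp_mul]
    congr 1; ring
  have hs2 : 1 ≤ s := by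
    rw [hs1]
    apply Real.one_le_exp
    positivity
  have hs3 : 1 ≤ s * η := by
    rw [hs1, hη, ← Real.exp_add]
    apply Real.one_le_exp
    linarith
  have hss : s * s = (N : ℝ) ^ r := by rw [hs]; exact Real.mul_self_sqrt (by positivity)
  obtain ⟨T, hT⟩ : ∃ T : ℝ, T = (N : ℝ) ^ (1 - θ) := ⟨_, rfl⟩
  rw [← hT]
  have hT0 : 0 < T := by rw [hT]; exact Real.rpow_pos_of_pos hN0 _
  have hbad : (nb V b z X N T : ℝ) * T ^ (2 * r) ≤
      X * (close (V N) z r η).card + 2 / η * ((V N).card : ℝ) ^ (2 * r) :=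
    bad_le (V N) b z (fun v _ => hb v) (fun v _ => h.unit v) X r η hη0 T hT0.le
  have hcard : ((V N).card : ℝ) ≤ d * N := by exact_mod_cast h.card_le N
  have hclr0 := h.large N r η hη0.le
  rw [← hs] at hclr0
  have hc0 : (0 : ℝ) ≤ ((V N).card : ℝ) := Nat.cast_nonneg _
  have hq0 : (0 : ℝ) ≤ ((close (V N) z r η).card : ℝ) := Nat.cast_nonneg _
  have hn0 : (0 : ℝ) ≤ (nb V b z X N T : ℝ) := Nat.cast_nonneg _
  generalize (nb V b z X N T : ℝ) = nbad at *
  generalize ((V N).card : ℝ) = c at *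
  generalize ((close (V N) z r η).card : ℝ) = q at *
  have hclr : q ≤
      (d : ℝ) ^ (2 * r) * (4 * C * r.factorial) * ((N : ℝ) ^ (2 * r) * η) := by
    refine hclr0.trans ?_
    calc c ^ r * ((d : ℝ) ^ r * r.factorial) * (C * ((s + 1) * (s * η + 1)))
        ≤ (d * (N : ℝ)) ^ r * ((d : ℝ) ^ r * r.factorial) * (C * ((2 * s) * (2 * (s * η)))) := by
          gcongr
          · linarith
          · linarith
      _ = (d : ℝ) ^ (2 * r) * (4 * C * r.factorial) * ((N : ℝ) ^ r * (s * s) * η) := by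
          rw [mul_pow, two_mul r, pow_add]; ring
      _ = _ := by rw [hss, ← pow_add, two_mul r]
  have hTr : T ^ (2 * r) * Real.exp (2 * r * l * θ) = (N : ℝ) ^ (2 * r) := by
    rw [hT, hNl, ← Real.exp_mul, ← Real.exp_nat_mul, ← Real.exp_nat_mul, ← Real.exp_add]
    congr 1
    push_cast
    ring
  have h1 : nbad * T ^ (2 * r) ≤
      (d : ℝ) ^ (2 * r) * (4 * C * r.factorial + 2) * Real.exp (L / 2) * (N : ℝ) ^ (2 * r) := by
    refine hbad.trans ?_
    have e1 : X * q ≤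
        X * ((d : ℝ) ^ (2 * r) * (4 * C * r.factorial) * ((N : ℝ) ^ (2 * r) * η)) := by gcongr
    have e2 : (X : ℝ) * η = Real.exp (L / 2) := by
      rw [hXL, hη, ← Real.exp_add]; congr 1; ring
    have e3 : 2 / η = 2 * Real.exp (L / 2) := by
      rw [hη, Real.exp_neg]; field_simp
    have e4 : c ^ (2 * r) ≤ (d : ℝ) ^ (2 * r) * (N : ℝ) ^ (2 * r) := by
      rw [← mul_pow]; gcongr
    calc _ ≤ X * ((d : ℝ) ^ (2 * r) * (4 * C * r.factorial) * ((N : ℝ) ^ (2 * r) * η)) +
          2 / η * ((d : ℝ) ^ (2 * r) * (N : ℝ) ^ (2 * r)) := by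
          refine add_le_add e1 ?_
          gcongr
      _ = (d : ℝ) ^ (2 * r) * (4 * C * r.factorial) * (N : ℝ) ^ (2 * r) * (X * η) +
          2 / η * ((d : ℝ) ^ (2 * r) * (N : ℝ) ^ (2 * r)) := by ring
      _ = _ := by rw [e2, e3]; ring
  have h2 : nbad ≤
      (d : ℝ) ^ (2 * r) * (4 * C * r.factorial + 2) * (Real.exp (L / 2) * Real.exp (2 * r * l * θ)) := by
    have hTp : 0 < T ^ (2 * r) := by positivity
    refine le_of_mul_le_mul_right (h1.trans (le_of_eq ?_)) hTp
    rw [← hTr]; ring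
  refine h2.trans ?_
  have h3 : Real.exp (L / 2) * Real.exp (2 * r * l * θ) ≤ Real.exp (L * (5 / 8)) := by
    rw [← Real.exp_add]
    apply Real.exp_le_exp.2
    have h4 : 2 * r * l * θ ≤ 2 * r * (β * L) * θ := by gcongr
    have h5 : 2 * r * (β * L) * θ = (θ * (256 * B * β)) * (L / 8) := by rw [hrr]; ring
    have h6 : (θ * (256 * B * β)) * (L / 8) ≤ 1 * (L / 8) := by gcongr
    linarith
  gcongr

end

end Pool.Agent.H4.Mom
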