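import Pool.Agent.H4.Hk

/-! The number of ideals with `ψ(𝔞)` in a short arc. -/

set_option autoImplicit false

namespace Pool.Agent.H4.Hk

open Pool.Agent.H4 (IsHecke)

open Finset NumberField ComplexConjugate

section circle

theorem abs_le_of_norm_exp {r η : ℝ} (hr : |r| ≤ Real.pi)
    (h : ‖Complex.exp (Complex.I * r) - 1‖ ≤ η) : |r| ≤ 2 * η := by
  rw [Complex.norm_exp_I_mul_ofReal_sub_one, norm_mul, Real.norm_eq_abs, Real.norm_eq_abs,
    abs_of_pos (by norm_num : (0 : ℝ) < 2)] at h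
  have hpi := Real.pi_pos
  have h1 : 2 / Real.pi * (|r| / 2) ≤ Real.sin (|r| / 2) :=
    Real.mul_le_sin (by positivity) (by linarith)
  have h2 : Real.sin (|r| / 2) ≤ |Real.sin (r / 2)| := by
    rcases abs_cases r with ⟨h3, _⟩ | ⟨h3, _⟩
    · rw [h3]; exact le_abs_self _
    · rw [h3, neg_div, Real.sin_neg]; exact neg_le_abs _
  have h3 : 2 / Real.pi * (|r| / 2) = |r| / Real.pi := by field_simp
  rw [h3] at h1
  have h4 : |r| / Real.pi ≤ η / 2 := by linarith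
  rw [div_le_iff₀ hpi] at h4
  have h5 : Real.pi ≤ 4 := Real.pi_le_four
  have h6 : 0 ≤ η := by
    have := abs_nonneg (Real.sin (r / 2))
    linarith
  nlinarith

/-- the `n`-th roots of unity, with repetitions -/
noncomputable def ze (n : ℕ) (k : ℤ) : ℂ := Complex.exp (Complex.I * ((2 * Real.pi * k / n : ℝ) : ℂ))

theorem norm_ze (n : ℕ) (k : ℤ) : ‖ze n k‖ = 1 := Complex.norm_exp_I_mul_ofReal _

theorem exists_root {n : ℕ} (hn : 0 < n) {s : ℂ} (hs : ‖s‖ = 1) {η : ℝ} (h : ‖s ^ n - 1‖ ≤ η) :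
    ∃ k ∈ Icc (-(n : ℤ)) n, ‖s - ze n k‖ ≤ 2 * η := by
  have hpi := Real.pi_pos
  have hn' : (0 : ℝ) < n := by exact_mod_cast hn
  set θ : ℝ := s.arg with hθ
  have hsθ : s = Complex.exp (Complex.I * θ) := by
    have := Complex.norm_mul_exp_arg_mul_I s
    rw [hs, Complex.ofReal_one, one_mul] at this
    rw [mul_comm, hθ, this]
  set k : ℤ := round (n * θ / (2 * Real.pi)) with hk
  set r : ℝ := n * θ - 2 * Real.pi * k with hr
  have hr1 : |r| ≤ Real.pi := by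
    have h1 := abs_sub_round (n * θ / (2 * Real.pi))
    have h2 : r = 2 * Real.pi * (n * θ / (2 * Real.pi) - k) := by
      rw [hr]; field_simp
    rw [h2, abs_mul, abs_of_pos (by positivity : 0 < 2 * Real.pi)]
    calc 2 * Real.pi * |n * θ / (2 * Real.pi) - k| ≤ 2 * Real.pi * (1 / 2) := by gcongr
      _ = Real.pi := by ring
  have hsn : s ^ n = Complex.exp (Complex.I * r) := by
    rw [hsθ, ← Complex.exp_nat_mul]
    have e1 : (n : ℂ) * (Complex.I * θ) = Complex.I * r + k * (2 * Real.pi * Complex.I) := by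
      rw [hr]; push_cast; ring
    rw [e1, Complex.exp_add, Complex.exp_int_mul_two_pi_mul_I, mul_one]
  rw [hsn] at h
  have hr2 := abs_le_of_norm_exp hr1 h
  refine ⟨k, ?_, ?_⟩
  · have ha1 := Complex.arg_le_pi s
    have ha2 := Complex.neg_pi_lt_arg s
    have hle : |n * θ / (2 * Real.pi)| ≤ n / 2 := by
      rw [abs_div, abs_mul, abs_of_pos hn', abs_of_pos (by positivity : 0 < 2 * Real.pi),
        div_le_iff₀ (by positivity)]
      have : |θ| ≤ Real.pi := abs_le.2 ⟨ha2.le, ha1⟩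
      calc n * |θ| ≤ n * Real.pi := by gcongr
        _ = n / 2 * (2 * Real.pi) := by ring
    have h1 := abs_sub_round (n * θ / (2 * Real.pi))
    rw [← hk] at h1
    have h2 : |(k : ℝ)| ≤ n / 2 + 1 / 2 := by
      have h3 : (k : ℝ) = n * θ / (2 * Real.pi) - (n * θ / (2 * Real.pi) - k) := by ring
      rw [h3]
      exact (abs_sub _ _).trans (add_le_add hle h1)
    have h4 : (1 : ℝ) ≤ n := by exact_mod_cast hn
    have h5 : |(k : ℝ)| ≤ n := by linarith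
    rw [abs_le] at h5
    rw [mem_Icc]
    constructor
    · exact_mod_cast h5.1
    · exact_mod_cast h5.2
  · have h1 : s = ze n k * Complex.exp (Complex.I * ((r / n : ℝ) : ℂ)) := by
      unfold ze
      rw [← Complex.exp_add, hsθ, ← mul_add, ← Complex.ofReal_add]
      have e2 : 2 * Real.pi * k / n + r / n = θ := by
        rw [hr]; field_simp; ring
      rw [e2]
    have h2 : s - ze n k = ze n k * (Complex.exp (Complex.I * ((r / n : ℝ) : ℂ)) - 1) := by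
      rw [mul_sub, mul_one, ← h1]
    rw [h2, norm_mul, norm_ze, one_mul]
    refine Real.norm_exp_I_mul_ofReal_sub_one_le.trans ?_
    rw [Real.norm_eq_abs, abs_div, abs_of_pos hn']
    have h4 : (1 : ℝ) ≤ n := by exact_mod_cast hn
    exact (div_le_self (abs_nonneg _) h4).trans hr2

end circle

section

variable {F : Type} [Field F] [NumberField F]
variable {𝔪 : Ideal (𝓞 F)} {σ : F →+* ℂ} {m : ℕ} {ψ : Ideal (𝓞 F) → Circle}

theorem card_floor_le {a : ℝ} (ha : 0 ≤ a) : ((Icc ⌊-a⌋ ⌊a⌋).card : ℝ) ≤ 2 * a + 2 := by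
  rw [Int.card_Icc]
  have h1 := Int.floor_le a
  have h2 := Int.sub_one_lt_floor (-a)
  have h3 : (0 : ℤ) ≤ ⌊a⌋ + 1 - ⌊-a⌋ := by
    have : ⌊-a⌋ ≤ ⌊a⌋ := Int.floor_le_floor (by linarith)
    omega
  have h4 : (((⌊a⌋ + 1 - ⌊-a⌋).toNat : ℤ) : ℝ) = ((⌊a⌋ + 1 - ⌊-a⌋ : ℤ) : ℝ) := by
    rw [Int.toNat_of_nonneg h3]
  have h5 : (((⌊a⌋ + 1 - ⌊-a⌋).toNat : ℕ) : ℝ) = ((⌊a⌋ + 1 - ⌊-a⌋ : ℤ) : ℝ) := by
    rw [← h4, Int.cast_natCast]
  rw [h5]
  push_cast
  linarith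

/-- integers in a thin rectangle -/
theorem card_rect (hF : Module.finrank ℚ F = 2) (hσ : ¬ ComplexEmbedding.IsReal σ) {R Δ : ℝ}
    (hR : 0 ≤ R) (hΔ : 0 ≤ Δ) {w : ℂ} (hw : ‖w‖ = 1) (T : Finset (𝓞 F))
    (hT : ∀ γ ∈ T, ‖σ γ‖ ≤ R ∧ |(σ γ * conj w).im| ≤ Δ) :
    (T.card : ℝ) ≤ (4 * R + 2) * (4 * Δ + 2) := by
  classical
  let f : 𝓞 F → ℤ × ℤ := fun γ => (⌊2 * (σ γ * conj w).re⌋, ⌊2 * (σ γ * conj w).im⌋)
  have hmaps : ∀ γ ∈ T, f γ ∈ (Icc ⌊-(2 * R)⌋ ⌊2 * R⌋) ×ˢ (Icc ⌊-(2 * Δ)⌋ ⌊2 * Δ⌋) := by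
    intro γ hγ
    obtain ⟨h1, h2⟩ := hT γ hγ
    have h3 : |(σ γ * conj w).re| ≤ R := by
      refine (Complex.abs_re_le_norm _).trans ?_
      rw [norm_mul, Complex.norm_conj, hw, mul_one]
      exact h1
    rw [abs_le] at h2 h3
    rw [mem_product, mem_Icc, mem_Icc]
    exact ⟨⟨Int.floor_le_floor (by linarith), Int.floor_le_floor (by linarith)⟩,
      ⟨Int.floor_le_floor (by linarith), Int.floor_le_floor (by linarith)⟩⟩
  have hinj : Set.InjOn f T := by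
    intro γ _ γ' _ h
    simp only [f, Prod.mk.injEq] at h
    have h1 := Int.abs_sub_lt_one_of_floor_eq_floor h.1
    have h2 := Int.abs_sub_lt_one_of_floor_eq_floor h.2
    by_contra hne
    have h3 : 1 ≤ ‖σ ((γ - γ' : 𝓞 F) : F)‖ := one_le_norm hF hσ (sub_ne_zero.2 hne)
    have h4 : ‖σ ((γ - γ' : 𝓞 F) : F)‖ = ‖(σ γ * conj w) - (σ γ' * conj w)‖ := by
      rw [← sub_mul, norm_mul, Complex.norm_conj, hw, mul_one]
      push_cast
      rw [map_sub]
    rw [h4] at h3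
    have h5 : ‖(σ γ * conj w) - (σ γ' * conj w)‖ ^ 2 =
        ((σ γ * conj w).re - (σ γ' * conj w).re) ^ 2 +
        ((σ γ * conj w).im - (σ γ' * conj w).im) ^ 2 := by
      rw [← Complex.normSq_eq_norm_sq, Complex.normSq_apply, Complex.sub_re, Complex.sub_im]
      ring
    have h6 : (1 : ℝ) ≤ ‖(σ γ * conj w) - (σ γ' * conj w)‖ ^ 2 := by nlinarith
    rw [h5] at h6
    rw [abs_lt] at h1 h2
    nlinarith
  have h1 := card_le_card_of_injOn f hmaps hinj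
  rw [card_product] at h1
  have h2 : (T.card : ℝ) ≤ ((Icc ⌊-(2 * R)⌋ ⌊2 * R⌋).card : ℝ) * ((Icc ⌊-(2 * Δ)⌋ ⌊2 * Δ⌋).card : ℝ) := by
    exact_mod_cast h1
  refine h2.trans ?_
  have h3 := card_floor_le (a := 2 * R) (by linarith)
  have h4 := card_floor_le (a := 2 * Δ) (by linarith)
  calc _ ≤ (2 * (2 * R) + 2) * (2 * (2 * Δ) + 2) := by gcongr
    _ = _ := by ring

end

end Pool.Agent.H4.Hk
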