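import Pool.Agent.H4.Sec

/-! The number of ideals with `ψ(𝔞)` in a short arc, continued. -/

set_option autoImplicit false

namespace Pool.Agent.H4.Hk

open Pool.Agent.H4 (IsHecke)

open Finset NumberField ComplexConjugate

section

variable {F : Type} [Field F] [NumberField F]
variable {𝔪 : Ideal (𝓞 F)} {σ : F →+* ℂ} {m : ℕ} {ψ : Ideal (𝓞 F) → Circle}

theorem exists_phi {𝔪 : Ideal (𝓞 F)} (hm : 𝔪 ≠ ⊥) : ∃ φ : ℕ, 0 < φ ∧ ∀ γ : 𝓞 F,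
    IsCoprime (Ideal.span {γ}) 𝔪 → γ ^ φ - 1 ∈ 𝔪 := by
  classical
  have : Finite (𝓞 F ⧸ 𝔪) := Ideal.finiteQuotientOfFreeOfNeBot _ hm
  have : Finite (𝓞 F ⧸ 𝔪)ˣ := inferInstance
  refine ⟨Nat.card (𝓞 F ⧸ 𝔪)ˣ, Nat.card_pos, fun α hcop => ?_⟩
  rw [Ideal.isCoprime_iff_exists] at hcop
  obtain ⟨i, hi, j, hj, hij⟩ := hcop
  rw [Ideal.mem_span_singleton'] at hi
  obtain ⟨c, rfl⟩ := hi
  have hu : IsUnit (Ideal.Quotient.mk 𝔪 α) := by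
    apply IsUnit.of_mul_eq_one (Ideal.Quotient.mk 𝔪 c)
    rw [← map_mul, ← map_one (Ideal.Quotient.mk 𝔪), Ideal.Quotient.eq]
    have : α * c - 1 = - j := by rw [← hij]; ring
    rw [this]
    exact 𝔪.neg_mem hj
  obtain ⟨u, hu⟩ := hu
  have h4 : (Ideal.Quotient.mk 𝔪 α) ^ Nat.card (𝓞 F ⧸ 𝔪)ˣ = 1 := by
    rw [← hu, ← Units.val_pow_eq_pow_val, pow_card_eq_one', Units.val_one]
  rwa [← map_pow, ← map_one (Ideal.Quotient.mk 𝔪), Ideal.Quotient.eq] at h4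

theorem exists_nth_root {n : ℕ} (hn : 0 < n) {u : ℂ} (hu : ‖u‖ = 1) :
    ∃ w : ℂ, ‖w‖ = 1 ∧ w ^ n = u := by
  refine ⟨Complex.exp (Complex.I * ((u.arg / n : ℝ) : ℂ)), Complex.norm_exp_I_mul_ofReal _, ?_⟩
  rw [← Complex.exp_nat_mul]
  have h1 : (n : ℂ) * (Complex.I * ((u.arg / n : ℝ) : ℂ)) = u.arg * Complex.I := by
    have : (n : ℂ) ≠ 0 := by exact_mod_cast hn.ne'
    push_cast
    field_simp
  rw [h1]
  have := Complex.norm_mul_exp_arg_mul_I u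
  rwa [hu, Complex.ofReal_one, one_mul] at this

theorem card_gen (hF : Module.finrank ℚ F = 2) (hσ : ¬ ComplexEmbedding.IsReal σ)
    (h : IsHecke F 𝔪 σ m ψ) (hm : 0 < m) {φ : ℕ} (hφ : 0 < φ)
    (hφ' : ∀ γ : 𝓞 F, IsCoprime (Ideal.span {γ}) 𝔪 → γ ^ φ - 1 ∈ 𝔪)
    {R η : ℝ} (hR : 0 ≤ R) (hη : 0 ≤ η) {u : ℂ} (hu : ‖u‖ = 1) (T : Finset (𝓞 F))
    (hT : ∀ γ ∈ T, γ ≠ 0 ∧ IsCoprime (Ideal.span {γ}) 𝔪 ∧ ‖σ γ‖ ≤ R ∧
      ‖(ψ (Ideal.span {γ}) : ℂ) - u‖ ≤ η) :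
    (T.card : ℝ) ≤ (2 * (m * φ : ℕ) + 1) * ((4 * R + 2) * (4 * (R * (2 * (φ * η))) + 2)) := by
  classical
  have hn : 0 < m * φ := Nat.mul_pos hm hφ
  obtain ⟨w, hw, hwn⟩ := exists_nth_root hn (u := u ^ φ) (by rw [norm_pow, hu, one_pow])
  have hw0 : w ≠ 0 := by
    intro h0
    rw [h0, norm_zero] at hw
    norm_num at hw
  set Tk : ℤ → Finset (𝓞 F) := fun k =>
    T.filter fun γ => |(σ γ * conj (ze (m * φ) k * w)).im| ≤ R * (2 * (φ * η)) with hTk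
  have hcov : T ⊆ (Icc (-((m * φ : ℕ) : ℤ)) ((m * φ : ℕ) : ℤ)).biUnion Tk := by
    intro γ hγ
    obtain ⟨h0, hc, hR1, hη1⟩ := hT γ hγ
    have hg1 : 1 ≤ ‖σ γ‖ := one_le_norm hF hσ h0
    have hg0 : (‖σ γ‖ : ℂ) ≠ 0 := by
      have : ‖σ γ‖ ≠ 0 := by linarith
      exact_mod_cast this
    set t : ℂ := σ γ / ‖σ γ‖ with ht
    have htn : ‖t‖ = 1 := by
      rw [ht, norm_div, Complex.norm_real, norm_norm, div_self]
      linarith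
    have h1 := h.principal (γ ^ φ) (pow_ne_zero _ h0) (hφ' γ hc)
    have h2 := h.pow hc φ
    rw [Ideal.span_singleton_pow] at h2
    rw [h2] at h1
    push_cast at h1
    rw [map_pow, norm_pow] at h1
    have h3 : t ^ (m * φ) = (ψ (Ideal.span {γ}) : ℂ) ^ φ := by
      rw [h1, ht, mul_comm m φ, pow_mul, div_pow, div_pow, div_pow]
      push_cast
      rfl
    have h4 : ‖(t / w) ^ (m * φ) - 1‖ ≤ φ * η := by
      have e : (t / w) ^ (m * φ) - 1 = ((ψ (Ideal.span {γ}) : ℂ) ^ φ - u ^ φ) / w ^ (m * φ) := by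
        rw [div_pow, h3, hwn, sub_div, div_self]
        rw [← hwn]
        exact pow_ne_zero _ hw0
      rw [e, norm_div, norm_pow, hw, one_pow, div_one]
      refine (norm_pow_sub_le (Circle.norm_coe _) hu φ).trans ?_
      gcongr
    obtain ⟨k, hk, hk2⟩ := exists_root hn (s := t / w) (by rw [norm_div, htn, hw, div_one]) h4
    rw [mem_biUnion]
    refine ⟨k, hk, ?_⟩
    rw [hTk]
    simp only
    rw [mem_filter]
    refine ⟨hγ, ?_⟩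
    set w' : ℂ := ze (m * φ) k * w with hw'
    have hw'1 : ‖w'‖ = 1 := by rw [hw', norm_mul, norm_ze, hw, mul_one]
    have h5 : ‖t - w'‖ ≤ 2 * (φ * η) := by
      have e : t - w' = (t / w - ze (m * φ) k) * w := by
        rw [hw', sub_mul, div_mul_cancel₀ _ hw0]
      rw [e, norm_mul, hw, mul_one]
      exact hk2
    have h6 : (σ γ * conj w').im = ‖σ γ‖ * ((t - w') * conj w').im := by
      have e1 : w' * conj w' = 1 := by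
        rw [Complex.mul_conj, Complex.normSq_eq_norm_sq, hw'1]
        simp
      have e2 : σ γ = (‖σ γ‖ : ℂ) * t := by rw [ht]; field_simp
      have e3 : σ γ * conj w' = (‖σ γ‖ : ℂ) * ((t - w') * conj w') + (‖σ γ‖ : ℂ) := by
        conv_lhs => rw [e2]
        rw [sub_mul, e1]
        ring
      rw [e3, Complex.add_im, Complex.ofReal_im, add_zero, Complex.im_ofReal_mul]
    rw [h6, abs_mul, abs_of_nonneg (norm_nonneg _)]
    have h7 : |((t - w') * conj w').im| ≤ 2 * (φ * η) := by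
      refine (Complex.abs_im_le_norm _).trans ?_
      rw [norm_mul, Complex.norm_conj, hw'1, mul_one]
      exact h5
    gcongr
  have h1 : (T.card : ℝ) ≤ ∑ k ∈ Icc (-((m * φ : ℕ) : ℤ)) ((m * φ : ℕ) : ℤ), ((Tk k).card : ℝ) := by
    exact_mod_cast (card_le_card hcov).trans card_biUnion_le
  refine h1.trans ?_
  have h2 : ∀ k ∈ Icc (-((m * φ : ℕ) : ℤ)) ((m * φ : ℕ) : ℤ), ((Tk k).card : ℝ) ≤
      (4 * R + 2) * (4 * (R * (2 * (φ * η))) + 2) := by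
    intro k _
    refine card_rect hF hσ hR (by positivity) (w := ze (m * φ) k * w)
      (by rw [norm_mul, norm_ze, hw, mul_one]) (Tk k) fun γ hγ => ?_
    rw [hTk] at hγ
    simp only at hγ
    rw [mem_filter] at hγ
    exact ⟨(hT γ hγ.1).2.2.1, hγ.2⟩
  refine (sum_le_card_nsmul _ _ _ h2).trans ?_
  rw [nsmul_eq_mul, Int.card_Icc]
  apply le_of_eq
  congr 1
  have h3 : ((((m * φ : ℕ) : ℤ) + 1 - -((m * φ : ℕ) : ℤ)).toNat) = 2 * (m * φ) + 1 := by omega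
  rw [h3]
  push_cast
  ring

/-- representatives -/
theorem exists_rep (𝔪 : Ideal (𝓞 F)) : ∃ rep : ClassGroup (𝓞 F) → Ideal (𝓞 F), ∀ c, rep c ≠ ⊥ ∧
    IsCoprime (rep c) 𝔪 ∧ ∀ 𝔞 : Ideal (𝓞 F), ∀ h0 : 𝔞 ∈ nonZeroDivisors (Ideal (𝓞 F)),
      IsCoprime 𝔞 𝔪 → ClassGroup.mk0 ⟨𝔞, h0⟩ = c → ∃ γ : 𝓞 F, 𝔞 * rep c = Ideal.span {γ} := by
  classical
  have h : ∀ c : ClassGroup (𝓞 F), ∃ 𝔟 : Ideal (𝓞 F), 𝔟 ≠ ⊥ ∧
    IsCoprime 𝔟 𝔪 ∧ ∀ 𝔞 : Ideal (𝓞 F), ∀ h0 : 𝔞 ∈ nonZeroDivisors (Ideal (𝓞 F)),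
      IsCoprime 𝔞 𝔪 → ClassGroup.mk0 ⟨𝔞, h0⟩ = c → ∃ γ : 𝓞 F, 𝔞 * 𝔟 = Ideal.span {γ} := by
    intro c
    by_cases hc : ∃ 𝔞 : Ideal (𝓞 F), ∃ h0 : 𝔞 ∈ nonZeroDivisors (Ideal (𝓞 F)),
      IsCoprime 𝔞 𝔪 ∧ ClassGroup.mk0 ⟨𝔞, h0⟩ = c
    · obtain ⟨𝔞₀, h0, hcop, hcl⟩ := hc
      refine ⟨𝔞₀ ^ (Fintype.card (ClassGroup (𝓞 F)) - 1), pow_ne_zero _ (nonZeroDivisors.ne_zero h0),
        hcop.pow_left, fun 𝔞 h1 _ h2 => ?_⟩
      have h3 : ClassGroup.mk0 (⟨𝔞, h1⟩ * ⟨𝔞₀, h0⟩ ^ (Fintype.card (ClassGroup (𝓞 F)) - 1)) = 1 := by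
        rw [map_mul, map_pow, h2, hcl, ← pow_succ']
        have : Fintype.card (ClassGroup (𝓞 F)) - 1 + 1 = Fintype.card (ClassGroup (𝓞 F)) :=
          Nat.succ_pred_eq_of_pos Fintype.card_pos
        rw [this, pow_card_eq_one]
      have h4 : (𝔞 * 𝔞₀ ^ (Fintype.card (ClassGroup (𝓞 F)) - 1)).IsPrincipal :=
        (ClassGroup.mk0_eq_one_iff (mul_mem h1 (pow_mem h0 _))).1 h3
      obtain ⟨γ, hγ⟩ := h4
      exact ⟨γ, hγ⟩
    · refine ⟨⊤, top_ne_bot, ?_, fun 𝔞 h0 h1 h2 => (hc ⟨𝔞, h0, h1, h2⟩).elim⟩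
      rw [← Ideal.one_eq_top]
      exact isCoprime_one_left
  choose rep hrep using h
  exact ⟨rep, hrep⟩

/-- **Ideals with `ψ(𝔞)` in a short arc.** -/
theorem card_arc (hF : Module.finrank ℚ F = 2) (hσ : ¬ ComplexEmbedding.IsReal σ)
    (h : IsHecke F 𝔪 σ m ψ) (hm : 0 < m) (h𝔪 : 𝔪 ≠ ⊥) :
    ∃ C : ℝ, 0 < C ∧ ∀ R η : ℝ, 0 ≤ R → 0 ≤ η → ∀ u : ℂ, ‖u‖ = 1 → ∀ T : Finset (Ideal (𝓞 F)),
      (∀ 𝔞 ∈ T, 𝔞 ≠ ⊥ ∧ IsCoprime 𝔞 𝔪 ∧ (Ideal.absNorm 𝔞 : ℝ) ≤ R ^ 2 ∧ ‖(ψ 𝔞 : ℂ) - u‖ ≤ η) →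
        (T.card : ℝ) ≤ C * ((R + 1) * (R * η + 1)) := by
  classical
  obtain ⟨φ, hφ, hφ'⟩ := exists_phi h𝔪
  obtain ⟨rep, hrep⟩ := exists_rep 𝔪
  -- the bound for the representatives
  obtain ⟨B, hB1, hB⟩ : ∃ B : ℝ, 1 ≤ B ∧ ∀ c, (Ideal.absNorm (rep c) : ℝ) ≤ B ^ 2 := by
    refine ⟨1 + ∑ c, (Ideal.absNorm (rep c) : ℝ), ?_, fun c => ?_⟩
    · have : 0 ≤ ∑ c, (Ideal.absNorm (rep c) : ℝ) := sum_nonneg fun _ _ => by positivity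
      linarith
    · have h1 : (Ideal.absNorm (rep c) : ℝ) ≤ ∑ c, (Ideal.absNorm (rep c) : ℝ) :=
        single_le_sum (f := fun c => (Ideal.absNorm (rep c) : ℝ)) (fun _ _ => by positivity)
          (mem_univ c)
      have h2 : (0 : ℝ) ≤ (Ideal.absNorm (rep c) : ℝ) := by positivity
      nlinarith
  set nc : ℝ := (Fintype.card (ClassGroup (𝓞 F)) : ℝ) with hnc
  have hnc0 : 0 < nc := by
    rw [hnc]
    exact_mod_cast Fintype.card_pos (α := ClassGroup (𝓞 F))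
  have hφr : (1 : ℝ) ≤ φ := by exact_mod_cast hφ
  refine ⟨nc * ((2 * (m * φ : ℕ) + 1) * ((4 * B) * (8 * φ * B))), by positivity,
    fun R η hR hη u hu T hT => ?_⟩
  -- the class function
  set cl : Ideal (𝓞 F) → ClassGroup (𝓞 F) := fun 𝔞 =>
    if h0 : 𝔞 ∈ nonZeroDivisors (Ideal (𝓞 F)) then ClassGroup.mk0 ⟨𝔞, h0⟩ else 1 with hcl
  have hsum : T.card = ∑ c, (T.filter fun 𝔞 => cl 𝔞 = c).card :=
    card_eq_sum_card_fiberwise fun _ _ => mem_coe.2 (mem_univ _)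
  have hone : ∀ c, ((T.filter fun 𝔞 => cl 𝔞 = c).card : ℝ) ≤
      (2 * (m * φ : ℕ) + 1) * ((4 * (R * B) + 2) * (4 * ((R * B) * (2 * (φ * η))) + 2)) := by
    intro c
    obtain ⟨hr0, hrc, hr⟩ := hrep c
    have hex : ∀ 𝔞 ∈ T.filter (fun 𝔞 => cl 𝔞 = c), ∃ γ : 𝓞 F, 𝔞 * rep c = Ideal.span {γ} := by
      intro 𝔞 ha
      rw [mem_filter] at ha
      obtain ⟨h0, h1, _, _⟩ := hT 𝔞 ha.1
      have h0' : 𝔞 ∈ nonZeroDivisors (Ideal (𝓞 F)) := mem_nonZeroDivisors_of_ne_zero h0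
      apply hr 𝔞 h0' h1
      have := ha.2
      rw [hcl] at this
      simpa only [h0', dite_true] using this
    set g : Ideal (𝓞 F) → 𝓞 F := fun 𝔞 =>
      if hh : ∃ γ : 𝓞 F, 𝔞 * rep c = Ideal.span {γ} then hh.choose else 0 with hg
    have hgs : ∀ 𝔞 ∈ T.filter (fun 𝔞 => cl 𝔞 = c), 𝔞 * rep c = Ideal.span {g 𝔞} := by
      intro 𝔞 ha
      have hh := hex 𝔞 ha
      rw [hg]
      simp only [hh, dite_true]
      exact hh.choose_spec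
    have hinj : Set.InjOn g (T.filter fun 𝔞 => cl 𝔞 = c) := by
      intro 𝔞 ha 𝔟 hb hab
      have e1 := hgs 𝔞 ha
      have e2 := hgs 𝔟 hb
      rw [hab, ← e2] at e1
      exact mul_right_cancel₀ hr0 e1
    rw [← card_image_of_injOn hinj]
    refine card_gen hF hσ h hm hφ hφ' (by positivity) hη (u := u * ψ (rep c))
      (by rw [norm_mul, hu, Circle.norm_coe, mul_one]) _ fun γ hγ => ?_
    rw [mem_image] at hγ
    obtain ⟨𝔞, ha, rfl⟩ := hγ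
    have e1 := hgs 𝔞 ha
    rw [mem_filter] at ha
    obtain ⟨h0, h1, h2, h3⟩ := hT 𝔞 ha.1
    have hne : g 𝔞 ≠ 0 := by
      intro hg0
      rw [hg0, Ideal.span_singleton_eq_bot.2 rfl] at e1
      exact mul_ne_zero h0 hr0 e1
    refine ⟨hne, ?_, ?_, ?_⟩
    · rw [← e1]
      exact IsCoprime.mul_left h1 hrc
    · have h4 := norm_sq hF hσ (g 𝔞)
      rw [← e1, map_mul] at h4
      push_cast at h4
      have h5 : ‖σ (g 𝔞)‖ ^ 2 ≤ (R * B) ^ 2 := by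
        rw [h4, mul_pow]
        exact mul_le_mul h2 (hB c) (by positivity) (by positivity)
      exact le_of_sq_le_sq h5 (by positivity)
    · rw [← e1, h.mul _ _ h1 hrc]
      push_cast
      rw [← sub_mul, norm_mul, Circle.norm_coe, mul_one]
      exact h3
  have h1 : (T.card : ℝ) = ∑ c, ((T.filter fun 𝔞 => cl 𝔞 = c).card : ℝ) := by exact_mod_cast hsum
  rw [h1]
  refine (sum_le_card_nsmul _ _ _ fun c _ => hone c).trans ?_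
  rw [nsmul_eq_mul, card_univ, ← hnc]
  have h2 : 4 * (R * B) + 2 ≤ 4 * B * (R + 1) := by nlinarith
  have h3 : 4 * ((R * B) * (2 * (φ * η))) + 2 ≤ 8 * φ * B * (R * η + 1) := by
    have : (2 : ℝ) ≤ 8 * φ * B := by nlinarith
    nlinarith
  have h4 : (4 * (R * B) + 2) * (4 * ((R * B) * (2 * (φ * η))) + 2) ≤
      (4 * B * (R + 1)) * (8 * φ * B * (R * η + 1)) := by
    apply mul_le_mul h2 h3 (by positivity) (by positivity)
  calc _ ≤ nc * ((2 * (m * φ : ℕ) + 1) * ((4 * B * (R + 1)) * (8 * φ * B * (R * η + 1)))) := by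
        apply mul_le_mul_of_nonneg_left _ hnc0.le
        exact mul_le_mul_of_nonneg_left h4 (by positivity)
    _ = _ := by ring

end

end Pool.Agent.H4.Hk
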