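import Pool.Agent.H4.Rg

/-! Power saving for almost all exponents, at all scales. -/

set_option autoImplicit false

namespace Pool.Agent.H4.Mom

open Finset Filter Topology

variable {ι : Type*} [DecidableEq ι] {V : ℕ → Finset ι} {z : ι → ℂ} {d B : ℕ} {C : ℝ}

theorem tendsto_logpow {A : ℝ} (hA : 0 < A) :
    Tendsto (fun X : ℕ => (Real.log X) ^ A) atTop atTop :=
  (tendsto_rpow_atTop hA).comp (Real.tendsto_log_atTop.comp tendsto_natCast_atTop_atTop)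

/-- one length -/
theorem Fam.perN (h : Fam V z d B C) {A β : ℝ} (hA : 1 < A) (hβ : 0 < β) :
    ∃ θ : ℝ, 0 < θ ∧ θ < 1 ∧ ∃ δ : ℝ, 0 < δ ∧ δ < 1 ∧ ∃ C' : ℝ, 0 < C' ∧ ∃ X₀ : ℕ,
      ∀ b : ι → ℂ, (∀ v, ‖b v‖ ≤ 1) → ∀ X N : ℕ, X₀ ≤ X → (Real.log X) ^ A ≤ N →
        (N : ℝ) ≤ (X : ℝ) ^ β → (nb V b z X N ((N : ℝ) ^ (1 - θ)) : ℝ) ≤ C' * (X : ℝ) ^ (1 - δ) := by
  have hd1 := h.one_le_d
  have hB1 := h.one_le_B
  have hC0 := h.hC
  have hA0 : 0 < A := by linarith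
  set τ : ℝ := 1 - 1 / A with hτ
  have hτ0 : 0 < τ := by
    rw [hτ, sub_pos, div_lt_one hA0]; exact hA
  have hτ1 : τ < 1 := by
    rw [hτ]
    have : 0 < 1 / A := by positivity
    linarith
  set ε : ℝ := τ / 4 with hε
  have hε0 : 0 < ε := by positivity
  set θ : ℝ := min (τ / 8) (1 / (256 * B * β)) with hθ
  have hθ0 : 0 < θ := by
    rw [hθ]; exact lt_min (by positivity) (by positivity)
  have hθ1 : θ ≤ τ / 8 := min_le_left _ _
  have hθ2 : θ * (256 * B * β) ≤ 1 := by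
    have : θ ≤ 1 / (256 * B * β) := min_le_right _ _
    rwa [le_div_iff₀ (by positivity)] at this
  set δ : ℝ := min (τ / (16 * B)) (3 / 8) with hδ
  have hδ0 : 0 < δ := lt_min (by positivity) (by norm_num)
  have hδ1 : δ ≤ 3 / 8 := min_le_right _ _
  set D : ℝ := (d : ℝ) ^ (2 * (16 * B)) * (4 * C * (16 * B).factorial + 2) with hD
  have hD0 : 0 < D := by positivity
  -- conditions for large X
  have e1 : ∀ᶠ X : ℕ in atTop, max 3 (Real.exp (Real.log (2 * d ^ 2) / ε)) ≤ (Real.log X) ^ A :=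
    (tendsto_logpow hA0).eventually_ge_atTop _
  have e2 : ∀ᶠ X : ℕ in atTop, max 1 (4 * Real.log (2 * B)) ≤ Real.log X :=
    (Real.tendsto_log_atTop.comp tendsto_natCast_atTop_atTop).eventually_ge_atTop _
  obtain ⟨X₀, hX₀⟩ := eventually_atTop.1 (e1.and e2)
  refine ⟨θ, hθ0, by linarith, δ, hδ0, by linarith, 3 + D, by positivity, X₀,
    fun b hb X N hX hN1 hN2 => ?_⟩
  obtain ⟨h1, h2⟩ := hX₀ X hX
  have hN3r : (3 : ℝ) ≤ N := (le_max_left _ _).trans (h1.trans hN1)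
  have hN3 : 3 ≤ N := by exact_mod_cast hN3r
  have hN0 : (0 : ℝ) < N := by linarith
  have hL1 : 1 ≤ Real.log X := (le_max_left _ _).trans h2
  have hX0 : (0 : ℝ) < X := by
    by_contra hcon
    have : (X : ℝ) = 0 := le_antisymm (not_lt.1 hcon) (Nat.cast_nonneg _)
    rw [this, Real.log_zero] at hL1
    linarith
  have hXe : (X : ℝ) ^ (1 - δ) = Real.exp (Real.log X * (1 - δ)) := Real.rpow_def_of_pos hX0 _
  rcases le_total (Real.log N) (Real.log X / (8 * B)) with hc | hc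
  · have hX1 : 2 * (B : ℝ) * Real.exp (-(Real.log X / 4)) ≤ 1 := by
      have h3 : 4 * Real.log (2 * B) ≤ Real.log X := (le_max_right _ _).trans h2
      have h4 : 2 * (B : ℝ) = Real.exp (Real.log (2 * B)) := (Real.exp_log (by positivity)).symm
      rw [h4, ← Real.exp_add]
      apply Real.exp_le_one_iff.2
      linarith
    have hNl : Real.log (2 * d ^ 2) ≤ ε * Real.log N := by
      have h3 : Real.exp (Real.log (2 * d ^ 2) / ε) ≤ N := (le_max_right _ _).trans (h1.trans hN1)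
      have h4 := (Real.le_log_iff_exp_le hN0).2 h3
      rw [div_le_iff₀ hε0] at h4
      linarith
    have h5 := h.range1 hb hA hτ hε hθ0 hθ1 hN3 hX1 hNl hN1 hc
    refine h5.trans ?_
    rw [hXe]
    have : 0 < Real.exp (Real.log X * (1 - δ)) := Real.exp_pos _
    nlinarith
  · have hNX2 : Real.log N ≤ β * Real.log X := by
      rw [← Real.log_rpow hX0]
      exact Real.log_le_log hN0 hN2
    have h5 := h.range2 hb hβ hθ0 hθ2 hL1 hc hNX2
    refine h5.trans ?_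
    rw [hXe, ← hD]
    have h6 : Real.exp (Real.log X * (5 / 8)) ≤ Real.exp (Real.log X * (1 - δ)) := by
      apply Real.exp_le_exp.2
      nlinarith
    have h7 : 0 < Real.exp (Real.log X * (1 - δ)) := Real.exp_pos _
    nlinarith

theorem Fam.tail (h : Fam V z d B C) {b : ι → ℂ} (hb : ∀ v, ‖b v‖ ≤ 1) {n N : ℕ} (hn : n ≤ N)
    (k : ℕ) : ‖S (V N) b z k‖ ≤ ‖S (V n) b z k‖ + d * ((N : ℝ) - n) := by
  have h1 : S (V N) b z k = S (V n) b z k + ∑ v ∈ V N \ V n, b v * z v ^ k := by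
    unfold S
    rw [add_comm, sum_sdiff (h.mono n N hn)]
  rw [h1]
  refine (norm_add_le _ _).trans (add_le_add le_rfl ?_)
  have h2 : ‖∑ v ∈ V N \ V n, b v * z v ^ k‖ ≤ ((V N \ V n).card : ℝ) := by
    refine (norm_sum_le _ _).trans ?_
    have : ∀ v ∈ V N \ V n, ‖b v * z v ^ k‖ ≤ 1 := by
      intro v _
      rw [norm_mul, norm_pow, h.unit v, one_pow, mul_one]
      exact hb v
    refine (sum_le_card_nsmul _ _ _ this).trans ?_
    simp
  refine h2.trans ?_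
  have h3 := h.incr n N hn
  have h4 : ((V N \ V n).card : ℝ) ≤ ((d * (N - n) : ℕ) : ℝ) := by exact_mod_cast h3
  rw [Nat.cast_mul, Nat.cast_sub hn] at h4
  exact h4

/-- the grid -/
theorem grid {Q N : ℕ} (hQ : 1 ≤ Q) (hN : 1 ≤ N) :
    ⌊Real.exp ((⌊(Q : ℝ) * Real.log N⌋₊ : ℝ) / Q)⌋₊ ≤ N ∧
    (N : ℝ) - ⌊Real.exp ((⌊(Q : ℝ) * Real.log N⌋₊ : ℝ) / Q)⌋₊ ≤ N / Q + 1 := by
  have hQr : (1 : ℝ) ≤ Q := by exact_mod_cast hQ
  have hNr : (1 : ℝ) ≤ N := by exact_mod_cast hN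
  have hl : 0 ≤ Real.log N := Real.log_nonneg hNr
  obtain ⟨i, hi⟩ : ∃ i : ℕ, i = ⌊(Q : ℝ) * Real.log N⌋₊ := ⟨_, rfl⟩
  rw [← hi]
  have h1 : (i : ℝ) ≤ Q * Real.log N := by rw [hi]; exact Nat.floor_le (by positivity)
  have h2 : (Q : ℝ) * Real.log N < i + 1 := by rw [hi]; exact Nat.lt_floor_add_one _
  have h3 : Real.exp ((i : ℝ) / Q) ≤ N := by
    rw [← Real.le_log_iff_exp_le (by linarith), div_le_iff₀ (by linarith)]
    linarith
  have h4 : (N : ℝ) * (1 - 1 / Q) ≤ Real.exp ((i : ℝ) / Q) := by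
    have h5 : Real.log N - 1 / Q ≤ (i : ℝ) / Q := by
      rw [sub_le_iff_le_add, ← add_div, le_div_iff₀ (by linarith)]
      linarith
    have h6 : Real.exp (Real.log N - 1 / Q) ≤ Real.exp ((i : ℝ) / Q) := Real.exp_le_exp.2 h5
    rw [Real.exp_sub, Real.exp_log (by linarith)] at h6
    refine le_trans ?_ h6
    have h8 : (N : ℝ) / Real.exp (1 / Q) = N * Real.exp (-(1 / Q)) := by
      rw [Real.exp_neg, div_eq_mul_inv (N : ℝ)]
    rw [h8]
    have h7 := Real.add_one_le_exp (-(1 / Q : ℝ))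
    have : 1 - 1 / (Q : ℝ) ≤ Real.exp (-(1 / Q)) := by linarith
    gcongr
  constructor
  · have h5 : ⌊Real.exp ((i : ℝ) / Q)⌋₊ ≤ ⌊(N : ℝ)⌋₊ := Nat.floor_le_floor h3
    rwa [Nat.floor_natCast] at h5
  · have h5 := Nat.sub_one_lt_floor (Real.exp ((i : ℝ) / Q))
    have h6 : (N : ℝ) * (1 - 1 / Q) = N - N / Q := by ring
    linarith

/-- the exceptional set -/
def Ex (V : ℕ → Finset ι) (b : ℕ → ι → ℂ) (z : ι → ℂ) (A β θ : ℝ) (K₀ : ℕ) : Set ℕ :=
  {k : ℕ | K₀ ≤ k ∧ ∃ N : ℕ, (Real.log k) ^ A ≤ N ∧ (N : ℝ) ≤ (k : ℝ) ^ β ∧ ∃ j : ℕ,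
    (j : ℝ) ≤ (N : ℝ) ^ θ ∧ (N : ℝ) ^ (1 - θ) < ‖S (V N) (b j) z k‖}

theorem Fam.un2 (h : Fam V z d B C) {A β : ℝ} (hA : 1 < A) (hβ : 0 < β) :
    ∃ θ : ℝ, 0 < θ ∧ θ < 1 ∧ ∃ δ : ℝ, 0 < δ ∧ δ < 1 ∧ ∃ C' : ℝ, 0 < C' ∧ ∃ K₀ : ℕ, 1 ≤ K₀ ∧
      ∀ b : ℕ → ι → ℂ, (∀ j v, ‖b j v‖ ≤ 1) → ∀ X : ℕ,
        (({k : ℕ | k ∈ Ex V b z A β θ K₀ ∧ k ≤ X}.ncard : ℕ) : ℝ) ≤ C' * (X : ℝ) ^ (1 - δ) := by
  classical
  have hd1 := h.one_le_d
  have hA0 : 0 < A := by linarith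
  set A' : ℝ := (1 + A) / 2 with hA'
  have hA'1 : 1 < A' := by rw [hA']; linarith
  have hA'A : A' < A := by rw [hA']; linarith
  obtain ⟨θ₀, hθ₀, hθ₀1, δ₀, hδ₀, hδ₀1, C₀, hC₀, X₀, hper⟩ := h.perN hA'1 hβ
  set θ : ℝ := min (min (θ₀ / 2) (1 / 4)) (δ₀ / (16 * (β + 1))) with hθ
  have hθ0 : 0 < θ := lt_min (lt_min (by positivity) (by norm_num)) (by positivity)
  have hθa : 2 * θ ≤ θ₀ := by
    have : θ ≤ θ₀ / 2 := (min_le_left _ _).trans (min_le_left _ _)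
    linarith
  have hθb : θ ≤ 1 / 4 := (min_le_left _ _).trans (min_le_right _ _)
  have hθc : θ * (16 * (β + 1)) ≤ δ₀ := by
    have : θ ≤ δ₀ / (16 * (β + 1)) := min_le_right _ _
    rwa [le_div_iff₀ (by positivity)] at this
  -- conditions for large X
  have c1 : ∀ᶠ X : ℕ in atTop, max 4 ((3 * (d : ℝ)) ^ (1 / θ)) ≤ (Real.log X) ^ A' :=
    (tendsto_logpow (by linarith)).eventually_ge_atTop _
  have c2 : ∀ᶠ X : ℕ in atTop, (2 : ℝ) ^ (A + 1) ≤ (Real.log X) ^ (A - A') :=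
    (tendsto_logpow (by linarith)).eventually_ge_atTop _
  have c3 : ∀ᶠ X : ℕ in atTop, (4 : ℝ) ≤ (X : ℝ) ^ (δ₀ / 8) :=
    ((tendsto_rpow_atTop (by positivity)).comp tendsto_natCast_atTop_atTop).eventually_ge_atTop _
  have c4 : ∀ᶠ X : ℕ in atTop, Real.log X ≤ 1 / (4 * (β + 1)) * (X : ℝ) ^ (δ₀ / 8) := by
    have h1 : ∀ᶠ x : ℝ in atTop, ‖Real.log x‖ ≤ 1 / (4 * (β + 1)) * ‖x ^ (δ₀ / 8)‖ :=
      (isLittleO_log_rpow_atTop (show 0 < δ₀ / 8 by positivity)).bound (by positivity)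
    have h2 := (tendsto_natCast_atTop_atTop (R := ℝ)).eventually h1
    filter_upwards [h2] with X hX
    rw [Real.norm_of_nonneg (by positivity : (0 : ℝ) ≤ (X : ℝ) ^ (δ₀ / 8))] at hX
    exact (le_abs_self _).trans hX
  obtain ⟨X₁, hX₁⟩ := eventually_atTop.1 (c1.and (c2.and (c3.and c4)))
  obtain ⟨X₂, hX₂⟩ : ∃ X₂ : ℕ, X₂ = max (max X₀ X₁) 16 := ⟨_, rfl⟩
  have hX20 : X₀ ≤ X₂ := by rw [hX₂]; exact (le_max_left _ _).trans (le_max_left _ _)
  have hX21 : X₁ ≤ X₂ := by rw [hX₂]; exact (le_max_right _ _).trans (le_max_left _ _)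
  have hX216 : 16 ≤ X₂ := by rw [hX₂]; exact le_max_right _ _
  refine ⟨θ, hθ0, by linarith, δ₀ / 2, by positivity, by linarith, C₀ + 1 + X₂, by positivity, 1,
    le_rfl, fun b hb X => ?_⟩
  have hfin : {k : ℕ | k ∈ Ex V b z A β θ 1 ∧ k ≤ X}.Finite :=
    (Set.finite_Icc 0 X).subset fun k hk => ⟨Nat.zero_le _, hk.2⟩
  have hsubX : {k : ℕ | k ∈ Ex V b z A β θ 1 ∧ k ≤ X} ⊆ ((Icc 1 X : Finset ℕ) : Set ℕ) := by
    intro k hk
    rw [mem_coe, mem_Icc]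
    exact ⟨hk.1.1, hk.2⟩
  rcases lt_or_ge X X₂ with hXs | hXl
  · -- small X
    have h1 : {k : ℕ | k ∈ Ex V b z A β θ 1 ∧ k ≤ X}.ncard ≤ X := by
      have := Set.ncard_le_ncard hsubX (finite_toSet _)
      rw [Set.ncard_coe_finset, Nat.card_Icc] at this
      omega
    have h2 : (({k : ℕ | k ∈ Ex V b z A β θ 1 ∧ k ≤ X}.ncard : ℕ) : ℝ) ≤ X := by exact_mod_cast h1
    rcases Nat.eq_zero_or_pos X with rfl | hX1
    · refine h2.trans ?_
      push_cast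
      positivity
    · have hX1r : (1 : ℝ) ≤ X := by exact_mod_cast hX1
      have h3 : (1 : ℝ) ≤ (X : ℝ) ^ (1 - δ₀ / 2) := Real.one_le_rpow hX1r (by linarith)
      have h4 : (X : ℝ) ≤ X₂ := by exact_mod_cast hXs.le
      have h5 : (0 : ℝ) ≤ (X₂ : ℝ) := Nat.cast_nonneg _
      calc _ ≤ (X : ℝ) := h2
        _ ≤ X₂ := h4
        _ ≤ X₂ * (X : ℝ) ^ (1 - δ₀ / 2) := le_mul_of_one_le_right h5 h3
        _ ≤ (C₀ + 1 + X₂) * (X : ℝ) ^ (1 - δ₀ / 2) := by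
            apply mul_le_mul_of_nonneg_right _ (by positivity)
            linarith
  · -- large X
    obtain ⟨g1, g2, g3, g4⟩ := hX₁ X (hX21.trans hXl)
    have hX16 : 16 ≤ X := hX216.trans hXl
    have hXr : (16 : ℝ) ≤ X := by exact_mod_cast hX16
    have hX0 : (0 : ℝ) < X := by linarith
    have hX1r : (1 : ℝ) ≤ X := by linarith
    have hL0 : 0 < Real.log X := Real.log_pos (by linarith)
    obtain ⟨Q, hQ⟩ : ∃ Q : ℕ, Q = ⌈(X : ℝ) ^ (δ₀ / 8)⌉₊ := ⟨_, rfl⟩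
    have hQ1 : (X : ℝ) ^ (δ₀ / 8) ≤ Q := by rw [hQ]; exact Nat.le_ceil _
    have hQ2 : (Q : ℝ) ≤ (X : ℝ) ^ (δ₀ / 8) + 1 := by
      rw [hQ]; exact (Nat.ceil_lt_add_one (by positivity)).le
    have hQ4 : (4 : ℝ) ≤ Q := g3.trans hQ1
    have hQn : 1 ≤ Q := by
      have : (1 : ℝ) ≤ Q := by linarith
      exact_mod_cast this
    obtain ⟨I, hI⟩ : ∃ I : ℕ, I = ⌊(Q : ℝ) * (β * Real.log X)⌋₊ := ⟨_, rfl⟩
    obtain ⟨J, hJ⟩ : ∃ J : ℕ, J = ⌊(X : ℝ) ^ (β * θ)⌋₊ := ⟨_, rfl⟩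
    set nd : ℕ → ℕ := fun i => ⌊Real.exp ((i : ℝ) / Q)⌋₊ with hnd
    set G : Finset ℕ := (range (I + 1)).filter fun i =>
      (Real.log X) ^ A' ≤ (nd i : ℝ) ∧ (nd i : ℝ) ≤ (X : ℝ) ^ β with hG
    set bad : ℕ → ℕ → Finset ℕ := fun i j =>
      (Icc 1 X).filter fun k => (nd i : ℝ) ^ (1 - θ₀) ≤ ‖S (V (nd i)) (b j) z k‖ with hbad
    have hsub : {k : ℕ | k ∈ Ex V b z A β θ 1 ∧ k ≤ X} ⊆
        ((Icc 1 (Nat.sqrt X) ∪ G.biUnion fun i => (range (J + 1)).biUnion fun j => bad i j :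
          Finset ℕ) : Set ℕ) := by
      rintro k ⟨⟨hk1, N, hN1, hN2, j, hj, hlt⟩, hkX⟩
      rw [mem_coe, mem_union]
      by_cases hks : k ≤ Nat.sqrt X
      · left
        rw [mem_Icc]
        exact ⟨hk1, hks⟩
      right
      push Not at hks
      have hkr : (1 : ℝ) ≤ k := by exact_mod_cast hk1
      have hk0 : (0 : ℝ) < k := by linarith
      have hkXr : (k : ℝ) ≤ X := by exact_mod_cast hkX
      have hk2 : (X : ℝ) ≤ (k : ℝ) ^ 2 := by
        have : X < (Nat.sqrt X + 1) ^ 2 := by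
          have := Nat.lt_succ_sqrt' X
          exact this
        have h2 : (Nat.sqrt X + 1) ^ 2 ≤ k ^ 2 := Nat.pow_le_pow_left hks 2
        exact_mod_cast (this.trans_le h2).le
      have hlogk : Real.log X / 2 ≤ Real.log k := by
        have := Real.log_le_log hX0 hk2
        rw [Real.log_pow] at this
        push_cast at this
        linarith
      -- N is large
      have hNbig : 2 * (Real.log X) ^ A' ≤ N := by
        have e1 : (Real.log X / 2) ^ A ≤ N := (Real.rpow_le_rpow (by positivity) hlogk hA0.le).trans hN1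
        have e2 : (Real.log X / 2) ^ A = (Real.log X) ^ A / 2 ^ A := Real.div_rpow hL0.le (by norm_num) _
        have e3 : (Real.log X) ^ A = (Real.log X) ^ A' * (Real.log X) ^ (A - A') := by
          rw [← Real.rpow_add hL0]; congr 1; ring
        have e4 : (2 : ℝ) ^ (A + 1) = 2 ^ A * 2 := by
          rw [Real.rpow_add (by norm_num), Real.rpow_one]
        rw [e4] at g2
        have hp : (0 : ℝ) < 2 ^ A := by positivity
        have hp2 : 0 ≤ (Real.log X) ^ A' := by positivity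
        rw [e2, e3] at e1
        refine le_trans ?_ e1
        rw [le_div_iff₀ hp]
        calc 2 * (Real.log X) ^ A' * 2 ^ A = (Real.log X) ^ A' * (2 ^ A * 2) := by ring
          _ ≤ _ := by gcongr
      have hLA4 : (4 : ℝ) ≤ (Real.log X) ^ A' := (le_max_left _ _).trans g1
      have hN8 : (8 : ℝ) ≤ N := by linarith
      have hN0 : (0 : ℝ) < N := by linarith
      have hN1' : (1 : ℝ) ≤ N := by linarith
      have hNn : 1 ≤ N := by exact_mod_cast hN1'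
      have hNX : (N : ℝ) ≤ (X : ℝ) ^ β := hN2.trans (Real.rpow_le_rpow hk0.le hkXr hβ.le)
      have hlogN : Real.log N ≤ β * Real.log X := by
        rw [← Real.log_rpow hX0]
        exact Real.log_le_log hN0 hNX
      have hlogN0 : 0 ≤ Real.log N := Real.log_nonneg hN1'
      obtain ⟨hgr1, hgr2⟩ := grid hQn hNn
      obtain ⟨i, hi⟩ : ∃ i : ℕ, i = ⌊(Q : ℝ) * Real.log N⌋₊ := ⟨_, rfl⟩
      rw [← hi] at hgr1 hgr2
      have hndi : nd i = ⌊Real.exp ((i : ℝ) / Q)⌋₊ := rfl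
      rw [← hndi] at hgr1 hgr2
      have hiI : i ≤ I := by
        rw [hi, hI]
        apply Nat.floor_le_floor
        gcongr
      have hndN : (nd i : ℝ) ≤ N := by exact_mod_cast hgr1
      have hNQ4 : (N : ℝ) / Q ≤ N / 4 := div_le_div_of_nonneg_left hN0.le (by norm_num) hQ4
      have hnd2 : (Real.log X) ^ A' ≤ nd i := by linarith
      have hjJ : j ≤ J := by
        rw [hJ]
        apply Nat.le_floor
        refine hj.trans ?_
        rw [Real.rpow_mul hX0.le]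
        exact Real.rpow_le_rpow hN0.le hNX hθ0.le
      rw [mem_biUnion]
      refine ⟨i, ?_, ?_⟩
      · rw [hG, mem_filter, mem_range]
        exact ⟨by omega, hnd2, hndN.trans hNX⟩
      rw [mem_biUnion]
      refine ⟨j, ?_, ?_⟩
      · rw [mem_range]; omega
      rw [hbad]
      simp only
      rw [mem_filter, mem_Icc]
      refine ⟨⟨hk1, hkX⟩, ?_⟩
      -- the comparison
      have ht := h.tail (hb j) hgr1 k
      have hθN : 3 * (d : ℝ) ≤ (N : ℝ) ^ θ := by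
        have e1 : (3 * (d : ℝ)) ^ (1 / θ) ≤ N := by
          have := (le_max_right 4 ((3 * (d : ℝ)) ^ (1 / θ))).trans g1
          linarith
        have e2 : ((3 * (d : ℝ)) ^ (1 / θ)) ^ θ ≤ (N : ℝ) ^ θ :=
          Real.rpow_le_rpow (by positivity) e1 hθ0.le
        rwa [← Real.rpow_mul (by positivity), one_div_mul_cancel hθ0.ne', Real.rpow_one] at e2
      have hNQ : (N : ℝ) / Q ≤ (N : ℝ) ^ (1 - 2 * θ) := by
        have e1 : (N : ℝ) ^ (2 * θ) ≤ Q := by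
          refine le_trans ?_ hQ1
          calc (N : ℝ) ^ (2 * θ) ≤ ((X : ℝ) ^ β) ^ (2 * θ) := Real.rpow_le_rpow hN0.le hNX (by positivity)
            _ = (X : ℝ) ^ (β * (2 * θ)) := by rw [Real.rpow_mul hX0.le]
            _ ≤ (X : ℝ) ^ (δ₀ / 8) := by
                apply Real.rpow_le_rpow_of_exponent_le hX1r
                nlinarith
        rw [Real.rpow_sub hN0, Real.rpow_one]
        exact div_le_div_of_nonneg_left hN0.le (Real.rpow_pos_of_pos hN0 _) e1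
      have hone : (1 : ℝ) ≤ (N : ℝ) ^ (1 - 2 * θ) := Real.one_le_rpow hN1' (by linarith)
      have hθ0' : (N : ℝ) ^ (1 - θ₀) ≤ (N : ℝ) ^ (1 - 2 * θ) :=
        Real.rpow_le_rpow_of_exponent_le hN1' (by linarith)
      have hndθ : (nd i : ℝ) ^ (1 - θ₀) ≤ (N : ℝ) ^ (1 - θ₀) :=
        Real.rpow_le_rpow (Nat.cast_nonneg _) hndN (by linarith)
      have hsplit : (N : ℝ) ^ (1 - θ) = (N : ℝ) ^ (1 - 2 * θ) * (N : ℝ) ^ θ := by
        rw [← Real.rpow_add hN0]; congr 1; ring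
      have h3 : 3 * d * (N : ℝ) ^ (1 - 2 * θ) ≤ (N : ℝ) ^ (1 - θ) := by
        rw [hsplit, mul_comm]
        gcongr
      have h4 : (d : ℝ) * ((N : ℝ) - nd i) ≤ d * (N : ℝ) ^ (1 - 2 * θ) + d * (N : ℝ) ^ (1 - 2 * θ) := by
        rw [← mul_add]
        apply mul_le_mul_of_nonneg_left _ (by positivity)
        linarith
      have h5 : (N : ℝ) ^ (1 - 2 * θ) ≤ d * (N : ℝ) ^ (1 - 2 * θ) :=
        le_mul_of_one_le_left (by positivity) hd1
      linarith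
    -- the count
    have hcard : ∀ i ∈ G, ∀ j ∈ range (J + 1), ((bad i j).card : ℝ) ≤ C₀ * (X : ℝ) ^ (1 - δ₀) := by
      intro i hi j _
      rw [hG, mem_filter] at hi
      exact hper (b j) (hb j) X (nd i) (hX20.trans hXl) hi.2.1 hi.2.2
    have h1 := Set.ncard_le_ncard hsub (finite_toSet _)
    rw [Set.ncard_coe_finset] at h1
    have h2 : ((Icc 1 (Nat.sqrt X) ∪ G.biUnion fun i => (range (J + 1)).biUnion fun j => bad i j :
          Finset ℕ).card : ℝ) ≤ Nat.sqrt X + (I + 1) * ((J + 1) * (C₀ * (X : ℝ) ^ (1 - δ₀))) := by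
      have e1 : ((Icc 1 (Nat.sqrt X) ∪ G.biUnion fun i => (range (J + 1)).biUnion fun j => bad i j :
          Finset ℕ).card : ℝ) ≤ ((Icc 1 (Nat.sqrt X)).card : ℝ) +
            ((G.biUnion fun i => (range (J + 1)).biUnion fun j => bad i j).card : ℝ) := by
        exact_mod_cast card_union_le _ _
      have e2 : (((G.biUnion fun i => (range (J + 1)).biUnion fun j => bad i j).card : ℕ) : ℝ) ≤
          (I + 1) * ((J + 1) * (C₀ * (X : ℝ) ^ (1 - δ₀))) := by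
        have f1 : ((G.biUnion fun i => (range (J + 1)).biUnion fun j => bad i j).card : ℝ) ≤
            ∑ i ∈ G, (((range (J + 1)).biUnion fun j => bad i j).card : ℝ) := by
          exact_mod_cast card_biUnion_le
        have f2 : ∀ i ∈ G, (((range (J + 1)).biUnion fun j => bad i j).card : ℝ) ≤
            (J + 1) * (C₀ * (X : ℝ) ^ (1 - δ₀)) := by
          intro i hi
          have f3 : (((range (J + 1)).biUnion fun j => bad i j).card : ℝ) ≤
              ∑ j ∈ range (J + 1), ((bad i j).card : ℝ) := by exact_mod_cast card_biUnion_le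
          refine f3.trans ((sum_le_card_nsmul _ _ _ (hcard i hi)).trans ?_)
          rw [card_range, nsmul_eq_mul]
          push_cast
          exact le_rfl
        refine f1.trans ((sum_le_card_nsmul _ _ _ f2).trans ?_)
        rw [nsmul_eq_mul]
        apply mul_le_mul_of_nonneg_right _ (by positivity)
        have f4 : G.card ≤ I + 1 := by
          have := card_filter_le (range (I + 1)) fun i =>
            (Real.log X) ^ A' ≤ (nd i : ℝ) ∧ (nd i : ℝ) ≤ (X : ℝ) ^ β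
          rwa [card_range] at this
        exact_mod_cast f4
      rw [Nat.card_Icc, Nat.add_sub_cancel] at e1
      linarith
    have h3 : (Nat.sqrt X : ℝ) ≤ (X : ℝ) ^ (1 - δ₀ / 2) := by
      calc (Nat.sqrt X : ℝ) ≤ Real.sqrt X := Real.nat_sqrt_le_real_sqrt
        _ = (X : ℝ) ^ (1 / 2 : ℝ) := Real.sqrt_eq_rpow _
        _ ≤ _ := Real.rpow_le_rpow_of_exponent_le hX1r (by linarith)
    have hI1 : (I : ℝ) + 1 ≤ (X : ℝ) ^ (δ₀ / 4) := by
      have e1 : (I : ℝ) ≤ Q * (β * Real.log X) := by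
        rw [hI]; exact Nat.floor_le (by positivity)
      have e2 : (Q : ℝ) ≤ 2 * (X : ℝ) ^ (δ₀ / 8) := by linarith
      have e3 : β * Real.log X ≤ 1 / 4 * (X : ℝ) ^ (δ₀ / 8) := by
        calc β * Real.log X ≤ (β + 1) * Real.log X := by nlinarith
          _ ≤ (β + 1) * (1 / (4 * (β + 1)) * (X : ℝ) ^ (δ₀ / 8)) := by gcongr
          _ = _ := by field_simp
      have e4 : (X : ℝ) ^ (δ₀ / 4) = (X : ℝ) ^ (δ₀ / 8) * (X : ℝ) ^ (δ₀ / 8) := by
        rw [← Real.rpow_add hX0]; congr 1; ring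
      rw [e4]
      have e5 : (I : ℝ) ≤ (2 * (X : ℝ) ^ (δ₀ / 8)) * (1 / 4 * (X : ℝ) ^ (δ₀ / 8)) :=
        e1.trans (mul_le_mul e2 e3 (by positivity) (by positivity))
      nlinarith
    have hJ1 : (J : ℝ) + 1 ≤ (X : ℝ) ^ (δ₀ / 4) := by
      have e1 : (J : ℝ) ≤ (X : ℝ) ^ (β * θ) := by
        rw [hJ]; exact Nat.floor_le (by positivity)
      have e2 : (X : ℝ) ^ (β * θ) ≤ (X : ℝ) ^ (δ₀ / 8) := by
        apply Real.rpow_le_rpow_of_exponent_le hX1r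
        nlinarith
      have e4 : (X : ℝ) ^ (δ₀ / 4) = (X : ℝ) ^ (δ₀ / 8) * (X : ℝ) ^ (δ₀ / 8) := by
        rw [← Real.rpow_add hX0]; congr 1; ring
      rw [e4]
      nlinarith
    have h4 : ((I : ℝ) + 1) * ((J + 1) * (C₀ * (X : ℝ) ^ (1 - δ₀))) ≤ C₀ * (X : ℝ) ^ (1 - δ₀ / 2) := by
      calc ((I : ℝ) + 1) * ((J + 1) * (C₀ * (X : ℝ) ^ (1 - δ₀)))
          ≤ (X : ℝ) ^ (δ₀ / 4) * ((X : ℝ) ^ (δ₀ / 4) * (C₀ * (X : ℝ) ^ (1 - δ₀))) := by gcongr
        _ = C₀ * ((X : ℝ) ^ (δ₀ / 4) * (X : ℝ) ^ (δ₀ / 4) * (X : ℝ) ^ (1 - δ₀)) := by ring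
        _ = _ := by
            rw [← Real.rpow_add hX0, ← Real.rpow_add hX0]
            congr 2; ring
    have h5 : (0 : ℝ) ≤ X₂ * (X : ℝ) ^ (1 - δ₀ / 2) := by positivity
    have h6 : (({k : ℕ | k ∈ Ex V b z A β θ 1 ∧ k ≤ X}.ncard : ℕ) : ℝ) ≤
        ((Icc 1 (Nat.sqrt X) ∪ G.biUnion fun i => (range (J + 1)).biUnion fun j => bad i j :
          Finset ℕ).card : ℝ) := by exact_mod_cast h1
    calc _ ≤ _ := h6
      _ ≤ _ := h2
      _ ≤ (X : ℝ) ^ (1 - δ₀ / 2) + C₀ * (X : ℝ) ^ (1 - δ₀ / 2) := add_le_add h3 h4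
      _ ≤ _ := by linarith

end Pool.Agent.H4.Mom
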